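import Pool.Agent.Lib.MP_b35d54_lc.Paths

/-!
# Numerical form of the dimension bound
-/

namespace Pool.Agent.MP_b35d54_lc

open Finset

theorem choose_exchange {m a b : ℕ} (h : a ≤ b) :
    m.choose a * m.choose (b + 1) ≤ m.choose (a + 1) * m.choose b := by
  by_cases ha : m ≤ a
  · rw [Nat.choose_eq_zero_of_lt (by omega : m < b + 1), mul_zero]
    exact Nat.zero_le _
  · have e1 := Nat.choose_succ_right_eq m a
    have e2 := Nat.choose_succ_right_eq m b
    have h1 : (a + 1) * (m - b) ≤ (b + 1) * (m - a) := Nat.mul_le_mul (by omega) (by omega)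
    have h2 : 0 < (b + 1) * (m - a) := Nat.mul_pos (by omega) (by omega)
    refine Nat.le_of_mul_le_mul_right ?_ h2
    calc m.choose a * m.choose (b + 1) * ((b + 1) * (m - a))
        = (m.choose a * (m - a)) * (m.choose (b + 1) * (b + 1)) := by ring
      _ = (m.choose (a + 1) * (a + 1)) * (m.choose b * (m - b)) := by rw [e1, e2]
      _ = m.choose (a + 1) * m.choose b * ((a + 1) * (m - b)) := by ring
      _ ≤ m.choose (a + 1) * m.choose b * ((b + 1) * (m - a)) := Nat.mul_le_mul_left _ h1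

theorem choose_pair_le (m h : ℕ) : ∀ t ≤ h, m.choose (h - t) * m.choose (h + t) ≤
    (m.choose h) ^ 2 := by
  intro t
  induction t with
  | zero => intro _; rw [Nat.sub_zero, Nat.add_zero, sq]
  | succ t ih =>
    intro ht
    have h1 := choose_exchange (m := m) (a := h - (t + 1)) (b := h + t) (by omega)
    have e1 : h - (t + 1) + 1 = h - t := by omega
    have e2 : h + t + 1 = h + (t + 1) := by omega
    rw [e1, e2] at h1
    exact h1.trans (ih (by omega))

theorem choose_double_le (m h : ℕ) :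
    (m + m).choose (2 * h) ≤ (2 * h + 1) * (m.choose h) ^ 2 := by
  rw [Nat.add_choose_eq]
  calc ∑ ij ∈ antidiagonal (2 * h), m.choose ij.1 * m.choose ij.2
      ≤ ∑ _ij ∈ antidiagonal (2 * h), (m.choose h) ^ 2 := by
        refine sum_le_sum fun ij hij => ?_
        rw [Finset.HasAntidiagonal.mem_antidiagonal] at hij
        rcases le_total ij.1 ij.2 with h1 | h1
        · have := choose_pair_le m h (h - ij.1) (by omega)
          have e1 : h - (h - ij.1) = ij.1 := by omega
          have e2 : h + (h - ij.1) = ij.2 := by omega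
          rwa [e1, e2] at this
        · have := choose_pair_le m h (h - ij.2) (by omega)
          have e1 : h - (h - ij.2) = ij.2 := by omega
          have e2 : h + (h - ij.2) = ij.1 := by omega
          rw [e1, e2] at this
          rwa [mul_comm]
    _ = (2 * h + 1) * (m.choose h) ^ 2 := by
        rw [sum_const, Nat.card_antidiagonal, smul_eq_mul]

theorem choose_step (n j : ℕ) : (n + 1).choose (j + 1) ≤ (n + 1) * n.choose j := by
  have h := Nat.add_one_mul_choose_eq n j
  rw [h]
  exact Nat.le_mul_of_pos_right _ (Nat.succ_pos j)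

theorem choose_steps (n j : ℕ) : ∀ s, (n + s).choose (j + s) ≤ (n + s) ^ s * n.choose j := by
  intro s
  induction s with
  | zero => simp
  | succ s ih =>
    have h1 := choose_step (n + s) (j + s)
    calc (n + (s + 1)).choose (j + (s + 1)) ≤ (n + s + 1) * (n + s).choose (j + s) := h1
      _ ≤ (n + s + 1) * ((n + s) ^ s * n.choose j) := Nat.mul_le_mul_left _ ih
      _ ≤ (n + s + 1) * ((n + s + 1) ^ s * n.choose j) :=
          Nat.mul_le_mul_left _ (Nat.mul_le_mul_right _ (Nat.pow_le_pow_left (by omega) s))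
      _ = (n + (s + 1)) ^ (s + 1) * n.choose j := by ring

theorem choose_mono_half {N a b : ℕ} (hab : a ≤ b) (hb : 2 * b ≤ N) :
    N.choose a ≤ N.choose b := by
  induction b, hab using Nat.le_induction with
  | base => exact le_rfl
  | succ b hab ih =>
    exact (ih (by omega)).trans (Nat.choose_le_succ_of_lt_half_left (by omega))

/-- For the walks of length at most `k` and the cycles with `k` vertices. -/
theorem bound_choose {n k q : ℕ} (hk : 3 ≤ k) (hkn : k ≤ n)
    (h : (((n - 3 - (k - 3) % 2) / 2).choose ((k - 3) / 4)) ^ 2 ≤ 2 * q) :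
    n.choose (k / 2) ≤ 2 * n ^ 6 * q := by
  set m := (n - 3 - (k - 3) % 2) / 2 with hm
  set s := (k - 3) / 4 with hs
  have hsm : 2 * s ≤ m := by omega
  by_cases hj : k / 2 < 5
  · have h1 : 0 < m.choose s := Nat.choose_pos (by omega)
    have h2 : 0 < (m.choose s) ^ 2 := pow_pos h1 2
    have h3 : 1 ≤ q := by omega
    calc n.choose (k / 2) ≤ n ^ (k / 2) := Nat.choose_le_pow n (k / 2)
      _ ≤ n ^ 6 := Nat.pow_le_pow_right (by omega) (by omega)
      _ ≤ 2 * n ^ 6 * q := by nlinarith [Nat.zero_le (n ^ 6)]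
  · obtain ⟨N, rfl⟩ : ∃ N, n = N + 5 := ⟨n - 5, by omega⟩
    obtain ⟨j, hj'⟩ : ∃ j, k / 2 = j + 5 := ⟨k / 2 - 5, by omega⟩
    rw [hj']
    calc (N + 5).choose (j + 5) ≤ (N + 5) ^ 5 * N.choose j := choose_steps N j 5
      _ ≤ (N + 5) ^ 5 * (m + m).choose j :=
          Nat.mul_le_mul_left _ (Nat.choose_le_choose j (by omega))
      _ ≤ (N + 5) ^ 5 * (m + m).choose (2 * s) :=
          Nat.mul_le_mul_left _ (choose_mono_half (by omega) (by omega))
      _ ≤ (N + 5) ^ 5 * ((2 * s + 1) * (m.choose s) ^ 2) :=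
          Nat.mul_le_mul_left _ (choose_double_le m s)
      _ ≤ (N + 5) ^ 5 * ((N + 5) * (2 * q)) :=
          Nat.mul_le_mul_left _ (Nat.mul_le_mul (by omega) h)
      _ = 2 * (N + 5) ^ 6 * q := by ring

/-- For the walks of length at most `n` and the Hamiltonian cycles. -/
theorem bound_two {n q : ℕ} (hn : 3 ≤ n)
    (h : (((n - 3 - (n - 3) % 2) / 2).choose ((n - 3) / 4)) ^ 2 ≤ 2 * q) :
    2 ^ n ≤ 8 * n ^ 2 * q := by
  set m := (n - 3 - (n - 3) % 2) / 2 with hm
  have hs : (n - 3) / 4 = m / 2 := by omega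
  rw [hs] at h
  have h1 := two_pow_le_middle m
  have h2 : 2 ^ n ≤ 2 ^ (m + m + 4) := Nat.pow_le_pow_right (by norm_num) (by omega)
  have h3 : 2 * (m + 1) ≤ n := by omega
  calc 2 ^ n ≤ 2 ^ (m + m + 4) := h2
    _ = 16 * (2 ^ m * 2 ^ m) := by rw [pow_add, pow_add]; ring
    _ ≤ 16 * (((m + 1) * m.choose (m / 2)) * ((m + 1) * m.choose (m / 2))) :=
        Nat.mul_le_mul_left _ (Nat.mul_le_mul h1 h1)
    _ = 4 * (2 * (m + 1)) ^ 2 * (m.choose (m / 2)) ^ 2 := by ring
    _ ≤ 4 * n ^ 2 * (2 * q) :=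
        Nat.mul_le_mul (Nat.mul_le_mul_left _ (Nat.pow_le_pow_left h3 2)) h
    _ = 8 * n ^ 2 * q := by ring

end Pool.Agent.MP_b35d54_lc
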