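import Pool.Agent.Lib.PolyTime.OracleSum
import Pool.Agent.Lib.PolyTime.Finite

/-!
# Enumeration of the small subsets

The sets of at most `R` numbers below `n`, as decreasing lists, in preorder.
-/

namespace Pool.Agent.MP_b35d54_lc

open Pool.Agent.PolyTime Finset

/-- What follows after all extensions of `t`. -/
def exi : List ℕ → Option (List ℕ)
  | [] => none
  | h :: t => some ((h + 1) :: t)

/-- The successor in the enumeration. -/
def nxt (n R : ℕ) (l : List ℕ) : Option (List ℕ) :=
  match l with
  | [] => if 0 < R ∧ 0 < n then some [0] else none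
  | h :: t =>
    if h + 1 < n then
      (if t.length + 1 < R then some ((h + 1) :: h :: t) else some ((h + 1) :: t))
    else
      match t with
      | [] => none
      | h' :: t' => some ((h' + 1) :: t')

theorem nxt_nil (n R : ℕ) : nxt n R [] = if 0 < R ∧ 0 < n then some [0] else none := rfl

theorem nxt_cons (n R h : ℕ) (t : List ℕ) : nxt n R (h :: t) = if h + 1 < n then
    (if t.length + 1 < R then some ((h + 1) :: h :: t) else some ((h + 1) :: t)) else exi t := by
  cases t <;> rfl

/-- The extensions of `t` by at most `r` numbers in `[n - d, n)`. -/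
def en (n : ℕ) : ℕ → ℕ → List ℕ → List (List ℕ)
  | 0, _, _ => []
  | _ + 1, 0, _ => []
  | d + 1, r + 1, t =>
    ((n - (d + 1)) :: t) :: (en n d r ((n - (d + 1)) :: t) ++ en n d (r + 1) t)

/-- All sets of at most `R` numbers below `n`. -/
def subs (n R : ℕ) : List (List ℕ) := [] :: en n n R []

theorem en_zero_right (n d : ℕ) (t : List ℕ) : en n d 0 t = [] := by
  cases d <;> rfl

theorem en_head (n d r : ℕ) (t : List ℕ) :
    (en n (d + 1) (r + 1) t).head? = some ((n - (d + 1)) :: t) := rfl

theorem en_chained (n R : ℕ) : ∀ d ≤ n, ∀ (r : ℕ) (t : List ℕ), t.length + r = R →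
    Chained (nxt n R) (en n d r t) (exi t) := by
  intro d
  induction d with
  | zero => intro _ r t _; exact trivial
  | succ d ih =>
    intro hd r t hr
    cases r with
    | zero => exact trivial
    | succ r =>
      have h1 : Chained (nxt n R) (en n d r ((n - (d + 1)) :: t))
          (exi ((n - (d + 1)) :: t)) := ih (by omega) r _ (by rw [List.length_cons]; omega)
      have h2 : Chained (nxt n R) (en n d (r + 1) t) (exi t) := ih (by omega) (r + 1) t hr
      refine ⟨?_, chained_append ?_ h2⟩
      · cases d with
        | zero =>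
          change nxt n R ((n - 1) :: t) = exi t
          have : ¬ (n - 1 + 1 < n) := by omega
          rw [nxt_cons, if_neg this]
        | succ d =>
          have e1 : n - (d + 1 + 1) + 1 = n - (d + 1) := by omega
          have e2 : n - (d + 1 + 1) + 1 < n := by omega
          rw [nxt_cons, if_pos e2]
          cases r with
          | zero =>
            rw [if_neg (by omega), en_zero_right, List.nil_append, en_head, e1]
            rfl
          | succ r =>
            rw [if_pos (by omega), List.head?_append, en_head, e1]
            rfl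
      · cases d with
        | zero => exact trivial
        | succ d =>
          rw [en_head]
          have e1 : n - (d + 1 + 1) + 1 = n - (d + 1) := by omega
          rw [exi, e1] at h1
          exact h1

theorem subs_chained (n R : ℕ) : Chained (nxt n R) (subs n R) none := by
  refine ⟨?_, en_chained n R n le_rfl R [] (by simp)⟩
  cases n with
  | zero =>
    rw [nxt_nil, if_neg (by omega)]
    rfl
  | succ n =>
    cases R with
    | zero =>
      rw [nxt_nil, if_neg (by omega)]
      rfl
    | succ R =>
      rw [nxt_nil, if_pos (by omega), en_head, Nat.sub_self]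
      rfl

theorem en_mem {n : ℕ} : ∀ d ≤ n, ∀ (r : ℕ) (t : List ℕ), ∀ l ∈ en n d r t,
    l.length ≤ t.length + r ∧ l.length ≤ t.length + d ∧ ∀ x ∈ l, x < n ∨ x ∈ t := by
  intro d
  induction d with
  | zero => intro _ r t l hl; simp [en] at hl
  | succ d ih =>
    intro hd r t l hl
    cases r with
    | zero => simp [en] at hl
    | succ r =>
      rw [en, List.mem_cons, List.mem_append] at hl
      rcases hl with rfl | hl | hl
      · refine ⟨by rw [List.length_cons]; omega, by rw [List.length_cons]; omega, ?_⟩
        intro x hx
        rcases List.mem_cons.1 hx with rfl | hx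
        · left; omega
        · right; exact hx
      · obtain ⟨h1, h2, h3⟩ := ih (by omega) r _ l hl
        rw [List.length_cons] at h1 h2
        refine ⟨by omega, by omega, fun x hx => ?_⟩
        rcases h3 x hx with h | h
        · left; exact h
        · rcases List.mem_cons.1 h with rfl | h
          · left; omega
          · right; exact h
      · obtain ⟨h1, h2, h3⟩ := ih (by omega) (r + 1) _ l hl
        exact ⟨by omega, by omega, h3⟩

theorem subs_mem {n R : ℕ} {l : List ℕ} (hl : l ∈ subs n R) :
    l.length ≤ R ∧ l.length ≤ n ∧ ∀ x ∈ l, x < n := by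
  rw [subs, List.mem_cons] at hl
  rcases hl with rfl | hl
  · simp
  · obtain ⟨h1, h2, h3⟩ := en_mem n le_rfl R [] l hl
    refine ⟨by simpa using h1, by simpa using h2, fun x hx => ?_⟩
    simpa using h3 x hx

/-- The sum over the enumeration as a sum over sets. -/
theorem en_sum {M : Type} [AddCommMonoid M] (n : ℕ) (Φ : Finset ℕ → M) :
    ∀ d ≤ n, ∀ (r : ℕ) (t : List ℕ), (∀ x ∈ t, x < n - d) →
      Φ t.toFinset + ((en n d r t).map fun l => Φ l.toFinset).sum =
        ∑ T ∈ (Ico (n - d) n).powerset, if #T ≤ r then Φ (t.toFinset ∪ T) else 0 := by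
  intro d
  induction d with
  | zero =>
    intro _ r t _
    simp [en]
  | succ d ih =>
    intro hd r t ht
    cases r with
    | zero =>
      rw [en_zero_right, List.map_nil, List.sum_nil, add_zero, sum_eq_single ∅]
      · simp
      · intro T _ hT
        rw [if_neg]
        intro h
        exact hT (card_eq_zero.1 (by omega))
      · intro h
        exact absurd (empty_mem_powerset _) h
    | succ r =>
      have e1 : Ico (n - (d + 1)) n = insert (n - (d + 1)) (Ico (n - d) n) := by
        ext x
        simp only [mem_Ico, mem_insert]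
        omega
      have hnot : n - (d + 1) ∉ Ico (n - d) n := by
        simp only [mem_Ico]; omega
      rw [e1, sum_powerset_insert hnot]
      have h1 := ih (by omega) (r + 1) t (fun x hx => by have := ht x hx; omega)
      have h2 := ih (by omega) r ((n - (d + 1)) :: t) (fun x hx => by
        rcases List.mem_cons.1 hx with rfl | hx
        · omega
        · have := ht x hx; omega)
      rw [← h1]
      have h3 : ∑ T ∈ (Ico (n - d) n).powerset,
          (if #(insert (n - (d + 1)) T) ≤ r + 1 then
            Φ (t.toFinset ∪ insert (n - (d + 1)) T) else 0) =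
          ∑ T ∈ (Ico (n - d) n).powerset,
            if #T ≤ r then Φ (((n - (d + 1)) :: t).toFinset ∪ T) else 0 := by
        refine sum_congr rfl fun T hT => ?_
        rw [mem_powerset] at hT
        have hnT : n - (d + 1) ∉ T := fun h => hnot (hT h)
        rw [card_insert_of_notMem hnT, List.toFinset_cons, insert_union, union_insert]
        simp only [Nat.add_le_add_iff_right]
      rw [h3, ← h2, en, List.map_cons, List.sum_cons, List.map_append, List.sum_append]
      abel

/-- The sum over the enumeration as a sum over the small subsets of `Fin n`. -/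
theorem subs_sum {M : Type} [AddCommMonoid M] (n R : ℕ) (Ψ : Finset (Fin n) → M) :
    ((subs n R).map fun l => Ψ ({v | v.val ∈ l} : Finset (Fin n))).sum =
      ∑ S : Finset (Fin n), if #S ≤ R then Ψ S else 0 := by
  set Φ : Finset ℕ → M := fun T => Ψ ({v | v.val ∈ T} : Finset (Fin n)) with hΦ
  have h1 : ∀ l : List ℕ, Ψ ({v | v.val ∈ l} : Finset (Fin n)) = Φ l.toFinset := by
    intro l
    rw [hΦ]
    simp only [List.mem_toFinset]
  rw [List.map_congr_left fun l _ => h1 l, subs, List.map_cons, List.sum_cons]
  have h2 := en_sum n Φ n le_rfl R [] (by simp)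
  rw [h2, Nat.sub_self, ← Finset.range_eq_Ico]
  simp only [List.toFinset_nil, empty_union]
  symm
  refine sum_bij (fun S _ => S.map Fin.valEmbedding) ?_ ?_ ?_ ?_
  · intro S _
    rw [mem_powerset]
    intro x hx
    rw [mem_map] at hx
    obtain ⟨v, _, rfl⟩ := hx
    exact mem_range.2 v.2
  · intro S _ S' _ h
    exact map_injective _ h
  · intro T hT
    rw [mem_powerset] at hT
    refine ⟨({v | v.val ∈ T} : Finset (Fin n)), mem_univ _, ?_⟩
    ext x
    simp only [mem_map, mem_filter, mem_univ, true_and, Fin.valEmbedding_apply]
    constructor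
    · rintro ⟨v, hv, rfl⟩
      exact hv
    · intro hx
      exact ⟨⟨x, mem_range.1 (hT hx)⟩, hx, rfl⟩
  · intro S _
    rw [card_map]
    congr 1
    rw [hΦ]
    congr 1
    ext v
    simp only [mem_map, Fin.valEmbedding_apply, mem_filter, mem_univ, true_and]
    constructor
    · intro hv
      exact ⟨v, hv, rfl⟩
    · rintro ⟨u, hu, huv⟩
      rwa [← Fin.ext huv]

theorem subs_length (n R : ℕ) : (subs n R).length = ∑ i ∈ range (R + 1), n.choose i := by
  have h := subs_sum n R (fun _ => (1 : ℕ))
  rw [List.map_const', List.sum_replicate, smul_eq_mul, mul_one] at h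
  rw [h, ← sum_filter, sum_const, smul_eq_mul, mul_one]
  have e : ({S : Finset (Fin n) | #S ≤ R} : Finset _) =
      (range (R + 1)).biUnion fun i => powersetCard i (univ : Finset (Fin n)) := by
    ext S
    simp
  rw [e, card_biUnion]
  · refine sum_congr rfl fun i _ => ?_
    rw [card_powersetCard, card_univ, Fintype.card_fin]
  · intro i _ j _ hij
    rw [Function.onFun, Finset.disjoint_left]
    intro S hS hS'
    rw [mem_powersetCard] at hS hS'
    omega

theorem subs_length_le (n R : ℕ) : (subs n R).length ≤ 2 ^ n := by
  have h := subs_sum n R (fun _ => (1 : ℕ))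
  rw [List.map_const', List.sum_replicate, smul_eq_mul, mul_one] at h
  rw [h, ← sum_filter, sum_const, smul_eq_mul, mul_one]
  refine (card_filter_le _ _).trans ?_
  rw [card_univ, Fintype.card_finset, Fintype.card_fin]

section ptime
variable {α : Type} [Enc α]

theorem PTime.nxt {f g : α → ℕ} {h : α → List ℕ} (hf : PTime f) (hg : PTime g)
    (hh : PTime h) : PTime (fun a => nxt (f a) (g a) (h a)) := by
  have e0 : PTime (fun a => if 0 < g a ∧ 0 < f a then some [0] else none) :=
    PTime.iteP (PTime.andP (PTime.lt (PTime.const 0) hg) (PTime.lt (PTime.const 0) hf))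
      (PTime.const _) (PTime.const _)
  -- case h :: t
  have q1 : PTime (fun p : α × (ℕ × List ℕ) => p.2.1) := PTime.fst' PTime.snd
  have q2 : PTime (fun p : α × (ℕ × List ℕ) => p.2.2) := PTime.snd' PTime.snd
  have e1 : PTime (fun p : α × (ℕ × List ℕ) =>
      if p.2.2.length + 1 < g p.1 then some ((p.2.1 + 1) :: p.2.1 :: p.2.2)
        else some ((p.2.1 + 1) :: p.2.2)) :=
    PTime.iteP (PTime.lt (PTime.succ (PTime.length q2)) (hg.comp PTime.fst))
      (PTime.some ((PTime.succ q1).cons (q1.cons q2))) (PTime.some ((PTime.succ q1).cons q2))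
  have e2 : PTime (fun p : α × (ℕ × List ℕ) => match p.2.2 with
      | [] => (none : Option (List ℕ))
      | h' :: t' => some ((h' + 1) :: t')) :=
    (PTime.list_cases q2 (PTime.const none)
      (h := fun r : (α × (ℕ × List ℕ)) × (ℕ × List ℕ) => some ((r.2.1 + 1) :: r.2.2))
      (PTime.some ((PTime.succ (PTime.fst' PTime.snd)).cons (PTime.snd' PTime.snd)))).of_eq
      fun p => by cases p.2.2 <;> rfl
  have e3 : PTime (fun p : α × (ℕ × List ℕ) => if p.2.1 + 1 < f p.1 then
      (if p.2.2.length + 1 < g p.1 then some ((p.2.1 + 1) :: p.2.1 :: p.2.2)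
        else some ((p.2.1 + 1) :: p.2.2)) else (match p.2.2 with
      | [] => (none : Option (List ℕ))
      | h' :: t' => some ((h' + 1) :: t'))) :=
    PTime.iteP (PTime.lt (PTime.succ q1) (hf.comp PTime.fst)) e1 e2
  refine (PTime.list_cases hh e0 e3).of_eq fun a => ?_
  unfold MP_b35d54_lc.nxt
  cases h a <;> rfl

end ptime

end Pool.Agent.MP_b35d54_lc
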