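import Pool.Agent.Lib.MP_b35d54_lc.Trace
import Pool.Agent.Lib.MP_b35d54_lc.Enum

/-!
# Polynomial-time ingredients: factorials, binomial coefficients, closed walks
-/

namespace Pool.Agent.MP_b35d54_lc

open Pool.Agent.PolyTime

section
variable {α β : Type} [Enc α] [Enc β]

theorem sum_lt_two_pow_size (l : List ℕ) : l.sum < 2 ^ size (enc l) := by
  induction l with
  | nil => simp
  | cons x l ih =>
    have h1 := lt_two_pow_size x
    rw [List.sum_cons, size_lcons]
    have h2 : 2 ^ size (enc x) ≤ 2 ^ (size (enc x) + size (enc l)) :=
      Nat.pow_le_pow_right (by norm_num) (by omega)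
    have h3 : 2 ^ size (enc l) ≤ 2 ^ (size (enc x) + size (enc l)) :=
      Nat.pow_le_pow_right (by norm_num) (by omega)
    have h4 : 2 ^ (size (enc x) + size (enc l) + 1) =
        2 * 2 ^ (size (enc x) + size (enc l)) := by rw [pow_succ]; ring
    omega

theorem PTime.listSum {f : α → List ℕ} (hf : PTime f) : PTime (fun x => (f x).sum) := by
  obtain ⟨F, hF, hFm, hFs⟩ := hf.size_le
  have h : PTime (fun x => (f x).foldl (fun (s y : ℕ) => s + y) 0) := by
    refine PTime.foldl (h := fun _ s y => s + y) hf (PTime.const 0)
      ((PTime.fst' PTime.snd).add (PTime.snd' PTime.snd)) (B := fun n => 4 * F n + 1)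
      (((PBd.const 4).mul hF).add (PBd.const 1)) ?_
    intro a l₁ l₂ hl
    have h1 : l₁.foldl (fun (s y : ℕ) => s + y) 0 = l₁.sum := by
      rw [List.sum_eq_foldl]
    have h2 : size (enc l₁) ≤ size (enc (f a)) := by
      rw [hl]; exact size_sublist (List.sublist_append_left _ _)
    have h3 := sum_lt_two_pow_size l₁
    have h4 := hFs a
    change size (enc (l₁.foldl (fun (s y : ℕ) => s + y) 0)) ≤ _
    rw [h1]
    have h5 : l₁.sum < 2 ^ F (size (enc a)) :=
      h3.trans_le (Nat.pow_le_pow_right (by norm_num) (h2.trans h4))
    exact size_nat_le_of_lt h5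
  refine h.of_eq fun x => ?_
  rw [List.sum_eq_foldl]

theorem PTime.minN {f g : α → ℕ} (hf : PTime f) (hg : PTime g) :
    PTime (fun x => min (f x) (g x)) :=
  (PTime.iteP (PTime.le hf hg) hf hg).of_eq fun x => by rw [min_def]

theorem fact_foldl (N : ℕ) : (List.range N).foldl (fun s i => s * (i + 1)) 1 = N.factorial := by
  induction N with
  | zero => rfl
  | succ N ih =>
    rw [List.range_succ, List.foldl_append, ih, Nat.factorial_succ]
    simp [mul_comm]

theorem PTime.factMin {f : α → ℕ} {g : α → List β} (hf : PTime f) (hg : PTime g) :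
    PTime (fun x => (min (f x) (g x).length).factorial) := by
  obtain ⟨F, hF, hFm, hFs⟩ := hg.size_le
  have hr : PTime (fun x => List.range (min (f x) (g x).length)) :=
    PTime.rangeLe (PTime.minN hf (PTime.length hg)) hg fun x => min_le_right _ _
  have h : PTime (fun x => (List.range (min (f x) (g x).length)).foldl
      (fun s i => s * (i + 1)) 1) := by
    refine PTime.foldl (h := fun _ s i => s * (i + 1)) hr (PTime.const 1)
      (PTime.mul (PTime.fst' PTime.snd) (PTime.succ (PTime.snd' PTime.snd)))
      (B := fun n => 4 * (F n * F n + 1) + 1)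
      (((PBd.const 4).mul ((hF.mul hF).add (PBd.const 1))).add (PBd.const 1)) ?_
    intro a l₁ l₂ hl
    have h1 : l₁ = List.range l₁.length := by
      have h2 : l₁ = (List.range (min (f a) (g a).length)).take l₁.length := by
        rw [hl, List.take_left']
        rfl
      have h3 : l₁.length ≤ min (f a) (g a).length := by
        have := congrArg List.length hl
        rw [List.length_range, List.length_append] at this
        omega
      rw [List.take_range, min_eq_left h3] at h2
      exact h2
    rw [h1, fact_foldl]
    have h4 : l₁.length ≤ (g a).length := by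
      have := congrArg List.length hl
      rw [List.length_range, List.length_append] at this
      have := min_le_right (f a) (g a).length
      omega
    have h5 := length_le_size (g a)
    have h6 := hFs a
    have h7 : l₁.length.factorial < 2 ^ (F (size (enc a)) * F (size (enc a)) + 1) := by
      calc l₁.length.factorial ≤ l₁.length ^ l₁.length := Nat.factorial_le_pow _
        _ ≤ (2 ^ l₁.length) ^ l₁.length := Nat.pow_le_pow_left (Nat.lt_two_pow_self).le _
        _ = 2 ^ (l₁.length * l₁.length) := (pow_mul _ _ _).symm
        _ ≤ 2 ^ (F (size (enc a)) * F (size (enc a))) :=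
          Nat.pow_le_pow_right (by norm_num) (Nat.mul_le_mul (by omega) (by omega))
        _ < _ := Nat.pow_lt_pow_right (by norm_num) (Nat.lt_succ_self _)
    exact size_nat_le_of_lt h7
  refine h.of_eq fun x => ?_
  rw [fact_foldl]

/-- Binomial coefficients with bounded arguments. -/
def cf (N a q : ℕ) : ℕ :=
  (min (a + q) N).factorial / ((min a N).factorial * (min q N).factorial)

theorem cf_eq {N a q : ℕ} (h : a + q ≤ N) : cf N a q = (a + q).choose a := by
  rw [cf, min_eq_left h, min_eq_left (by omega), min_eq_left (by omega)]
  rw [Nat.choose_eq_factorial_div_factorial (Nat.le_add_right a q), Nat.add_sub_cancel_left]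

theorem PTime.cf {f : α → List β} {a q : α → ℕ} (hf : PTime f) (ha : PTime a)
    (hq : PTime q) : PTime (fun x => cf (f x).length (a x) (q x)) :=
  PTime.div (PTime.factMin (PTime.add ha hq) hf)
    (PTime.mul (PTime.factMin ha hf) (PTime.factMin hq hf))

/-! ### Closed walks -/

/-- The sum of the numbers of `x` selected by `row`. -/
def rowdot (row : List Bool) (x : List ℕ) : ℕ :=
  ((row.zip x).map fun p => if p.1 = true then p.2 else 0).sum

/-- One step: restricted adjacency matrix times vector. -/
def stepv (L : List (List Bool)) (mask : List Bool) (x : List ℕ) : List ℕ :=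
  (mask.zip L).map fun p => if p.1 = true then rowdot p.2 x else 0

/-- A unit vector. -/
def unitv (n v : ℕ) : List ℕ := (List.range n).map fun i => if i = v then 1 else 0

/-- The vector after `j` steps from a unit vector. -/
def itv (L : List (List Bool)) (mask : List Bool) (v j : ℕ) : List ℕ :=
  (List.range j).foldl (fun x _ => stepv L mask x) (unitv L.length v)

/-- The number of closed walks of length `k` in the masked part. -/
def walks (L : List (List Bool)) (mask : List Bool) (k : ℕ) : ℕ :=
  ((List.range L.length).map fun v => (itv L mask v (min k L.length)).getD v 0).sum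

theorem itv_succ (L : List (List Bool)) (mask : List Bool) (v j : ℕ) :
    itv L mask v (j + 1) = stepv L mask (itv L mask v j) := by
  rw [itv, List.range_succ, List.foldl_append]
  rfl

theorem PTime.rowdot {f : α → List Bool} {g : α → List ℕ} (hf : PTime f) (hg : PTime g) :
    PTime (fun x => rowdot (f x) (g x)) := by
  have h1 : PTime₂ (fun (_ : α) (p : Bool × ℕ) => if p.1 = true then p.2 else 0) :=
    PTime.ite (PTime.fst' PTime.snd) (PTime.snd' PTime.snd) (PTime.const 0)
  exact PTime.listSum (PTime.map (PTime.zip hf hg) h1)

theorem PTime.stepv {f : α → List (List Bool)} {m : α → List Bool} {g : α → List ℕ}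
    (hf : PTime f) (hm : PTime m) (hg : PTime g) :
    PTime (fun x => stepv (f x) (m x) (g x)) := by
  have h1 : PTime₂ (fun (x : α) (p : Bool × List Bool) =>
      if p.1 = true then MP_b35d54_lc.rowdot p.2 (g x) else 0) :=
    PTime.ite (PTime.fst' PTime.snd)
      (PTime.rowdot (PTime.snd' PTime.snd) (hg.comp PTime.fst)) (PTime.const 0)
  exact PTime.map (PTime.zip hm hf) h1

theorem rowdot_le (row : List Bool) (x : List ℕ) (K : ℕ) (h : ∀ y ∈ x, y ≤ K) :
    rowdot row x ≤ row.length * K := by
  unfold rowdot
  induction row generalizing x with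
  | nil => simp
  | cons b row ih =>
    cases x with
    | nil => simp
    | cons y x =>
      rw [List.zip_cons_cons, List.map_cons, List.sum_cons, List.length_cons, Nat.add_one_mul]
      have h1 := ih x fun z hz => h z (List.mem_cons_of_mem _ hz)
      have h2 := h y List.mem_cons_self
      have h3 : (if (b, y).1 = true then (b, y).2 else 0) ≤ K := by
        split_ifs
        · exact h2
        · exact Nat.zero_le _
      omega

theorem itv_bound (L : List (List Bool)) (mask : List Bool) (v : ℕ) (M : ℕ)
    (hL : ∀ row ∈ L, row.length ≤ M) (hL' : L.length ≤ M) : ∀ j,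
    (itv L mask v j).length ≤ M ∧ ∀ y ∈ itv L mask v j, y ≤ M ^ j := by
  intro j
  induction j with
  | zero =>
    change (unitv L.length v).length ≤ M ∧ ∀ y ∈ unitv L.length v, y ≤ M ^ 0
    refine ⟨by simp [unitv, hL'], fun y hy => ?_⟩
    rw [unitv, List.mem_map] at hy
    obtain ⟨i, _, rfl⟩ := hy
    split_ifs <;> simp
  | succ j ih =>
    rw [itv_succ]
    refine ⟨?_, fun y hy => ?_⟩
    · rw [stepv, List.length_map, List.length_zip]
      exact (min_le_right _ _).trans hL'
    · rw [stepv, List.mem_map] at hy
      obtain ⟨⟨b, row⟩, hp, rfl⟩ := hy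
      have hrow := hL row (List.of_mem_zip hp).2
      have h1 := rowdot_le row (itv L mask v j) (M ^ j) ih.2
      simp only
      split_ifs
      · rw [pow_succ, mul_comm]
        exact h1.trans (Nat.mul_le_mul_right _ hrow)
      · exact Nat.zero_le _

theorem PTime.itv {f : α → List (List Bool)} {m : α → List Bool} {v k : α → ℕ}
    (hf : PTime f) (hm : PTime m) (hv : PTime v) (hk : PTime k) :
    PTime (fun x => itv (f x) (m x) (v x) (min (k x) (f x).length)) := by
  obtain ⟨F, hF, hFm, hFs⟩ := hf.size_le
  have hr : PTime (fun x => List.range (min (k x) (f x).length)) :=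
    PTime.rangeLe (PTime.minN hk (PTime.length hf)) hf fun x => min_le_right _ _
  have hu : PTime (fun x => unitv (f x).length (v x)) := by
    have h1 : PTime₂ (fun (x : α) (i : ℕ) => if i = v x then 1 else 0) :=
      PTime.iteP (PTime.eq PTime.snd (hv.comp PTime.fst)) (PTime.const 1) (PTime.const 0)
    exact PTime.map (PTime.rangeLength hf) h1
  refine PTime.foldl (h := fun a x _ => MP_b35d54_lc.stepv (f a) (m a) x) hr hu
    (PTime.stepv (hf.comp PTime.fst) (hm.comp PTime.fst) (PTime.fst' PTime.snd))
    (B := fun n => F n * ((4 * (F n * F n + 1) + 1) + 1) + 1)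
    (((hF.mul ((((PBd.const 4).mul ((hF.mul hF).add (PBd.const 1))).add (PBd.const 1)).add
      (PBd.const 1)))).add (PBd.const 1)) ?_
  intro a l₁ l₂ hl
  have h1 : l₁ = List.range l₁.length := by
    have h2 : l₁ = (List.range (min (k a) (f a).length)).take l₁.length := by
      rw [hl, List.take_left']
      rfl
    have h3 : l₁.length ≤ min (k a) (f a).length := by
      have := congrArg List.length hl
      rw [List.length_range, List.length_append] at this
      omega
    rw [List.take_range, min_eq_left h3] at h2
    exact h2
  have h4 : l₁.length ≤ (f a).length := by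
    have := congrArg List.length hl
    rw [List.length_range, List.length_append] at this
    have := min_le_right (k a) (f a).length
    omega
  have h5 := length_le_size (f a)
  have h6 := hFs a
  set M := F (size (enc a)) with hM
  have h7 := itv_bound (f a) (m a) (v a) M (fun row hrow => by
    have h8 := size_le_of_mem hrow
    have h9 := length_le_size row
    omega) (by omega) l₁.length
  rw [h1]
  change size (enc (MP_b35d54_lc.itv (f a) (m a) (v a) l₁.length)) ≤ _
  have h8 := size_list_le (MP_b35d54_lc.itv (f a) (m a) (v a) l₁.length)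
    (4 * (M * M + 1) + 1) (fun y hy => by
      have h9 := h7.2 y hy
      have h10 : y < 2 ^ (M * M + 1) := by
        calc y ≤ M ^ l₁.length := h9
          _ ≤ (2 ^ M) ^ l₁.length := Nat.pow_le_pow_left (Nat.lt_two_pow_self).le _
          _ = 2 ^ (M * l₁.length) := (pow_mul _ _ _).symm
          _ ≤ 2 ^ (M * M) := Nat.pow_le_pow_right (by norm_num)
            (Nat.mul_le_mul_left _ (by omega))
          _ < _ := Nat.pow_lt_pow_right (by norm_num) (Nat.lt_succ_self _)
      exact size_nat_le_of_lt h10)
  exact h8.trans (Nat.add_le_add_right (Nat.mul_le_mul_right _ h7.1) 1)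

theorem PTime.walks {f : α → List (List Bool)} {m : α → List Bool} {k : α → ℕ}
    (hf : PTime f) (hm : PTime m) (hk : PTime k) :
    PTime (fun x => walks (f x) (m x) (k x)) := by
  have h1 : PTime₂ (fun (x : α) (v : ℕ) =>
      (MP_b35d54_lc.itv (f x) (m x) v (min (k x) (f x).length)).getD v 0) :=
    PTime.listGetD (PTime.itv (hf.comp PTime.fst) (hm.comp PTime.fst) PTime.snd
      (hk.comp PTime.fst)) PTime.snd (PTime.const 0)
  exact PTime.listSum (PTime.map (PTime.rangeLength hf) h1)

end

/-! ### Specification on graphs -/

section spec
variable {n : ℕ}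

/-- The code of a graph: the rows of its adjacency matrix. -/
noncomputable def code (G : SimpleGraph (Fin n)) : List (List Bool) := by
  classical exact List.ofFn fun i => List.ofFn fun j => decide (G.Adj i j)

open Classical in
theorem code_eq (G : SimpleGraph (Fin n)) : code G =
    (List.finRange n).map fun i => (List.finRange n).map fun j => decide (G.Adj i j) := by
  rw [code, List.ofFn_eq_map]
  congr 1
  funext i
  rw [List.ofFn_eq_map]

theorem code_length (G : SimpleGraph (Fin n)) : (code G).length = n := by
  rw [code_eq, List.length_map, List.length_finRange]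

/-- The mask of a set of vertices. -/
def maskOf (S : Finset (Fin n)) : List Bool := (List.finRange n).map fun i => decide (i ∈ S)

theorem sum_finRange (f : Fin n → ℕ) : ((List.finRange n).map f).sum = ∑ i, f i := by
  rw [Fin.sum_univ_def]

theorem stepv_code (G : SimpleGraph (Fin n)) (S : Finset (Fin n)) (x : Fin n → ℕ) :
    stepv (code G) (maskOf S) ((List.finRange n).map x) =
      (List.finRange n).map ((rmat G S).mulVec x) := by
  classical
  rw [stepv, code_eq, maskOf, List.zip_map', List.map_map]
  refine List.map_congr_left fun i _ => ?_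
  simp only [Function.comp_apply, decide_eq_true_eq]
  rw [rowdot, List.zip_map', List.map_map, sum_finRange]
  simp only [Function.comp_apply, decide_eq_true_eq, Matrix.mulVec, dotProduct, rmat]
  by_cases hi : i ∈ S
  · simp only [hi, if_true, true_and]
    refine Finset.sum_congr rfl fun j _ => ?_
    split_ifs <;> simp
  · simp [hi]

theorem range_map_eq {β : Type} (f : ℕ → β) :
    (List.range n).map f = (List.finRange n).map fun i => f i.val := by
  rw [← List.map_coe_finRange_eq_range, List.map_map]
  rfl

theorem itv_code (G : SimpleGraph (Fin n)) (S : Finset (Fin n)) (v : Fin n) (j : ℕ) :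
    itv (code G) (maskOf S) v j =
      (List.finRange n).map fun i => (rmat G S ^ j) i v := by
  induction j with
  | zero =>
    change unitv (code G).length v = _
    rw [unitv, code_length, range_map_eq]
    refine List.map_congr_left fun i _ => ?_
    rw [pow_zero, Matrix.one_apply]
    simp only [Fin.ext_iff]
  | succ j ih =>
    rw [itv_succ, ih, stepv_code]
    refine List.map_congr_left fun i _ => ?_
    rw [pow_succ', Matrix.mul_apply]
    rfl

theorem walks_code (G : SimpleGraph (Fin n)) (S : Finset (Fin n)) {k : ℕ} (hk : 0 < k)
    (hkn : k ≤ n) : walks (code G) (maskOf S) k = wc G k S := by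
  rw [wc_eq_trace G hk S, walks, code_length, min_eq_left hkn, range_map_eq, sum_finRange]
  refine Finset.sum_congr rfl fun v _ => ?_
  rw [itv_code, List.getD_eq_getElem?_getD, List.getElem?_map]
  have : (List.finRange n)[(v : ℕ)]? = some v := by
    rw [List.getElem?_eq_getElem (by simp)]
    simp
  rw [this]
  rfl

end spec

end Pool.Agent.MP_b35d54_lc
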