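import Mathlib

/-!
# Cycles of a graph and injective closed sequences

A cycle of a graph is a connected 2-regular subgraph.  We show that every cycle with `k` vertices
comes from exactly `2 k` injective closed sequences `w : ZMod k → V`.
-/

namespace Pool.Agent.MP_b35d54_lc

variable {V : Type} {G : SimpleGraph V}

/-- A cycle: a connected 2-regular subgraph. -/
def IsCyc (H : G.Subgraph) : Prop :=
  H.Connected ∧ ∀ v ∈ H.verts, (H.neighborSet v).ncard = 2

/-- The number of cycles of `G` with vertex set exactly `A`. -/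
noncomputable def hc (G : SimpleGraph V) (A : Set V) : ℕ :=
  {H : G.Subgraph | IsCyc H ∧ H.verts = A}.ncard

/-- Closed sequences in the subgraph `H`. -/
def Lab (H : G.Subgraph) (k : ℕ) : Set (ZMod k → V) :=
  {w | Function.Injective w ∧ ∀ i, H.Adj (w i) (w (i + 1))}

section
variable {k : ℕ}

theorem two_ne_zero_zmod (hk : 3 ≤ k) : (2 : ZMod k) ≠ 0 := by
  have : NeZero k := ⟨by omega⟩
  intro h
  have h2 : ((2 : ℕ) : ZMod k) = 0 := by exact_mod_cast h
  rw [ZMod.natCast_eq_zero_iff] at h2
  have := Nat.le_of_dvd (by norm_num) h2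
  omega

theorem succ_ne_pred (hk : 3 ≤ k) (c : ZMod k) : c + 1 ≠ c - 1 := by
  intro h
  apply two_ne_zero_zmod hk
  have : (c + 1) - (c - 1) = 0 := by rw [h, sub_self]
  calc (2 : ZMod k) = (c + 1) - (c - 1) := by ring
    _ = 0 := this

theorem Lab.neighborSet [Finite V] (hk : 3 ≤ k) {H : G.Subgraph} (hH : IsCyc H)
    {w : ZMod k → V} (hw : w ∈ Lab H k) (c : ZMod k) :
    H.neighborSet (w c) = {w (c + 1), w (c - 1)} := by
  symm
  apply Set.eq_of_subset_of_ncard_le
  · intro y hy
    rcases hy with rfl | hy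
    · exact hw.2 c
    · rw [Set.mem_singleton_iff] at hy
      subst hy
      have := hw.2 (c - 1)
      rw [sub_add_cancel] at this
      exact this.symm
  · rw [hH.2 _ (H.edge_vert (hw.2 c)), Set.ncard_pair]
    exact fun h => succ_ne_pred hk c (hw.1 h)
  · exact Set.toFinite _

theorem Lab.unique [Finite V] (hk : 3 ≤ k) {H : G.Subgraph} (hH : IsCyc H)
    {w w' : ZMod k → V} (hw : w ∈ Lab H k) (hw' : w' ∈ Lab H k) (h0 : w 0 = w' 0)
    (h1 : w 1 = w' 1) : w = w' := by
  have : NeZero k := ⟨by omega⟩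
  have key : ∀ j : ℕ, w (j : ZMod k) = w' j ∧ w (j + 1) = w' (j + 1) := by
    intro j
    induction j with
    | zero => simpa using ⟨h0, h1⟩
    | succ j ih =>
      obtain ⟨i1, i2⟩ := ih
      push_cast
      refine ⟨i2, ?_⟩
      have hmem : w ((j : ZMod k) + 1 + 1) ∈ H.neighborSet (w' (j + 1)) := by
        rw [← i2]; exact hw.2 _
      rw [Lab.neighborSet hk hH hw'] at hmem
      rcases hmem with h | h
      · exact h
      · rw [Set.mem_singleton_iff, add_sub_cancel_right, ← i1] at h
        have := hw.1 h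
        exfalso
        apply two_ne_zero_zmod hk
        have e : (j : ZMod k) + 1 + 1 - j = 0 := by rw [this, sub_self]
        calc (2 : ZMod k) = (j : ZMod k) + 1 + 1 - j := by ring
          _ = 0 := e
  funext i
  have := (key i.val).1
  rwa [ZMod.natCast_zmod_val] at this

theorem Lab.range [Finite V] {H : G.Subgraph} (hv : H.verts.ncard = k) (hk : 3 ≤ k)
    {w : ZMod k → V} (hw : w ∈ Lab H k) : Set.range w = H.verts := by
  have : NeZero k := ⟨by omega⟩
  apply Set.eq_of_subset_of_ncard_le
  · rintro _ ⟨i, rfl⟩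
    exact H.edge_vert (hw.2 i)
  · rw [hv, ← Set.image_univ, Set.ncard_image_of_injective _ hw.1, Set.ncard_univ,
      Nat.card_zmod]
  · exact Set.toFinite _

theorem Lab.exists_one [Finite V] {H : G.Subgraph} (hH : IsCyc H) (hv : H.verts.ncard = k)
    (hk : 3 ≤ k) : ∃ w, w ∈ Lab H k := by
  classical
  have : NeZero k := ⟨by omega⟩
  have hcyc : H.spanningCoe.IsCycles := by
    intro v hne
    obtain ⟨u, hu⟩ := hne
    have : v ∈ H.verts := H.edge_vert hu
    exact hH.2 v this
  obtain ⟨v, hvv⟩ := hH.1.nonempty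
  have hne : (H.spanningCoe.neighborSet v).Nonempty := by
    have := hH.2 v hvv
    have h2 : (H.neighborSet v).Nonempty := Set.nonempty_of_ncard_ne_zero (by omega)
    exact h2
  obtain ⟨p, hp, hps⟩ := hcyc.exists_cycle_toSubgraph_verts_eq_connectedComponentSupp
    (c := H.spanningCoe.connectedComponentMk v) rfl hne
  have hsupp : (H.spanningCoe.connectedComponentMk v).supp = H.verts := by
    ext u
    rw [SimpleGraph.ConnectedComponent.mem_supp_iff, SimpleGraph.ConnectedComponent.eq]
    constructor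
    · rintro ⟨q⟩
      cases q with
      | nil => exact hvv
      | cons h _ => exact H.edge_vert h
    · intro hu
      have := hH.1.preconnected ⟨u, hu⟩ ⟨v, hvv⟩
      exact this.map (⟨fun x => x.1, fun {a b} h => h⟩ : H.coe →g H.spanningCoe)
  rw [hsupp] at hps
  have hlen : p.length = k := by
    have e1 : H.verts = p.getVert '' {i | i ≤ p.length - 1} := by
      rw [← hps]
      ext u
      rw [SimpleGraph.Walk.mem_verts_toSubgraph, SimpleGraph.Walk.mem_support_iff_exists_getVert]
      constructor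
      · rintro ⟨n, hn, hn'⟩
        by_cases hn2 : n = p.length
        · refine ⟨0, Nat.zero_le _, ?_⟩
          rw [SimpleGraph.Walk.getVert_zero, ← hn, hn2, SimpleGraph.Walk.getVert_length]
        · exact ⟨n, show n ≤ p.length - 1 by omega, hn⟩
      · rintro ⟨n, hn, hn'⟩
        have hn2 : n ≤ p.length - 1 := hn
        exact ⟨n, hn', by omega⟩
    have e2 : H.verts.ncard = p.length := by
      rw [e1, Set.InjOn.ncard_image hp.getVert_injOn']
      have h3 := hp.three_le_length
      have : {i | i ≤ p.length - 1} = (Finset.range p.length : Set ℕ) := by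
        ext i
        simp only [Set.mem_ofPred_eq, Finset.coe_range, Set.mem_Iio]
        omega
      rw [this, Set.ncard_coe_finset, Finset.card_range]
    rw [← e2, hv]
  refine ⟨fun i => p.getVert i.val, ?_, ?_⟩
  · intro i j hij
    have hi := i.val_lt
    have hj := j.val_lt
    have := hp.getVert_injOn' (show i.val ≤ p.length - 1 by omega)
      (show j.val ≤ p.length - 1 by omega) hij
    exact ZMod.val_injective k this
  · intro i
    have hi := i.val_lt
    have hadj : H.Adj (p.getVert i.val) (p.getVert (i.val + 1)) :=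
      p.adj_getVert_succ (by omega)
    have : p.getVert (i + 1).val = p.getVert (i.val + 1) := by
      by_cases h : i.val + 1 < k
      · have e1 : (1 : ZMod k).val = 1 := by
          have := ZMod.val_cast_of_lt (n := k) (a := 1) (by omega)
          rwa [Nat.cast_one] at this
        have e : (i + 1).val = i.val + 1 := by
          rw [ZMod.val_add_of_lt (by rw [e1]; exact h), e1]
        rw [e]
      · have e : i.val + 1 = k := by omega
        have e2 : i + 1 = 0 := by
          have : ((i.val + 1 : ℕ) : ZMod k) = 0 := by rw [e]; exact ZMod.natCast_self k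
          rwa [Nat.cast_add, ZMod.natCast_zmod_val, Nat.cast_one] at this
        rw [e2, ZMod.val_zero, e, ← hlen, SimpleGraph.Walk.getVert_zero,
          SimpleGraph.Walk.getVert_length]
    change H.Adj (p.getVert i.val) (p.getVert (i + 1).val)
    rw [this]
    exact hadj

/-- The labelings of a cycle correspond to its darts. -/
theorem Lab.bij [Finite V] {H : G.Subgraph} (hH : IsCyc H) (hv : H.verts.ncard = k)
    (hk : 3 ≤ k) :
    Set.BijOn (fun w : ZMod k → V => (w 0, w 1)) (Lab H k) {d : V × V | H.Adj d.1 d.2} := by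
  refine ⟨?_, ?_, ?_⟩
  · intro w hw
    have := hw.2 0
    rwa [zero_add] at this
  · intro w hw w' hw' h
    have h' : (w 0, w 1) = (w' 0, w' 1) := h
    rw [Prod.mk.injEq] at h'
    exact Lab.unique hk hH hw hw' h'.1 h'.2
  · rintro ⟨x, y⟩ hxy
    have hxy' : H.Adj x y := hxy
    obtain ⟨w, hw⟩ := Lab.exists_one hH hv hk
    have hx : x ∈ Set.range w := by rw [Lab.range hv hk hw]; exact H.edge_vert hxy'
    obtain ⟨c, rfl⟩ := hx
    have hy : y ∈ H.neighborSet (w c) := hxy'
    rw [Lab.neighborSet hk hH hw] at hy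
    rcases hy with rfl | hy
    · refine ⟨fun i => w (c + i), ⟨?_, ?_⟩, ?_⟩
      · intro i j hij
        exact add_left_cancel (hw.1 hij)
      · intro i
        have := hw.2 (c + i)
        rwa [add_assoc] at this
      · simp
    · rw [Set.mem_singleton_iff] at hy
      subst hy
      refine ⟨fun i => w (c - i), ⟨?_, ?_⟩, ?_⟩
      · intro i j hij
        exact sub_right_injective (hw.1 hij)
      · intro i
        have := (hw.2 (c - (i + 1))).symm
        have e : c - (i + 1) + 1 = c - i := by ring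
        rwa [e] at this
      · simp

theorem card_darts [Finite V] {H : G.Subgraph} (hH : IsCyc H) :
    {d : V × V | H.Adj d.1 d.2}.ncard = 2 * H.verts.ncard := by
  classical
  have := Fintype.ofFinite V
  have e1 : {d : V × V | H.Adj d.1 d.2}.ncard =
      ∑ v : V, (H.neighborSet v).ncard := by
    rw [Set.ncard_eq_toFinset_card', Set.toFinset_ofPred,
      Finset.card_filter, Fintype.sum_prod_type]
    refine Finset.sum_congr rfl fun v _ => ?_
    rw [Set.ncard_eq_toFinset_card', ← Finset.card_filter]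
    congr 1
    ext u
    simp
  rw [e1]
  have e2 : ∀ v : V, (H.neighborSet v).ncard = if v ∈ H.verts then 2 else 0 := by
    intro v
    split_ifs with hvm
    · exact hH.2 v hvm
    · have : H.neighborSet v = ∅ := by
        ext u
        simp only [SimpleGraph.Subgraph.mem_neighborSet, Set.mem_empty_iff_false, iff_false]
        exact fun h => hvm (H.edge_vert h)
      rw [this, Set.ncard_empty]
  rw [Finset.sum_congr rfl fun v _ => e2 v, ← Finset.sum_filter, Finset.sum_const,
    smul_eq_mul, mul_comm]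
  congr 1
  rw [Set.ncard_eq_toFinset_card']
  congr 1
  ext u
  simp

theorem Lab.ncard [Finite V] {H : G.Subgraph} (hH : IsCyc H) (hv : H.verts.ncard = k)
    (hk : 3 ≤ k) : (Lab H k).ncard = 2 * k := by
  have h := Lab.bij hH hv hk
  rw [← hv, ← card_darts hH, ← h.image_eq, h.injOn.ncard_image, hv]

/-! ### The cycle of an injective closed sequence -/

/-- The subgraph formed by a closed sequence. -/
def seqGraph {w : ZMod k → V} (hw : ∀ i, G.Adj (w i) (w (i + 1))) : G.Subgraph where
  verts := Set.range w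
  Adj x y := ∃ i, (x = w i ∧ y = w (i + 1)) ∨ (y = w i ∧ x = w (i + 1))
  adj_sub := by
    rintro x y ⟨i, ⟨rfl, rfl⟩ | ⟨rfl, rfl⟩⟩
    · exact hw i
    · exact (hw i).symm
  edge_vert := by
    rintro x y ⟨i, ⟨rfl, rfl⟩ | ⟨rfl, rfl⟩⟩
    · exact ⟨i, rfl⟩
    · exact ⟨i + 1, rfl⟩
  symm := ⟨by
    rintro x y ⟨i, h | h⟩
    · exact ⟨i, Or.inr h⟩
    · exact ⟨i, Or.inl h⟩⟩

theorem seqGraph_neighborSet {w : ZMod k → V} (hw : ∀ i, G.Adj (w i) (w (i + 1)))
    (hi : Function.Injective w) (c : ZMod k) :
    (seqGraph hw).neighborSet (w c) = {w (c + 1), w (c - 1)} := by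
  ext y
  rw [SimpleGraph.Subgraph.mem_neighborSet]
  constructor
  · rintro ⟨i, ⟨h1, h2⟩ | ⟨h1, h2⟩⟩
    · have := hi h1
      subst this
      left; exact h2
    · have := hi h2
      subst this
      right
      rw [Set.mem_singleton_iff, add_sub_cancel_right]
      exact h1
  · rintro (h | h)
    · exact ⟨c, Or.inl ⟨rfl, h⟩⟩
    · rw [Set.mem_singleton_iff] at h
      exact ⟨c - 1, Or.inr ⟨h, by rw [sub_add_cancel]⟩⟩

theorem seqGraph_isCyc (hk : 3 ≤ k) {w : ZMod k → V} (hw : ∀ i, G.Adj (w i) (w (i + 1)))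
    (hi : Function.Injective w) : IsCyc (seqGraph hw) := by
  have : NeZero k := ⟨by omega⟩
  refine ⟨?_, ?_⟩
  · rw [SimpleGraph.Subgraph.connected_iff]
    refine ⟨⟨?_⟩, ⟨w 0, 0, rfl⟩⟩
    have h0 : ∀ j : ℕ, (seqGraph hw).coe.Reachable ⟨w 0, 0, rfl⟩ ⟨w (j : ZMod k), j, rfl⟩ := by
      intro j
      induction j with
      | zero =>
        have : (⟨w ((0 : ℕ) : ZMod k), ((0 : ℕ) : ZMod k), rfl⟩ : (seqGraph hw).verts) =
          ⟨w 0, 0, rfl⟩ := by
          simp
        rw [this]
      | succ j ih =>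
        refine ih.trans (SimpleGraph.Adj.reachable ?_)
        rw [SimpleGraph.Subgraph.coe_adj]
        exact ⟨j, Or.inl ⟨rfl, by push_cast; rfl⟩⟩
    have h1 : ∀ x : (seqGraph hw).verts, (seqGraph hw).coe.Reachable ⟨w 0, 0, rfl⟩ x := by
      rintro ⟨_, i, rfl⟩
      have := h0 i.val
      have e : (⟨w ((i.val : ℕ) : ZMod k), ((i.val : ℕ) : ZMod k), rfl⟩ : (seqGraph hw).verts) =
          ⟨w i, i, rfl⟩ := by
        simp
      rwa [e] at this
    intro x y
    exact (h1 x).symm.trans (h1 y)
  · rintro _ ⟨c, rfl⟩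
    rw [seqGraph_neighborSet hw hi, Set.ncard_pair]
    exact fun h => succ_ne_pred hk c (hi h)

theorem seqGraph_verts_ncard (hk : 3 ≤ k) {w : ZMod k → V} (hw : ∀ i, G.Adj (w i) (w (i + 1)))
    (hi : Function.Injective w) : (seqGraph hw).verts.ncard = k := by
  have : NeZero k := ⟨by omega⟩
  change (Set.range w).ncard = k
  rw [← Set.image_univ, Set.ncard_image_of_injective _ hi, Set.ncard_univ, Nat.card_zmod]

theorem seqGraph_mem_lab {w : ZMod k → V} (hw : ∀ i, G.Adj (w i) (w (i + 1)))
    (hi : Function.Injective w) : w ∈ Lab (seqGraph hw) k :=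
  ⟨hi, fun i => ⟨i, Or.inl ⟨rfl, rfl⟩⟩⟩

theorem Lab.eq_seqGraph [Finite V] {H : G.Subgraph} (hH : IsCyc H) (hv : H.verts.ncard = k)
    (hk : 3 ≤ k) {w : ZMod k → V} (hw : w ∈ Lab H k) :
    H = seqGraph (fun i => H.adj_sub (hw.2 i)) := by
  have hr := Lab.range hv hk hw
  apply SimpleGraph.Subgraph.ext
  · exact hr.symm
  · funext x y
    apply propext
    constructor
    · intro h
      have hx : x ∈ Set.range w := by rw [hr]; exact H.edge_vert h
      obtain ⟨c, rfl⟩ := hx
      have hy : y ∈ H.neighborSet (w c) := h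
      rw [Lab.neighborSet hk hH hw] at hy
      rcases hy with hy | hy
      · exact ⟨c, Or.inl ⟨rfl, hy⟩⟩
      · rw [Set.mem_singleton_iff] at hy
        exact ⟨c - 1, Or.inr ⟨hy, by rw [sub_add_cancel]⟩⟩
    · rintro ⟨i, ⟨rfl, rfl⟩ | ⟨rfl, rfl⟩⟩
      · exact hw.2 i
      · exact (hw.2 i).symm

/-- Injective closed sequences with given image, counted by cycles. -/
theorem card_closed [Finite V] (hk : 3 ≤ k) (A : Set V) (hA : A.ncard = k) :
    {w : ZMod k → V | Function.Injective w ∧ (∀ i, G.Adj (w i) (w (i + 1))) ∧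
      Set.range w = A}.ncard = 2 * k * hc G A := by
  classical
  have : NeZero k := ⟨by omega⟩
  have := Fintype.ofFinite V
  set C : Set G.Subgraph := {H | IsCyc H ∧ H.verts = A} with hC
  have hfin : C.Finite := Set.toFinite _
  have hU : {w : ZMod k → V | Function.Injective w ∧ (∀ i, G.Adj (w i) (w (i + 1))) ∧
      Set.range w = A} = ⋃ H ∈ C, Lab H k := by
    ext w
    rw [Set.mem_iUnion₂]
    constructor
    · rintro ⟨h1, h2, h3⟩
      exact ⟨seqGraph h2, ⟨seqGraph_isCyc hk h2 h1, h3⟩, seqGraph_mem_lab h2 h1⟩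
    · rintro ⟨H, ⟨h1, h2⟩, h3⟩
      exact ⟨h3.1, fun i => H.adj_sub (h3.2 i), by rw [Lab.range (by rw [h2, hA]) hk h3, h2]⟩
  rw [hU, hfin.ncard_biUnion (fun _ _ => Set.toFinite _)]
  · rw [finsum_mem_congr rfl (g := fun _ => 2 * k) fun H hH => ?_,
      finsum_mem_eq_finite_toFinset_sum _ hfin, Finset.sum_const, smul_eq_mul, mul_comm]
    · congr 1
      rw [hc, Set.ncard_eq_toFinset_card _ hfin]
    · exact Lab.ncard hH.1 (by rw [hH.2, hA]) hk
  · intro H hH H' hH' hne
    rw [Function.onFun, Set.disjoint_left]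
    intro w hw hw'
    apply hne
    rw [Lab.eq_seqGraph hH.1 (by rw [hH.2, hA]) hk hw,
      Lab.eq_seqGraph hH'.1 (by rw [hH'.2, hA]) hk hw']

end

end Pool.Agent.MP_b35d54_lc
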