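import Mathlib

/-!
# The disjointness matrix has independent rows
-/

namespace Pool.Agent.MP_b35d54_lc

open Finset

variable {K : Type*} [Field K] [CharZero K]

/-- Entries of a right inverse of the disjointness matrix of the `h`-subsets and the `M`-subsets
of a set with `m` elements. -/
noncomputable def rinv (K : Type*) [Field K] (m h M : ℕ) (A' A₀ : Finset (Fin m)) : K :=
  ∑ C ∈ A₀.powerset, if C ⊆ A' then (-1) ^ #C * (((m - h - #C).choose (M - #C) : ℕ) : K)⁻¹ else 0

theorem card_between {m M : ℕ} {A C : Finset (Fin m)} (hC : #C ≤ M) (hd : Disjoint A C) :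
    #{A' ∈ powersetCard M (univ : Finset (Fin m)) | Disjoint A A' ∧ C ⊆ A'} =
      (m - #A - #C).choose (M - #C) := by
  have h1 : #(powersetCard (M - #C) (Aᶜ \ C)) = (m - #A - #C).choose (M - #C) := by
    rw [card_powersetCard, card_sdiff_of_subset, card_compl, Fintype.card_fin]
    intro x hx
    rw [mem_compl]
    exact fun hA => disjoint_left.1 hd hA hx
  rw [← h1]
  refine card_nbij' (fun A' => A' \ C) (fun T => T ∪ C) ?_ ?_ ?_ ?_
  · intro A' hA'
    rw [mem_coe, mem_filter, mem_powersetCard] at hA'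
    obtain ⟨⟨_, h2⟩, h3, h4⟩ := hA'
    rw [mem_coe, mem_powersetCard]
    refine ⟨fun x hx => ?_, by rw [card_sdiff_of_subset h4, h2]⟩
    rw [mem_sdiff] at hx ⊢
    rw [mem_compl]
    exact ⟨fun hA => disjoint_left.1 h3 hA hx.1, hx.2⟩
  · intro T hT
    rw [mem_coe, mem_powersetCard] at hT
    obtain ⟨h2, h3⟩ := hT
    have h4 : Disjoint T C := by
      rw [disjoint_left]
      intro x hx hC'
      exact (mem_sdiff.1 (h2 hx)).2 hC'
    rw [mem_coe, mem_filter, mem_powersetCard]
    refine ⟨⟨subset_univ _, ?_⟩, ?_, subset_union_right⟩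
    · rw [card_union_of_disjoint h4, h3]
      omega
    · rw [disjoint_union_right]
      refine ⟨?_, hd⟩
      rw [disjoint_left]
      intro x hA hx
      exact (mem_compl.1 (mem_sdiff.1 (h2 hx)).1) hA
  · intro A' hA'
    rw [mem_coe, mem_filter] at hA'
    exact sdiff_union_of_subset hA'.2.2
  · intro T hT
    rw [mem_coe, mem_powersetCard] at hT
    have h4 : Disjoint T C := by
      rw [disjoint_left]
      intro x hx hC'
      exact (mem_sdiff.1 (hT.1 hx)).2 hC'
    exact union_sdiff_cancel_right h4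

theorem rinv_spec {m h M : ℕ} (hhM : h ≤ M) (hm : h + M ≤ m) {A A₀ : Finset (Fin m)}
    (hA : #A = h) (hA₀ : #A₀ = h) :
    ∑ A' ∈ powersetCard M (univ : Finset (Fin m)), (if Disjoint A A' then (1 : K) else 0) *
      rinv K m h M A' A₀ = if A = A₀ then 1 else 0 := by
  unfold rinv
  simp_rw [mul_sum]
  rw [sum_comm]
  have h1 : ∀ C ∈ A₀.powerset, ∑ A' ∈ powersetCard M (univ : Finset (Fin m)),
      (if Disjoint A A' then (1 : K) else 0) *
        (if C ⊆ A' then (-1) ^ #C * (((m - h - #C).choose (M - #C) : ℕ) : K)⁻¹ else 0) =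
      if Disjoint A C then (-1) ^ #C else 0 := by
    intro C hC
    rw [mem_powerset] at hC
    have hCh : #C ≤ h := hA₀ ▸ card_le_card hC
    have h2 : ∀ A' : Finset (Fin m), (if Disjoint A A' then (1 : K) else 0) *
        (if C ⊆ A' then (-1) ^ #C * (((m - h - #C).choose (M - #C) : ℕ) : K)⁻¹ else 0) =
        (if Disjoint A A' ∧ C ⊆ A' then (1 : K) else 0) *
          ((-1) ^ #C * (((m - h - #C).choose (M - #C) : ℕ) : K)⁻¹) := by
      intro A'
      by_cases h3 : Disjoint A A'
      · by_cases h4 : C ⊆ A'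
        · rw [if_pos h3, if_pos h4, if_pos ⟨h3, h4⟩]
        · rw [if_neg h4, if_neg fun h5 : Disjoint A A' ∧ C ⊆ A' => h4 h5.2]
          simp
      · rw [if_neg h3, if_neg fun h5 : Disjoint A A' ∧ C ⊆ A' => h3 h5.1]
        simp
    simp_rw [h2]
    rw [← sum_mul, sum_boole]
    by_cases h5 : Disjoint A C
    · rw [if_pos h5, card_between (hCh.trans hhM) h5, hA]
      have h6 : (((m - h - #C).choose (M - #C) : ℕ) : K) ≠ 0 := by
        have : 0 < (m - h - #C).choose (M - #C) := Nat.choose_pos (by omega)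
        exact_mod_cast this.ne'
      rw [mul_left_comm, mul_inv_cancel₀ h6, mul_one]
    · rw [if_neg h5]
      have h7 : #{A' ∈ powersetCard M (univ : Finset (Fin m)) | Disjoint A A' ∧ C ⊆ A'} = 0 := by
        rw [card_eq_zero, filter_eq_empty_iff]
        rintro A' _ ⟨h8, h9⟩
        exact h5 (disjoint_of_subset_right h9 h8)
      rw [h7, Nat.cast_zero, zero_mul]
  rw [sum_congr rfl h1, ← sum_filter]
  have h3 : ({C ∈ A₀.powerset | Disjoint A C} : Finset (Finset (Fin m))) =
      (A₀ \ A).powerset := by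
    ext C
    rw [mem_filter, mem_powerset, mem_powerset]
    constructor
    · rintro ⟨h4, h5⟩ x hx
      rw [mem_sdiff]
      exact ⟨h4 hx, fun hA => disjoint_left.1 h5 hA hx⟩
    · intro h4
      refine ⟨fun x hx => (mem_sdiff.1 (h4 hx)).1, ?_⟩
      rw [disjoint_left]
      intro x hA hx
      exact (mem_sdiff.1 (h4 hx)).2 hA
  rw [h3]
  have h4 := congrArg (fun z : ℤ => (z : K)) (sum_powerset_neg_one_pow_card (x := A₀ \ A))
  push_cast at h4
  rw [h4]
  congr 1
  apply propext
  rw [sdiff_eq_empty_iff_subset]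
  constructor
  · intro h5
    exact (eq_of_subset_of_card_le h5 (by rw [hA, hA₀])).symm
  · rintro rfl
    exact Subset.rfl

/-- Pairs of sets. -/
theorem rinv_pair {m h M : ℕ} (hhM : h ≤ M) (hm : h + M ≤ m)
    (a a' : powersetCard h (univ : Finset (Fin m)) × powersetCard h (univ : Finset (Fin m))) :
    ∑ b : powersetCard M (univ : Finset (Fin m)) × powersetCard M (univ : Finset (Fin m)),
      (if Disjoint a.1.1 b.1.1 ∧ Disjoint a.2.1 b.2.1 then (1 : K) else 0) *
        (rinv K m h M b.1.1 a'.1.1 * rinv K m h M b.2.1 a'.2.1) =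
      if a = a' then 1 else 0 := by
  have h1 : ∀ x y : powersetCard h (univ : Finset (Fin m)),
      ∑ b : powersetCard M (univ : Finset (Fin m)),
        (if Disjoint x.1 b.1 then (1 : K) else 0) * rinv K m h M b.1 y.1 =
        if x.1 = y.1 then 1 else 0 := by
    intro x y
    rw [← rinv_spec hhM hm (mem_powersetCard.1 x.2).2 (mem_powersetCard.1 y.2).2]
    exact sum_coe_sort (powersetCard M (univ : Finset (Fin m)))
      (fun b => (if Disjoint x.1 b then (1 : K) else 0) * rinv K m h M b y.1)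
  rw [Fintype.sum_prod_type]
  have h2 : ∀ b₁ b₂ : powersetCard M (univ : Finset (Fin m)),
      (if Disjoint a.1.1 b₁.1 ∧ Disjoint a.2.1 b₂.1 then (1 : K) else 0) *
        (rinv K m h M b₁.1 a'.1.1 * rinv K m h M b₂.1 a'.2.1) =
      ((if Disjoint a.1.1 b₁.1 then (1 : K) else 0) * rinv K m h M b₁.1 a'.1.1) *
        ((if Disjoint a.2.1 b₂.1 then (1 : K) else 0) * rinv K m h M b₂.1 a'.2.1) := by
    intro b₁ b₂
    by_cases h3 : Disjoint a.1.1 b₁.1
    · by_cases h4 : Disjoint a.2.1 b₂.1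
      · rw [if_pos h3, if_pos h4, if_pos ⟨h3, h4⟩]
        ring
      · rw [if_neg h4, if_neg fun h5 : Disjoint a.1.1 b₁.1 ∧ Disjoint a.2.1 b₂.1 => h4 h5.2]
        ring
    · rw [if_neg h3, if_neg fun h5 : Disjoint a.1.1 b₁.1 ∧ Disjoint a.2.1 b₂.1 => h3 h5.1]
      ring
  simp_rw [h2, ← mul_sum]
  rw [← sum_mul, h1, h1]
  by_cases h3 : a.1.1 = a'.1.1
  · by_cases h4 : a.2.1 = a'.2.1
    · rw [if_pos h3, if_pos h4, if_pos (Prod.ext (Subtype.ext h3) (Subtype.ext h4)), mul_one]
    · rw [if_neg h4, mul_zero, if_neg]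
      rintro rfl
      exact h4 rfl
  · rw [if_neg h3, zero_mul, if_neg]
    rintro rfl
    exact h3 rfl

/-! ### Binomial coefficients -/

theorem two_pow_le_middle (m : ℕ) : 2 ^ m ≤ (m + 1) * m.choose (m / 2) := by
  rw [← Nat.sum_range_choose]
  calc ∑ i ∈ range (m + 1), m.choose i ≤ ∑ _i ∈ range (m + 1), m.choose (m / 2) :=
        sum_le_sum fun i _ => Nat.choose_le_middle i m
    _ = (m + 1) * m.choose (m / 2) := by rw [sum_const, card_range, smul_eq_mul]

end Pool.Agent.MP_b35d54_lc
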