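import Mathlib

/-!
# Estimates for sums of binomial coefficients
-/

namespace Pool.Agent.MP_b35d54_lc

open Finset Real

theorem base_eq {b δ : ℝ} (hb : 0 < b) (h0 : 0 < δ) (h1 : δ < 1) :
    (b * δ / (1 - δ)) ^ (-δ) * (b * δ / (1 - δ) + b) = exp (binEntropy δ) * b ^ (1 - δ) := by
  have hd : 0 < 1 - δ := by linarith
  have hx : 0 < b * δ / (1 - δ) := by positivity
  have e1 : b * δ / (1 - δ) + b = b / (1 - δ) := by
    field_simp
    ring
  rw [e1]
  have hL : 0 < (b * δ / (1 - δ)) ^ (-δ) * (b / (1 - δ)) := by positivity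
  have hR : 0 < exp (binEntropy δ) * b ^ (1 - δ) := by positivity
  apply log_injOn_pos (Set.mem_Ioi.2 hL) (Set.mem_Ioi.2 hR)
  rw [log_mul (by positivity) (by positivity), log_mul (by positivity) (by positivity),
    log_rpow hx, log_rpow hb, log_exp, log_div (by positivity) (by positivity),
    log_div (by positivity) (by positivity), log_mul (by positivity) (by positivity), binEntropy,
    log_inv, log_inv]
  ring

theorem sum_choose_pow_le {n m : ℕ} {b δ : ℝ} (hb : 0 < b) (h0 : 0 < δ) (h1 : δ < 1)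
    (hx : b * δ ≤ 1 - δ) (hm : (m : ℝ) ≤ δ * n) :
    ∑ s ∈ range (m + 1), (n.choose s : ℝ) * b ^ (n - s) ≤
      (exp (binEntropy δ) * b ^ (1 - δ)) ^ n := by
  have hd : 0 < 1 - δ := by linarith
  set x : ℝ := b * δ / (1 - δ) with hxdef
  have hx0 : 0 < x := by positivity
  have hx1 : x ≤ 1 := by rw [hxdef, div_le_one hd]; exact hx
  have hmn : m ≤ n := by
    have : (m : ℝ) ≤ n := hm.trans (by nlinarith [Nat.cast_nonneg (α := ℝ) n])
    exact_mod_cast this
  rw [← base_eq hb h0 h1, ← hxdef, mul_pow]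
  set K : ℝ := (x ^ (-δ)) ^ n with hK
  have hK0 : 0 < K := by positivity
  have hK' : K = x ^ (-(δ * n)) := by
    rw [hK, ← rpow_natCast, ← rpow_mul hx0.le]
    ring_nf
  have hterm : ∀ s ∈ range (m + 1), (n.choose s : ℝ) * b ^ (n - s) ≤
      K * (x ^ s * b ^ (n - s) * (n.choose s : ℝ)) := by
    intro s hs
    rw [mem_range] at hs
    have h2 : (1 : ℝ) ≤ K * x ^ s := by
      rw [hK', ← rpow_natCast, ← rpow_add hx0]
      apply one_le_rpow_of_pos_of_le_one_of_nonpos hx0 hx1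
      have : (s : ℝ) ≤ m := by exact_mod_cast (by omega : s ≤ m)
      linarith
    have h3 : 0 ≤ (n.choose s : ℝ) * b ^ (n - s) := by positivity
    calc (n.choose s : ℝ) * b ^ (n - s) = 1 * ((n.choose s : ℝ) * b ^ (n - s)) := by ring
      _ ≤ (K * x ^ s) * ((n.choose s : ℝ) * b ^ (n - s)) := mul_le_mul_of_nonneg_right h2 h3
      _ = _ := by ring
  calc ∑ s ∈ range (m + 1), (n.choose s : ℝ) * b ^ (n - s)
      ≤ ∑ s ∈ range (m + 1), K * (x ^ s * b ^ (n - s) * (n.choose s : ℝ)) := sum_le_sum hterm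
    _ ≤ ∑ s ∈ range (n + 1), K * (x ^ s * b ^ (n - s) * (n.choose s : ℝ)) :=
        sum_le_sum_of_subset_of_nonneg (range_subset_range.2 (by omega))
          fun s _ _ => by positivity
    _ = K * (x + b) ^ n := by rw [← mul_sum, add_pow]

theorem sum_choose_le {n j : ℕ} {ρ : ℝ} (h0 : 0 < ρ) (h1 : ρ ≤ 1 / 2) (hj : (j : ℝ) ≤ ρ * n) :
    ∑ s ∈ range (j + 1), (n.choose s : ℝ) ≤ (exp (binEntropy ρ)) ^ n := by
  have h := sum_choose_pow_le (n := n) (m := j) (b := 1) (δ := ρ) one_pos h0 (by linarith)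
    (by linarith) hj
  simpa using h

theorem num1 : exp (binEntropy (7 / 69)) * (1.49 : ℝ) ^ ((1 : ℝ) - 7 / 69) ≤ 1.99 := by
  have hpos : (0 : ℝ) < exp (binEntropy (7 / 69)) * (1.49 : ℝ) ^ ((1 : ℝ) - 7 / 69) := by
    positivity
  rw [← log_le_log_iff hpos (by norm_num), log_mul (by positivity) (by positivity), log_exp,
    log_rpow (by norm_num), binEntropy, log_inv, log_inv]
  have key : (1.49 : ℝ) ^ 62 ≤ (7 / 69 : ℝ) ^ 7 * (1 - 7 / 69) ^ 62 * (1.99 : ℝ) ^ 69 := by
    norm_num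
  have h2 := log_le_log (by norm_num) key
  rw [log_mul (by norm_num) (by norm_num), log_mul (by norm_num) (by norm_num), log_pow, log_pow,
    log_pow, log_pow] at h2
  push_cast at h2
  linarith

theorem num2 : exp (binEntropy ((1 - 7 / 69) / 2)) ≤ 1.99 := by
  rw [← log_le_log_iff (exp_pos _) (by norm_num), log_exp, binEntropy, log_inv, log_inv]
  have key : (1 : ℝ) ≤ ((1 - 7 / 69) / 2 : ℝ) ^ 62 * (1 - (1 - 7 / 69) / 2) ^ 76 *
      (1.99 : ℝ) ^ 138 := by
    norm_num
  have h2 := log_le_log (by norm_num) key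
  rw [log_mul (by norm_num) (by norm_num), log_mul (by norm_num) (by norm_num), log_pow, log_pow,
    log_pow, log_one] at h2
  push_cast at h2
  linarith

theorem one_le_exp_binEntropy {ρ : ℝ} (h0 : 0 ≤ ρ) (h1 : ρ ≤ 1) : 1 ≤ exp (binEntropy ρ) :=
  one_le_exp (binEntropy_nonneg h0 h1)

theorem exists_delta {b : ℝ} (hb1 : 1 ≤ b) (hb2 : b < 2) :
    ∃ v : ℕ, 3 ≤ v ∧ exp (binEntropy (1 / v)) * b ^ ((1 : ℝ) - 1 / v) < 2 ∧
      exp (binEntropy ((1 - 1 / v) / 2)) < 2 := by
  have ht : Filter.Tendsto (fun v : ℕ => exp (binEntropy (1 / (v : ℝ))) * b) Filter.atTop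
      (nhds (exp (binEntropy 0) * b)) := by
    have h1 : Filter.Tendsto (fun v : ℕ => (1 / (v : ℝ))) Filter.atTop (nhds 0) :=
      tendsto_one_div_atTop_nhds_zero_nat
    exact ((continuous_exp.comp binEntropy_continuous).tendsto 0 |>.comp h1).mul_const b
  rw [binEntropy_zero, exp_zero, one_mul] at ht
  have h2 := (ht.eventually_lt_const hb2).and (Filter.eventually_ge_atTop 3)
  obtain ⟨v, hv, hv3⟩ := h2.exists
  have hv0 : (0 : ℝ) < v := by positivity
  refine ⟨v, hv3, lt_of_le_of_lt ?_ hv, ?_⟩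
  · refine mul_le_mul_of_nonneg_left ?_ (exp_pos _).le
    calc b ^ ((1 : ℝ) - 1 / v) ≤ b ^ (1 : ℝ) :=
          rpow_le_rpow_of_exponent_le hb1 (by have : (0 : ℝ) < 1 / v := by positivity
                                              linarith)
      _ = b := rpow_one b
  · rw [← log_lt_log_iff (exp_pos _) (by norm_num), log_exp, binEntropy_lt_log_two]
    intro h
    have : (0 : ℝ) < 1 / v := by positivity
    linarith

end Pool.Agent.MP_b35d54_lc
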