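import Pool.Agent.Lib.MP_b35d54_lc.Mob

/-!
# Walks that use every edge of a closed trail exactly once
-/

namespace Pool.Agent.MP_b35d54_lc

open Finset

variable {V : Type} [Fintype V] [DecidableEq V] {J : ℕ} {K₀ : Finset (Sym2 V)}

/-- The edges of a closed sequence. -/
def edf (p : Fin (J + 1) → V) (i : Fin (J + 1)) : Sym2 V := s(p i, p (i + 1))

omit [Fintype V] [DecidableEq V] in
theorem ed_zero (p : Fin (J + 1) → V) : ed p (p 0) = edf p := by
  funext i
  rw [ed, edf, nx_zero]

omit [Fintype V] in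
theorem inj_of_image {f : Fin (J + 1) → Sym2 V} (hK : #K₀ = J + 1) (h : univ.image f = K₀) :
    Function.Injective f := by
  have : #(univ.image f) = #(univ : Finset (Fin (J + 1))) := by
    rw [h, hK, card_univ, Fintype.card_fin]
  have h2 := card_image_iff.1 this
  intro a b hab
  exact h2 (mem_coe.2 (mem_univ a)) (mem_coe.2 (mem_univ b)) hab

omit [Fintype V] in
theorem deg_eq (hK : #K₀ = J + 1) (hd : ∀ e ∈ K₀, ¬ e.IsDiag) {p : Fin (J + 1) → V} {v : V}
    (h : univ.image (ed p v) = K₀) (x : V) :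
    #{e ∈ K₀ | x ∈ e} + (if p 0 = x then 1 else 0) =
      2 * #{i | p i = x} + (if v = x then 1 else 0) := by
  have hinj := inj_of_image hK h
  have h1 : #{e ∈ K₀ | x ∈ e} = ∑ i, ((if p i = x then 1 else 0) +
      (if nx p v i = x then 1 else 0)) := by
    rw [card_filter, ← h, sum_image fun a _ b _ hab => hinj hab]
    refine sum_congr rfl fun i _ => ?_
    have h2 : ed p v i ∈ K₀ := h ▸ mem_image_of_mem _ (mem_univ i)
    have h3 : p i ≠ nx p v i := fun h4 => hd _ h2 (Sym2.mk_isDiag_iff.2 h4)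
    rw [ed]
    by_cases h5 : p i = x
    · have h6 : nx p v i ≠ x := fun h6 => h3 (h5.trans h6.symm)
      rw [if_pos h5, if_neg h6, if_pos]
      rw [Sym2.mem_iff]
      exact Or.inl h5.symm
    · rw [if_neg h5]
      by_cases h6 : nx p v i = x
      · rw [if_pos h6, if_pos]
        rw [Sym2.mem_iff]
        exact Or.inr h6.symm
      · rw [if_neg h6, if_neg]
        rw [Sym2.mem_iff]
        rintro (h7 | h7)
        · exact h5 h7.symm
        · exact h6 h7.symm
  have h2 : ∑ i, (if nx p v i = x then 1 else 0) =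
      ∑ i : Fin J, (if p i.succ = x then 1 else 0) + (if v = x then 1 else 0) := by
    rw [Fin.sum_univ_castSucc, nx_last]
    simp_rw [nx_castSucc]
  have h3 : #{i | p i = x} = (if p 0 = x then 1 else 0) +
      ∑ i : Fin J, (if p i.succ = x then 1 else 0) := by
    rw [card_filter, Fin.sum_univ_succ]
  have h4 : ∑ i, (if p i = x then 1 else 0) = #{i | p i = x} := (card_filter _ _).symm
  rw [h1, sum_add_distrib, h2, h4]
  omega

omit [Fintype V] in
theorem closed_of_even (hK : #K₀ = J + 1) (hd : ∀ e ∈ K₀, ¬ e.IsDiag)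
    {w₀ : Fin (J + 1) → V} (h₀ : univ.image (edf w₀) = K₀) {p : Fin (J + 1) → V} {v : V}
    (h : univ.image (ed p v) = K₀) : v = p 0 := by
  have h1 := deg_eq hK hd (p := w₀) (v := w₀ 0) (by rw [ed_zero, h₀]) (p 0)
  have h2 := deg_eq hK hd h (p 0)
  rw [if_pos rfl] at h2
  by_contra hne
  rw [if_neg hne] at h2
  omega

omit [Fintype V] in
theorem count_eq (hK : #K₀ = J + 1) (hd : ∀ e ∈ K₀, ¬ e.IsDiag)
    {w₀ p : Fin (J + 1) → V} (h₀ : univ.image (edf w₀) = K₀) (h : univ.image (edf p) = K₀)
    (x : V) : #{i | p i = x} = #{i | w₀ i = x} := by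
  have h1 := deg_eq hK hd (p := w₀) (v := w₀ 0) (by rw [ed_zero, h₀]) x
  have h2 := deg_eq hK hd (p := p) (v := p 0) (by rw [ed_zero, h]) x
  omega

theorem prod_count {B : Type*} [CommMonoid B] (d : V → B) (p : Fin (J + 1) → V) :
    ∏ i, d (p i) = ∏ x, d x ^ #{i | p i = x} := by
  rw [← prod_fiberwise_of_maps_to (g := p) (t := univ) (fun i _ => mem_univ (p i))]
  refine prod_congr rfl fun x _ => ?_
  rw [prod_congr rfl (g := fun _ => d x) fun i hi => by rw [(mem_filter.1 hi).2], prod_const]

theorem prod_eq {B : Type*} [CommMonoid B] (hK : #K₀ = J + 1) (hd : ∀ e ∈ K₀, ¬ e.IsDiag)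
    {w₀ p : Fin (J + 1) → V} (h₀ : univ.image (edf w₀) = K₀) (h : univ.image (edf p) = K₀)
    (d : V → B) (w : V → V → B) (hw : ∀ x y, w x y = w y x) :
    ∏ i, (d (p i) * w (p i) (p (i + 1))) = ∏ i, (d (w₀ i) * w (w₀ i) (w₀ (i + 1))) := by
  rw [prod_mul_distrib, prod_mul_distrib, prod_count d p, prod_count d w₀]
  congr 1
  · refine prod_congr rfl fun x _ => ?_
    rw [count_eq hK hd h₀ h x]
  · have key : ∀ q : Fin (J + 1) → V, univ.image (edf q) = K₀ →
        ∏ i, w (q i) (q (i + 1)) = ∏ e ∈ K₀, Sym2.lift ⟨w, hw⟩ e := by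
      intro q hq
      have hinj := inj_of_image hK hq
      rw [← hq, prod_image fun a _ b _ hab => hinj hab]
      rfl
    rw [key p h, key w₀ h₀]

/-- The closed sequences with edge set `K₀`. -/
def EC (J : ℕ) (K₀ : Finset (Sym2 V)) : Finset (Fin (J + 1) → V) :=
  {p | univ.image (edf p) = K₀}

theorem mem_EC {p : Fin (J + 1) → V} : p ∈ EC J K₀ ↔ univ.image (edf p) = K₀ := by
  rw [EC, mem_filter]
  exact ⟨fun h => h.2, fun h => ⟨mem_univ _, h⟩⟩

theorem rotate {M : Type*} [AddCommMonoid M] (f : V → M) (c : Fin (J + 1)) :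
    ∑ p ∈ EC J K₀, f (p c) = ∑ p ∈ EC J K₀, f (p 0) := by
  refine sum_nbij' (fun p i => p (i + c)) (fun p i => p (i - c)) ?_ ?_ ?_ ?_ ?_
  · intro p hp
    rw [mem_EC] at hp ⊢
    rw [← hp]
    ext e
    simp only [mem_image, mem_univ, true_and]
    constructor
    · rintro ⟨i, rfl⟩
      exact ⟨i + c, by rw [edf, edf, add_right_comm]⟩
    · rintro ⟨i, rfl⟩
      refine ⟨i - c, ?_⟩
      have e1 : i - c + 1 + c = i + 1 := by abel
      change s(p (i - c + c), p (i - c + 1 + c)) = s(p i, p (i + 1))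
      rw [sub_add_cancel, e1]
  · intro p hp
    rw [mem_EC] at hp ⊢
    rw [← hp]
    ext e
    simp only [mem_image, mem_univ, true_and]
    constructor
    · rintro ⟨i, rfl⟩
      refine ⟨i - c, ?_⟩
      have e1 : i - c + 1 = i + 1 - c := by abel
      change s(p (i - c), p (i - c + 1)) = s(p (i - c), p (i + 1 - c))
      rw [e1]
    · rintro ⟨i, rfl⟩
      refine ⟨i + c, ?_⟩
      have e1 : i + c + 1 - c = i + 1 := by abel
      change s(p (i + c - c), p (i + c + 1 - c)) = s(p i, p (i + 1))
      rw [add_sub_cancel_right, e1]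
  · intro p _
    funext i
    simp
  · intro p _
    funext i
    simp
  · intro p _
    simp

/-- The average of the base points. -/
theorem base_sum {M : Type*} [AddCommMonoid M] (hK : #K₀ = J + 1)
    (hd : ∀ e ∈ K₀, ¬ e.IsDiag) {w₀ : Fin (J + 1) → V} (h₀ : univ.image (edf w₀) = K₀)
    (f : V → M) : (J + 1) • ∑ p ∈ EC J K₀, f (p 0) = #(EC J K₀) • ∑ i, f (w₀ i) := by
  have h1 : (J + 1) • ∑ p ∈ EC J K₀, f (p 0) = ∑ c : Fin (J + 1), ∑ p ∈ EC J K₀, f (p c) := by
    rw [sum_congr rfl (g := fun _ => ∑ p ∈ EC J K₀, f (p 0)) fun c _ => rotate f c, sum_const,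
      card_univ, Fintype.card_fin]
  have h2 : ∀ q : Fin (J + 1) → V, ∑ i, f (q i) = ∑ x, #{i | q i = x} • f x := by
    intro q
    rw [← sum_fiberwise_of_maps_to (g := q) (t := univ) (fun i _ => mem_univ (q i))]
    refine sum_congr rfl fun x _ => ?_
    rw [sum_congr rfl (g := fun _ => f x) fun i hi => by rw [(mem_filter.1 hi).2], sum_const]
  rw [h1, sum_comm, ← sum_const]
  refine sum_congr rfl fun p hp => ?_
  rw [h2, h2]
  refine sum_congr rfl fun x _ => ?_
  rw [count_eq hK hd h₀ (mem_EC.1 hp) x]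

omit [Fintype V] in
theorem injective_iff (hK : #K₀ = J + 1) (hd : ∀ e ∈ K₀, ¬ e.IsDiag)
    {w₀ p : Fin (J + 1) → V} (h₀ : univ.image (edf w₀) = K₀) (h : univ.image (edf p) = K₀) :
    Function.Injective p ↔ Function.Injective w₀ := by
  have key : ∀ q : Fin (J + 1) → V, Function.Injective q ↔ ∀ x, #{i | q i = x} ≤ 1 := by
    intro q
    constructor
    · intro hq x
      rw [card_le_one]
      intro a ha b hb
      rw [mem_filter] at ha hb
      exact hq (ha.2.trans hb.2.symm)
    · intro hq a b hab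
      have := hq (q b)
      rw [card_le_one] at this
      exact this a (by simp [hab]) b (by simp)
  rw [key, key]
  exact forall_congr' fun x => by rw [count_eq hK hd h₀ h x]

/-- The key identity: what a formula with walks says about a single closed trail. -/
theorem trail_key {K : Type*} [Field K] [CharZero K] {B : Type*} [CommRing B] [Algebra K B]
    (d : V → B) (w : V → V → B) (hw : ∀ x y, w x y = w y x)
    (φ : ℕ → V → V → (B →ₗ[K] K)) (S : Set ℕ) (hJ : 2 ≤ J) (hJV : J + 1 ≤ Fintype.card V)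
    (hS : J + 1 ∈ S)
    (hφ : ∀ G : SimpleGraph V,
      (({H : G.Subgraph | IsCyc H ∧ H.verts.ncard ∈ S}.ncard : ℕ) : K) =
        ∑ j ∈ range (J + 2), ∑ u, ∑ v,
          φ j u v ((wmat (fun x y => d x * w x y) G ^ j) u v))
    (w₀ : Fin (J + 1) → V) (hinj : Function.Injective (edf w₀)) (hne : ∀ i, w₀ i ≠ w₀ (i + 1)) :
    ∑ i, φ (J + 1) (w₀ i) (w₀ i) (∏ i, (d (w₀ i) * w (w₀ i) (w₀ (i + 1)))) =
      if Function.Injective w₀ then (1 / 2 : K) else 0 := by
  classical
  set m : V → V → B := fun x y => d x * w x y with hm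
  set K₀ : Finset (Sym2 V) := univ.image (edf w₀) with hK₀
  have hK : #K₀ = J + 1 := by
    rw [hK₀, card_image_of_injective _ hinj, card_univ, Fintype.card_fin]
  have hd : ∀ e ∈ K₀, ¬ e.IsDiag := by
    intro e he
    rw [hK₀, mem_image] at he
    obtain ⟨i, _, rfl⟩ := he
    rw [edf, Sym2.mk_isDiag_iff]
    exact hne i
  set ω : B := ∏ i, m (w₀ i) (w₀ (i + 1)) with hω
  -- the alternating sum of the right-hand side
  have hR : ∑ T ∈ K₀.powerset, (-1 : K) ^ #T * (∑ j ∈ range (J + 2), ∑ u, ∑ v,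
      φ j u v ((wmat m (SimpleGraph.fromEdgeSet
        ((K₀ \ T : Finset (Sym2 V)) : Set (Sym2 V))) ^ j) u v)) =
      ∑ p ∈ EC J K₀, φ (J + 1) (p 0) (p 0) ω := by
    have e1 : ∑ T ∈ K₀.powerset, (-1 : K) ^ #T * (∑ j ∈ range (J + 2), ∑ u, ∑ v,
        φ j u v ((wmat m (SimpleGraph.fromEdgeSet
          ((K₀ \ T : Finset (Sym2 V)) : Set (Sym2 V))) ^ j) u v)) =
        ∑ j ∈ range (J + 2), ∑ u, ∑ v, φ j u v (∑ T ∈ K₀.powerset, (-1 : B) ^ #T *
          (wmat m (SimpleGraph.fromEdgeSet
            ((K₀ \ T : Finset (Sym2 V)) : Set (Sym2 V))) ^ j) u v) := by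
      simp_rw [mul_sum]
      rw [sum_comm]
      refine sum_congr rfl fun j _ => ?_
      rw [sum_comm]
      refine sum_congr rfl fun u _ => ?_
      rw [sum_comm]
      refine sum_congr rfl fun v _ => ?_
      rw [map_sum]
      refine sum_congr rfl fun T _ => ?_
      have e2 : ∀ x : B, (-1 : B) ^ #T * x = (-1 : K) ^ #T • x := by
        intro x
        rw [Algebra.smul_def, map_pow, map_neg, map_one]
      rw [e2, map_smul, smul_eq_mul]
    rw [e1, sum_range_succ]
    have e3 : ∑ j ∈ range (J + 1), ∑ u, ∑ v, φ j u v (∑ T ∈ K₀.powerset, (-1 : B) ^ #T *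
        (wmat m (SimpleGraph.fromEdgeSet
          ((K₀ \ T : Finset (Sym2 V)) : Set (Sym2 V))) ^ j) u v) = 0 := by
      refine sum_eq_zero fun j hj => sum_eq_zero fun u _ => sum_eq_zero fun v _ => ?_
      rw [mem_range] at hj
      rcases j with _ | j
      · simp only [pow_zero]
        rw [← sum_mul]
        have e4 : (∑ T ∈ K₀.powerset, (-1 : B) ^ #T) = 0 := by
          have h3 := sum_powerset_neg_one_pow_card_of_nonempty (x := K₀)
            (card_pos.1 (by omega))
          have h4 := congrArg (fun z : ℤ => (z : B)) h3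
          push_cast at h4
          exact h4
        rw [e4, zero_mul, map_zero]
      · rw [mob_pow m hd j u v]
        have e5 : ∀ p : Fin (j + 1) → V, ¬ (univ.image (ed p v) = K₀) := by
          intro p hp
          have h5 : #(univ.image (ed p v)) ≤ j + 1 := by
            refine card_image_le.trans ?_
            rw [card_univ, Fintype.card_fin]
          rw [hp, hK] at h5
          omega
        simp only [e5, and_false, if_false, sum_const_zero, map_zero]
    rw [e3, zero_add]
    have e6 : ∀ u v, ∑ T ∈ K₀.powerset, (-1 : B) ^ #T *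
        (wmat m (SimpleGraph.fromEdgeSet
          ((K₀ \ T : Finset (Sym2 V)) : Set (Sym2 V))) ^ (J + 1)) u v =
        ∑ p ∈ EC J K₀, if p 0 = u ∧ p 0 = v then ω else 0 := by
      intro u v
      rw [mob_pow m hd J u v]
      have e7 : ∀ p : Fin (J + 1) → V, (if p 0 = u ∧ univ.image (ed p v) = K₀ then
          ∏ i, m (p i) (nx p v i) else 0) =
          if p ∈ EC J K₀ then (if p 0 = u ∧ p 0 = v then ω else 0) else 0 := by
        intro p
        by_cases hv : v = p 0
        · subst hv
          rw [ed_zero]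
          by_cases h8 : univ.image (edf p) = K₀
          · rw [if_pos (mem_EC.2 h8)]
            simp only [h8, and_true]
            split_ifs with h9
            · simp_rw [nx_zero]
              exact prod_eq hK hd hK₀.symm h8 d w hw
            · rfl
          · rw [if_neg (fun h9 => h8 (mem_EC.1 h9)), if_neg (fun h9 => h8 h9.2)]
        · rw [if_neg, if_neg (fun h9 : p 0 = u ∧ p 0 = v => hv h9.2.symm)]
          · split_ifs <;> rfl
          · rintro ⟨_, h9⟩
            exact hv (closed_of_even hK hd hK₀.symm h9)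
      simp_rw [e7]
      rw [← sum_filter]
      refine sum_congr ?_ fun _ _ => rfl
      ext p
      simp
    simp_rw [e6, map_sum]
    have e8 : ∀ u, ∑ v, ∑ p ∈ EC J K₀, φ (J + 1) u v (if p 0 = u ∧ p 0 = v then ω else 0) =
        ∑ p ∈ EC J K₀, if p 0 = u then φ (J + 1) u u ω else 0 := by
      intro u
      rw [sum_comm]
      refine sum_congr rfl fun p _ => ?_
      rw [sum_eq_single (p 0)]
      · by_cases h : p 0 = u
        · subst h; simp
        · simp [h]
      · intro v _ hv
        rw [if_neg (fun h => hv h.2.symm), map_zero]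
      · intro h; exact absurd (mem_univ _) h
    simp_rw [e8]
    rw [sum_comm]
    refine sum_congr rfl fun p _ => ?_
    rw [sum_eq_single (p 0)]
    · rw [if_pos rfl]
    · intro u _ hu
      rw [if_neg fun h => hu h.symm]
    · intro h; exact absurd (mem_univ _) h
  -- the alternating sum of the left-hand side
  have hL : ∑ T ∈ K₀.powerset, (-1 : K) ^ #T *
      (({H : (SimpleGraph.fromEdgeSet
        ((K₀ \ T : Finset (Sym2 V)) : Set (Sym2 V))).Subgraph |
          IsCyc H ∧ H.verts.ncard ∈ S}.ncard : ℕ) : K) =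
      (2 * ((J + 1 : ℕ) : K))⁻¹ * ∑ p : Fin (J + 1) → V,
        if Function.Injective p ∧ univ.image (edf p) = K₀ then 1 else 0 := by
    have f1 : ∀ G : SimpleGraph V, {H : G.Subgraph | IsCyc H ∧ H.verts.ncard ∈ S}.ncard =
        ∑ k ∈ range (Fintype.card V + 1), if k ∈ S then ck G k else 0 := by
      intro G
      rw [ncard_eq_sum]
      have f2 : ∀ A : Finset V, {H : G.Subgraph |
          (IsCyc H ∧ H.verts.ncard ∈ S) ∧ H.verts = (A : Set V)}.ncard =
          if #A ∈ S then hc G (A : Set V) else 0 := by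
        intro A
        by_cases hA : #A ∈ S
        · rw [if_pos hA, hc]
          congr 1
          ext H
          simp only [Set.mem_ofPred_eq]
          constructor
          · rintro ⟨⟨h3, _⟩, h4⟩
            exact ⟨h3, h4⟩
          · rintro ⟨h3, h4⟩
            exact ⟨⟨h3, by rw [h4, Set.ncard_coe_finset]; exact hA⟩, h4⟩
        · rw [if_neg hA, Set.ncard_eq_zero (Set.toFinite _)]
          ext H
          simp only [Set.mem_ofPred_eq, Set.mem_empty_iff_false, iff_false]
          rintro ⟨⟨_, h3⟩, h4⟩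
          rw [h4, Set.ncard_coe_finset] at h3
          exact hA h3
      simp_rw [f2]
      rw [← powerset_univ, sum_powerset]
      rw [card_univ]
      refine sum_congr rfl fun k _ => ?_
      split_ifs with hk
      · rw [ck]
        refine sum_congr rfl fun A hA => ?_
        rw [(mem_powersetCard.1 hA).2, if_pos hk]
      · refine sum_eq_zero fun A hA => ?_
        rw [(mem_powersetCard.1 hA).2, if_neg hk]
    simp_rw [f1, Nat.cast_sum, Nat.cast_ite, Nat.cast_zero, mul_sum]
    rw [sum_comm, sum_eq_single (J + 1)]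
    · have f3 := mob_ck (K := K) hd (k := J + 1) (by omega)
      simp only [if_pos hS]
      rw [f3, mul_sum]
      rfl
    · intro k _ hk
      by_cases hkS : k ∈ S
      · simp only [if_pos hkS]
        by_cases hk3 : k < 3
        · refine sum_eq_zero fun T _ => ?_
          rw [ck_eq_zero hk3, Nat.cast_zero, mul_zero]
        · have : NeZero k := ⟨by omega⟩
          rw [mob_ck (K := K) hd (k := k) (by omega), sum_eq_zero, mul_zero]
          intro q _
          rw [if_neg]
          rintro ⟨h1, h2⟩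
          have h3 : #(univ.image (edc q)) = k := by
            rw [card_image_of_injective _ (edc_injective (by omega) h1), card_univ, ZMod.card]
          rw [h2, hK] at h3
          exact hk h3.symm
      · refine sum_eq_zero fun T _ => ?_
        rw [if_neg hkS, mul_zero]
    · intro h
      exact absurd (mem_range.2 (by omega)) h
  have hRL : ∑ T ∈ K₀.powerset, (-1 : K) ^ #T *
      (({H : (SimpleGraph.fromEdgeSet
        ((K₀ \ T : Finset (Sym2 V)) : Set (Sym2 V))).Subgraph |
          IsCyc H ∧ H.verts.ncard ∈ S}.ncard : ℕ) : K) =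
      ∑ T ∈ K₀.powerset, (-1 : K) ^ #T * (∑ j ∈ range (J + 2), ∑ u, ∑ v,
      φ j u v ((wmat m (SimpleGraph.fromEdgeSet
        ((K₀ \ T : Finset (Sym2 V)) : Set (Sym2 V))) ^ j) u v)) := by
    refine sum_congr rfl fun T _ => ?_
    rw [hφ]
  rw [hR, hL] at hRL
  have hb := base_sum hK hd hK₀.symm fun x => φ (J + 1) x x ω
  rw [← hRL] at hb
  simp only [nsmul_eq_mul] at hb
  have hE : 0 < #(EC J K₀) := card_pos.2 ⟨w₀, mem_EC.2 rfl⟩
  have hE' : ((#(EC J K₀) : ℕ) : K) ≠ 0 := by exact_mod_cast hE.ne'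
  have hJ' : ((J + 1 : ℕ) : K) ≠ 0 := by exact_mod_cast Nat.succ_ne_zero J
  have hsum : ∑ p : Fin (J + 1) → V,
      (if Function.Injective p ∧ univ.image (edf p) = K₀ then (1 : K) else 0) =
      if Function.Injective w₀ then ((#(EC J K₀) : ℕ) : K) else 0 := by
    rw [sum_boole]
    by_cases h1 : Function.Injective w₀
    · rw [if_pos h1]
      congr 2
      ext p
      rw [mem_filter, mem_EC]
      constructor
      · rintro ⟨_, _, h⟩
        exact h
      · intro h
        exact ⟨mem_univ _, (injective_iff hK hd hK₀.symm h).2 h1, h⟩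
    · rw [if_neg h1, Nat.cast_eq_zero, card_eq_zero, filter_eq_empty_iff]
      rintro p _ ⟨h2, h3⟩
      exact h1 ((injective_iff hK hd hK₀.symm h3).1 h2)
  rw [hsum] at hb
  apply mul_left_cancel₀ hE'
  rw [← hb]
  split_ifs
  · push_cast at hJ' ⊢
    field_simp
  · simp

end Pool.Agent.MP_b35d54_lc
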