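import Pool.Agent.Lib.MP_b35d54_lc.Cyc

/-!
# Dropping the middle sizes

The number of cycles with `k` vertices as a signed sum of numbers of closed walks of length `k`
inside the vertex sets of size at most `r` and inside the complements of the vertex sets of size at
most `m`, where `r + m + 1 = k`.
-/

namespace Pool.Agent.MP_b35d54_lc

open Finset

/-! ### The alternating sums -/

/-- The alternating sum of the inclusion-exclusion. -/
def esum (t a q : ℕ) : ℤ :=
  ∑ u ∈ range (q + 1), (-1) ^ u * (t.choose u : ℤ) * ((a + (q - u)).choose a : ℤ)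

theorem esum_succ (t a q : ℕ) : esum (t + 1) a (q + 1) = esum t a (q + 1) - esum t a q := by
  unfold esum
  rw [sum_range_succ' (fun u => (-1 : ℤ) ^ u * ((t + 1).choose u : ℤ) *
      ((a + (q + 1 - u)).choose a : ℤ)) (q + 1),
    sum_range_succ' (fun u => (-1 : ℤ) ^ u * (t.choose u : ℤ) *
      ((a + (q + 1 - u)).choose a : ℤ)) (q + 1), add_sub_right_comm, ← sum_sub_distrib]
  simp only [Nat.choose_zero_right, pow_zero, Nat.add_sub_add_right]
  congr 1
  refine sum_congr rfl fun v _ => ?_
  rw [Nat.choose_succ_succ]
  push_cast
  ring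

theorem esum_zero_right (t a : ℕ) : esum t a 0 = 1 := by
  simp [esum]

theorem esum_le {a : ℕ} : ∀ {t : ℕ}, t ≤ a → ∀ q, esum t a q = ((a - t + q).choose q : ℤ) := by
  intro t
  induction t with
  | zero =>
    intro _ q
    unfold esum
    rw [sum_eq_single 0 (fun u _ hu => by
      rw [Nat.choose_eq_zero_of_lt (Nat.pos_of_ne_zero hu)]; simp)
      (fun h => absurd (mem_range.2 (Nat.succ_pos q)) h)]
    simp only [pow_zero, Nat.choose_zero_right, Nat.cast_one, mul_one, one_mul, Nat.sub_zero]
    rw [Nat.choose_symm_add]
  | succ t ih =>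
    intro h q
    cases q with
    | zero => rw [esum_zero_right]; simp
    | succ q =>
      rw [esum_succ, ih (by omega), ih (by omega)]
      have e : a - t + (q + 1) = (a - (t + 1) + (q + 1)) + 1 := by omega
      have e2 : a - t + q = a - (t + 1) + (q + 1) := by omega
      rw [e, e2, Nat.choose_succ_succ]
      push_cast
      ring

theorem esum_gt (a x : ℕ) : ∀ q, esum (a + 1 + x) a q = (-1) ^ q * (x.choose q : ℤ) := by
  induction x with
  | zero =>
    intro q
    cases q with
    | zero => rw [esum_zero_right]; simp
    | succ q =>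
      rw [Nat.add_zero, esum_succ, esum_le le_rfl, esum_le le_rfl]
      simp
  | succ x ih =>
    intro q
    cases q with
    | zero => rw [esum_zero_right]; simp
    | succ q =>
      rw [← Nat.add_assoc, esum_succ, ih, ih, Nat.choose_succ_succ]
      push_cast
      ring

/-! ### Sums over the sets disjoint from a given one -/

variable {V : Type} [Fintype V] [DecidableEq V]

theorem sum_disjoint (B : Finset V) (f : ℕ → ℤ) :
    ∑ S : Finset V, (if B ⊆ Sᶜ then f #S else 0) =
      ∑ t ∈ range (Fintype.card V - #B + 1), ((Fintype.card V - #B).choose t : ℤ) * f t := by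
  have h := sum_powerset_apply_card f (x := Bᶜ)
  rw [card_compl] at h
  simp only [nsmul_eq_mul] at h
  rw [← h, ← sum_filter]
  refine sum_congr ?_ fun _ _ => rfl
  ext S
  simp only [mem_filter, mem_univ, true_and, mem_powerset]
  constructor
  · intro hB
    rwa [← compl_compl S, compl_subset_compl]
  · intro hS
    rwa [← compl_compl B, compl_subset_compl]

theorem sum_superset (B : Finset V) (f : ℕ → ℤ) :
    ∑ S : Finset V, (if B ⊆ S then f #S else 0) =
      ∑ t ∈ range (Fintype.card V - #B + 1), ((Fintype.card V - #B).choose t : ℤ) * f (#B + t) := by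
  have h1 : ∑ S : Finset V, (if B ⊆ S then f #S else 0) =
      ∑ S : Finset V, (if B ⊆ Sᶜ then f (Fintype.card V - #S) else 0) := by
    refine sum_nbij' (fun S => Sᶜ) (fun S => Sᶜ) (fun _ _ => mem_univ _) (fun _ _ => mem_univ _)
      (fun S _ => compl_compl S) (fun S _ => compl_compl S) fun S _ => ?_
    rw [compl_compl, card_compl, Nat.sub_sub_self (card_le_univ S)]
  rw [h1, sum_disjoint B (fun i => f (Fintype.card V - i)), ← sum_range_reflect]
  refine sum_congr rfl fun t ht => ?_
  rw [mem_range] at ht
  have hB : #B ≤ Fintype.card V := card_le_univ B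
  have e1 : Fintype.card V - #B + 1 - 1 - t = Fintype.card V - #B - t := by omega
  have e2 : Fintype.card V - (Fintype.card V - #B - t) = #B + t := by omega
  rw [e1, e2, Nat.choose_symm (by omega)]

/-! ### The formula -/

/-- Coefficient of the small vertex sets. -/
def lo (n k r i : ℕ) : ℤ := (-1) ^ (k + i) * ((n - k + (r - i)).choose (n - k) : ℤ)

/-- Coefficient of the large vertex sets. -/
def up (n k m s : ℕ) : ℤ := (-1) ^ s * ((n - k + (m - s)).choose (n - k) : ℤ)

theorem coeff_sum {n k r m j : ℕ} (hk : k ≤ n) (hrm : r + m + 1 = k) (hj : j ≤ k) :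
    ∑ t ∈ range (n - j + 1), ((n - j).choose t : ℤ) *
        (if j + t ≤ r then lo n k r (j + t) else 0) +
      ∑ t ∈ range (n - j + 1), ((n - j).choose t : ℤ) * (if t ≤ m then up n k m t else 0) =
    if j = k then 1 else 0 := by
  have hU : ∑ t ∈ range (n - j + 1), ((n - j).choose t : ℤ) *
      (if t ≤ m then up n k m t else 0) = esum (n - j) (n - k) m := by
    unfold esum up
    rw [← sum_subset (s₁ := range (min (n - j) m + 1)) (s₂ := range (n - j + 1)),
      ← sum_subset (s₁ := range (min (n - j) m + 1)) (s₂ := range (m + 1))]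
    · refine sum_congr rfl fun t ht => ?_
      rw [mem_range] at ht
      rw [if_pos (by omega)]
      ring
    · exact range_subset_range.2 (by omega)
    · intro t ht ht'
      rw [mem_range] at ht ht'
      rw [Nat.choose_eq_zero_of_lt (by omega)]
      simp
    · exact range_subset_range.2 (by omega)
    · intro t ht ht'
      rw [mem_range] at ht ht'
      rw [if_neg (by omega)]
      simp
  rw [hU]
  by_cases hjr : j ≤ r
  · have hL : ∑ t ∈ range (n - j + 1), ((n - j).choose t : ℤ) *
        (if j + t ≤ r then lo n k r (j + t) else 0) =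
        (-1) ^ (k + j) * esum (n - j) (n - k) (r - j) := by
      unfold esum lo
      rw [mul_sum, ← sum_subset (s₁ := range (r - j + 1)) (s₂ := range (n - j + 1))]
      · refine sum_congr rfl fun t ht => ?_
        rw [mem_range] at ht
        have e : r - (j + t) = r - j - t := by omega
        rw [if_pos (by omega), e]
        ring
      · exact range_subset_range.2 (by omega)
      · intro t ht ht'
        rw [mem_range] at ht ht'
        rw [if_neg (by omega)]
        simp
    rw [hL, if_neg (by omega)]
    obtain ⟨x, hx⟩ : ∃ x, k = j + 1 + x := ⟨k - j - 1, by omega⟩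
    have e : n - j = n - k + 1 + x := by omega
    rw [e, esum_gt, esum_gt]
    have e2 : x = (r - j) + m := by omega
    have e3 : x.choose (r - j) = x.choose m := by
      rw [e2, Nat.choose_symm_add]
    rw [e3]
    have e4 : ((-1 : ℤ)) ^ (k + j) * (-1) ^ (r - j) = - (-1) ^ m := by
      have : k + j + (r - j) = 2 * r + m + 1 := by omega
      rw [← pow_add, this, pow_succ, pow_add, pow_mul]
      simp
    rw [← mul_assoc, e4]
    ring
  · have hL : ∑ t ∈ range (n - j + 1), ((n - j).choose t : ℤ) *
        (if j + t ≤ r then lo n k r (j + t) else 0) = 0 := by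
      refine sum_eq_zero fun t _ => ?_
      rw [if_neg (by omega), mul_zero]
    rw [hL, zero_add]
    by_cases hjk : j = k
    · subst hjk
      rw [if_pos rfl, esum_le le_rfl]
      simp
    · rw [if_neg hjk]
      obtain ⟨x, hx⟩ : ∃ x, k = j + 1 + x := ⟨k - j - 1, by omega⟩
      have e : n - j = n - k + 1 + x := by omega
      rw [e, esum_gt, Nat.choose_eq_zero_of_lt (by omega)]
      simp

/-- The number of closed walks of length `k` inside `S`. -/
noncomputable def wc (G : SimpleGraph V) (k : ℕ) (S : Finset V) : ℕ :=
  {w : ZMod k → V | (∀ i, G.Adj (w i) (w (i + 1))) ∧ ∀ i, w i ∈ S}.ncard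

/-- The number of cycles with `k` vertices. -/
noncomputable def ck (G : SimpleGraph V) (k : ℕ) : ℕ :=
  ∑ A ∈ powersetCard k (univ : Finset V), hc G (A : Set V)

open Classical in
theorem wc_eq (G : SimpleGraph V) {k : ℕ} [NeZero k] (S : Finset V) :
    (wc G k S : ℤ) = ∑ w : ZMod k → V, if (∀ i, G.Adj (w i) (w (i + 1))) then
      (if univ.image w ⊆ S then 1 else 0) else 0 := by
  unfold wc
  rw [Set.ncard_eq_toFinset_card', ← sum_filter, sum_boole, Nat.cast_inj]
  congr 1
  ext w
  simp only [Set.mem_toFinset, Set.mem_ofPred_eq, mem_filter, mem_univ, true_and]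
  refine and_congr_right fun _ => ?_
  rw [image_subset_iff]
  simp

open Classical in
theorem card_injClosed (G : SimpleGraph V) {k : ℕ} [NeZero k] (hk : 3 ≤ k) :
    ∑ w : ZMod k → V, (if (∀ i, G.Adj (w i) (w (i + 1))) then
      (if #(univ.image w) = k then (1 : ℤ) else 0) else 0) = 2 * k * ck G k := by
  have h1 : ∑ w : ZMod k → V, (if (∀ i, G.Adj (w i) (w (i + 1))) then
      (if #(univ.image w) = k then (1 : ℤ) else 0) else 0) =
      ∑ A ∈ powersetCard k (univ : Finset V), ∑ w : ZMod k → V,
        if Function.Injective w ∧ (∀ i, G.Adj (w i) (w (i + 1))) ∧ Set.range w = A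
          then (1 : ℤ) else 0 := by
    rw [sum_comm]
    refine sum_congr rfl fun w _ => ?_
    by_cases hw : ∀ i, G.Adj (w i) (w (i + 1))
    · rw [if_pos hw]
      by_cases hc' : #(univ.image w) = k
      · have hinj : Function.Injective w := by
          have : #(univ.image w) = #(univ : Finset (ZMod k)) := by
            rw [hc', card_univ, ZMod.card]
          have h2 := card_image_iff.1 this
          intro a b hab
          exact h2 (mem_coe.2 (mem_univ a)) (mem_coe.2 (mem_univ b)) hab
        rw [if_pos hc', sum_eq_single (univ.image w)]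
        · rw [if_pos ⟨hinj, hw, by simp⟩]
        · intro A _ hA
          rw [if_neg]
          rintro ⟨_, _, h3⟩
          apply hA
          rw [← coe_inj, ← h3]
          simp
        · intro h3
          exact absurd (mem_powersetCard.2 ⟨subset_univ _, hc'⟩) h3
      · rw [if_neg hc']
        symm
        refine sum_eq_zero fun A hA => ?_
        rw [if_neg]
        rintro ⟨h3, _, _⟩
        apply hc'
        rw [card_image_of_injective _ h3, card_univ, ZMod.card]
    · rw [if_neg hw]
      symm
      refine sum_eq_zero fun A _ => ?_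
      rw [if_neg]
      rintro ⟨_, h3, _⟩
      exact hw h3
  rw [h1, ck]
  push_cast
  rw [mul_sum]
  refine sum_congr rfl fun A hA => ?_
  rw [mem_powersetCard] at hA
  have h2 := card_closed (G := G) hk (A : Set V) (by rw [Set.ncard_coe_finset, hA.2])
  rw [Set.ncard_eq_toFinset_card'] at h2
  rw [sum_boole]
  have h3 : (#{w : ZMod k → V | Function.Injective w ∧ (∀ i, G.Adj (w i) (w (i + 1))) ∧
      Set.range w = (A : Set V)} : ℕ) = 2 * k * hc G (A : Set V) := by
    rw [← h2]
    congr 1
    ext w
    simp
  rw [h3]
  push_cast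
  ring

/-- Dropping the middle sizes: the number of `k`-cycles from the numbers of closed walks inside
the vertex sets with at most `r` elements and inside the complements of those with at most `m`
elements, `r + m + 1 = k`. -/
theorem middle (G : SimpleGraph V) {k r m : ℕ} (hk : 3 ≤ k) (hn : k ≤ Fintype.card V)
    (hrm : r + m + 1 = k) :
    (2 * k * ck G k : ℤ) =
      ∑ S : Finset V, (if #S ≤ r then lo (Fintype.card V) k r #S * wc G k S else 0) +
      ∑ S : Finset V, (if #S ≤ m then up (Fintype.card V) k m #S * wc G k Sᶜ else 0) := by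
  classical
  have : NeZero k := ⟨by omega⟩
  rw [← card_injClosed G hk]
  have hA : ∑ S : Finset V, (if #S ≤ r then lo (Fintype.card V) k r #S * wc G k S else 0) =
      ∑ w : ZMod k → V, if (∀ i, G.Adj (w i) (w (i + 1))) then
        ∑ S : Finset V, (if univ.image w ⊆ S then
          (if #S ≤ r then lo (Fintype.card V) k r #S else 0) else 0) else 0 := by
    simp_rw [wc_eq]
    have : ∀ w : ZMod k → V, (if (∀ i, G.Adj (w i) (w (i + 1))) then
        ∑ S : Finset V, (if univ.image w ⊆ S then
          (if #S ≤ r then lo (Fintype.card V) k r #S else 0) else 0) else 0) =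
        ∑ S : Finset V, (if (∀ i, G.Adj (w i) (w (i + 1))) then (if univ.image w ⊆ S then
          (if #S ≤ r then lo (Fintype.card V) k r #S else 0) else 0) else 0) := by
      intro w
      split_ifs
      · rfl
      · rw [sum_const_zero]
    simp_rw [this]
    rw [sum_comm]
    refine sum_congr rfl fun S _ => ?_
    by_cases hS : #S ≤ r
    · simp only [hS, if_true]
      rw [mul_sum]
      refine sum_congr rfl fun w _ => ?_
      split_ifs <;> simp
    · simp only [hS, if_false]
      symm
      refine sum_eq_zero fun w _ => ?_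
      split_ifs <;> rfl
  have hB : ∑ S : Finset V, (if #S ≤ m then up (Fintype.card V) k m #S * wc G k Sᶜ else 0) =
      ∑ w : ZMod k → V, if (∀ i, G.Adj (w i) (w (i + 1))) then
        ∑ S : Finset V, (if univ.image w ⊆ Sᶜ then
          (if #S ≤ m then up (Fintype.card V) k m #S else 0) else 0) else 0 := by
    simp_rw [wc_eq]
    have : ∀ w : ZMod k → V, (if (∀ i, G.Adj (w i) (w (i + 1))) then
        ∑ S : Finset V, (if univ.image w ⊆ Sᶜ then
          (if #S ≤ m then up (Fintype.card V) k m #S else 0) else 0) else 0) =
        ∑ S : Finset V, (if (∀ i, G.Adj (w i) (w (i + 1))) then (if univ.image w ⊆ Sᶜ then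
          (if #S ≤ m then up (Fintype.card V) k m #S else 0) else 0) else 0) := by
      intro w
      split_ifs
      · rfl
      · rw [sum_const_zero]
    simp_rw [this]
    rw [sum_comm]
    refine sum_congr rfl fun S _ => ?_
    by_cases hS : #S ≤ m
    · simp only [hS, if_true]
      rw [mul_sum]
      refine sum_congr rfl fun w _ => ?_
      split_ifs <;> simp
    · simp only [hS, if_false]
      symm
      refine sum_eq_zero fun w _ => ?_
      split_ifs <;> rfl
  rw [hA, hB, ← sum_add_distrib]
  refine sum_congr rfl fun w _ => ?_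
  by_cases hw : ∀ i, G.Adj (w i) (w (i + 1))
  · simp only [hw, implies_true, if_true]
    rw [sum_superset (univ.image w) (fun i => if i ≤ r then lo (Fintype.card V) k r i else 0),
      sum_disjoint (univ.image w) (fun i => if i ≤ m then up (Fintype.card V) k m i else 0)]
    have hj : #(univ.image w) ≤ k := by
      refine card_image_le.trans ?_
      rw [card_univ, ZMod.card]
    exact (coeff_sum hn hrm hj).symm
  · simp only [hw, if_false, add_zero]

end Pool.Agent.MP_b35d54_lc
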