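import Pool.Agent.Lib.MP_b35d54_lc.Short

/-!
# Counting the cycles of length `k` in polynomial space with about `C(n, k/2)` steps

The classical inclusion-exclusion algorithms count the cycles of an `n`-vertex graph in polynomial
space with about `2 ^ n` steps; the cycles with `k` vertices can be counted with about `C(n, k/2)`
steps in polynomial space (known: Pratt, Waring decompositions, 2018).  Here the reason is that the inclusion-exclusion formula remains true, with
other coefficients, when all sets of vertices of middle size are dropped: if `r + m + 1 = k`, then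
twice `k` times the number of `k`-cycles is a combination of the numbers of closed walks of length
`k` in the induced subgraphs on sets `S` with `|S| ≤ r` or `|V \ S| ≤ m`
(`Pool.Agent.MP_b35d54_lc.middle`).

* `IsCycle H`: the subgraph `H` is connected and all its degrees are 2.
* `numCyclesOfLength n G k`: the number of cycles of `G` with exactly `k` vertices.
* `numCyclesUpTo c n G`: the number of cycles of `G` with at most `c n` vertices.
* `CountsPolySpace a f`: a deterministic multi-stack Turing machine of Mathlib (`FinTM2`, with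
  two-valued input and output alphabets, see `Box`) computes `f n G` from the adjacency matrix of
  every graph `G` on `n` vertices in at most `p n * a ^ n` steps, never using more than `p n` stack
  cells, for one polynomial `p`.
-/

namespace Pool.Agent.MP_b35d54_lc.HalfSizePolySpace

open Pool.Agent.PolyTime Pool.Agent.MP_b35d54_lc Real

/-- Cycles of a graph: connected subgraphs in which all degrees are 2. -/
def IsCycle {n : ℕ} {G : SimpleGraph (Fin n)} (H : G.Subgraph) : Prop :=
  H.Connected ∧ ∀ v ∈ H.verts, (H.neighborSet v).ncard = 2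

/-- The number of cycles with exactly `k` vertices. -/
noncomputable def numCyclesOfLength (n : ℕ) (G : SimpleGraph (Fin n)) (k : ℕ) : ℕ :=
  {H : G.Subgraph | IsCycle H ∧ H.verts.ncard = k}.ncard

/-- The number of cycles with at most `c n` vertices. -/
noncomputable def numCyclesUpTo (c : ℚ) (n : ℕ) (G : SimpleGraph (Fin n)) : ℕ :=
  {H : G.Subgraph | IsCycle H ∧ (H.verts.ncard : ℚ) ≤ c * n}.ncard

/-- The number `f n G` is computed from the adjacency matrix of `G` by a deterministic Turing
machine in time `O*(a ^ n)` and polynomial space, where `n` is the number of vertices. -/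
def CountsPolySpace (a : ℝ) (f : (n : ℕ) → SimpleGraph (Fin n) → ℕ) : Prop :=
  ∃ (B : Box) (p : Polynomial ℕ), ∀ (n : ℕ) (G : SimpleGraph (Fin n)), ∃ t S : ℕ,
    B.Runs (bits (enc (code G))) (bits (enc (f n G))) t S ∧
      (t : ℝ) ≤ (p.eval n : ℕ) * a ^ n ∧ S ≤ p.eval n

theorem counts_iff (a : ℝ) (f : (n : ℕ) → SimpleGraph (Fin n) → ℕ) :
    CountsPolySpace a f ↔ Solves True a (fun G => f G.1 G.2) := by
  constructor
  · rintro ⟨B, p, h⟩
    refine ⟨B, p, fun G => ?_⟩
    obtain ⟨t, S, h1, h2, h3⟩ := h G.1 G.2
    exact ⟨t, S, h1, h2, fun _ => h3⟩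
  · rintro ⟨B, p, h⟩
    refine ⟨B, p, fun n G => ?_⟩
    obtain ⟨t, S, h1, h2, h3⟩ := h ⟨n, G⟩
    exact ⟨t, S, h1, h2, h3 trivial⟩

/-- 1. The cycles with exactly `k` vertices of an `n`-vertex graph are counted by one deterministic
machine with at most `p n * ∑_{i ≤ k/2} C(n, i)` steps and `p n` cells of memory, `p` a polynomial.
2. For a rational `0 < c < 1`, the cycles with at most `c n` vertices are counted in time
`O*(exp(H(c/2)) ^ n)`, where `exp(H(c/2)) < 2`, and in polynomial space.
3. For `c = 0.898`, this is time `O*(1.99 ^ n)`, the bound of the question. -/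
theorem result :
    (∃ (B : Box) (p : Polynomial ℕ), ∀ (n : ℕ) (G : SimpleGraph (Fin n)) (k : ℕ), k ≤ n →
      ∃ t S : ℕ, B.Runs (bits (enc (code G, k))) (bits (enc (numCyclesOfLength n G k))) t S ∧
        t ≤ p.eval n * ∑ i ∈ Finset.range (k / 2 + 1), n.choose i ∧ S ≤ p.eval n) ∧
    (∀ c : ℚ, 0 < c → c < 1 → exp (binEntropy (c / 2)) < 2 ∧
      CountsPolySpace (exp (binEntropy (c / 2))) (numCyclesUpTo c)) ∧
    CountsPolySpace 1.99 (numCyclesUpTo 0.898) := by
  have key : ∀ (u v : ℕ) (_ : 0 < u) (_ : u ≤ v) (a : ℝ),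
      exp (binEntropy ((u : ℝ) / (2 * v))) ≤ a →
      CountsPolySpace a (numCyclesUpTo ((u : ℚ) / v)) := by
    intro u v hu huv a ha
    rw [counts_iff]
    have h := short hu huv ha
    have e : ∀ G : Gr, numCyclesUpTo ((u : ℚ) / v) G.1 G.2 =
        {H : G.2.Subgraph | IsCyc H ∧ v * H.verts.ncard ≤ u * G.1}.ncard := by
      intro G
      rw [numCyclesUpTo]
      congr 1
      ext H
      simp only [Set.mem_setOf_eq]
      refine and_congr Iff.rfl ?_
      have hv : (0 : ℚ) < v := by
        have : 0 < v := by omega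
        exact_mod_cast this
      rw [div_mul_eq_mul_div, le_div_iff₀ hv, mul_comm (H.verts.ncard : ℚ)]
      exact_mod_cast Iff.rfl
    simp_rw [e]
    exact h
  refine ⟨?_, fun c h0 h1 => ?_, ?_⟩
  · obtain ⟨B, p, h⟩ := kcycles
    exact ⟨B, p, fun n G k hk => h ⟨n, G⟩ k hk⟩
  · obtain ⟨u, v, hu, huv, rfl⟩ : ∃ u v : ℕ, 0 < u ∧ u < v ∧ c = (u : ℚ) / v := by
      refine ⟨c.num.toNat, c.den, ?_, ?_, ?_⟩
      · have := Rat.num_pos.2 h0
        omega
      · have h2 : 0 < c.num := Rat.num_pos.2 h0
        have h3 : c.num < c.den := Rat.num_lt_denom_iff.2 h1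
        omega
      · have h2 : 0 < c.num := Rat.num_pos.2 h0
        have h3 : ((c.num.toNat : ℕ) : ℤ) = c.num := Int.toNat_of_nonneg h2.le
        have h4 : ((c.num.toNat : ℕ) : ℚ) = (c.num : ℚ) := by exact_mod_cast h3
        rw [h4]
        exact (Rat.num_div_den c).symm
    have e : ((((u : ℚ) / v : ℚ) : ℝ) / 2) = (u : ℝ) / (2 * v) := by
      push_cast
      rw [div_div, mul_comm]
    rw [e]
    exact ⟨entropy_lt_two huv, key u v hu huv.le _ le_rfl⟩
  · have e : (0.898 : ℚ) = ((449 : ℕ) : ℚ) / ((500 : ℕ) : ℚ) := by norm_num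
    rw [e]
    exact key 449 500 (by norm_num) (by norm_num) _ num3

end Pool.Agent.MP_b35d54_lc.HalfSizePolySpace
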