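import Pool.Agent.Lib.MP_b35d54_lc.Euler

/-!
# Closed trails made of two paths, and the dimension bound
-/

namespace Pool.Agent.MP_b35d54_lc

open Finset

section rank
variable {K : Type*} [Field K] [CharZero K] {B : Type*} [CommRing B] [Algebra K B]
  [FiniteDimensional K B] {ι κ : Type*} [Fintype ι] [DecidableEq ι] [Fintype κ]

/-- Dimension bound from a matrix with independent rows. -/
theorem card_le_of_disj (r : ι → B) (c : κ → B) (ψ : ι → (B →ₗ[K] K)) (χ : κ → (B →ₗ[K] K))
    (D : ι → κ → Prop) [∀ a b, Decidable (D a b)]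
    (h : ∀ a b, ψ a (r a * c b) + χ b (r a * c b) = if D a b then (1 / 2 : K) else 0)
    (C : κ → ι → K)
    (hC : ∀ a a', ∑ b, (if D a b then (1 : K) else 0) * C b a' = if a = a' then 1 else 0) :
    Fintype.card ι ≤ 2 * Module.finrank K B := by
  set v : ι → (B →ₗ[K] K) × B := fun a => (ψ a ∘ₗ LinearMap.mulLeft K (r a), r a) with hv
  have hind : LinearIndependent K v := by
    rw [Fintype.linearIndependent_iff]
    intro g hg a'
    have h1 : ∑ a, g a • (ψ a ∘ₗ LinearMap.mulLeft K (r a)) = 0 := by
      have := congrArg Prod.fst hg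
      rw [Prod.fst_sum] at this
      exact this
    have h2 : ∑ a, g a • r a = 0 := by
      have := congrArg Prod.snd hg
      rw [Prod.snd_sum] at this
      exact this
    have h3 : ∀ b, ∑ a, g a * (if D a b then (1 / 2 : K) else 0) = 0 := by
      intro b
      have e1 := congrArg (fun f : B →ₗ[K] K => f (c b)) h1
      have e2 := congrArg (fun x : B => χ b (x * c b)) h2
      simp only [LinearMap.sum_apply, LinearMap.smul_apply, LinearMap.coe_comp,
        Function.comp_apply, LinearMap.mulLeft_apply, LinearMap.zero_apply, smul_eq_mul] at e1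
      simp only [sum_mul, smul_mul_assoc, map_sum, map_smul, zero_mul, map_zero,
        smul_eq_mul] at e2
      have e3 : ∑ a, g a * (if D a b then (1 / 2 : K) else 0) =
          ∑ a, g a * ψ a (r a * c b) + ∑ a, g a * χ b (r a * c b) := by
        rw [← sum_add_distrib]
        refine sum_congr rfl fun a _ => ?_
        rw [← h a b, mul_add]
      rw [e3, e1, e2, add_zero]
    have h4 : ∑ b, C b a' * ∑ a, g a * (if D a b then (1 / 2 : K) else 0) = 0 :=
      sum_eq_zero fun b _ => by rw [h3, mul_zero]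
    have h5 : ∑ b, C b a' * ∑ a, g a * (if D a b then (1 / 2 : K) else 0) =
        (1 / 2) * ∑ a, g a * ∑ b, (if D a b then (1 : K) else 0) * C b a' := by
      simp_rw [mul_sum]
      rw [sum_comm]
      refine sum_congr rfl fun a _ => sum_congr rfl fun b _ => ?_
      split_ifs <;> ring
    rw [h5] at h4
    simp_rw [hC] at h4
    simpa using h4
  have h6 := hind.fintype_card_le_finrank
  rw [Module.finrank_prod, Subspace.dual_finrank_eq] at h6
  omega

end rank

variable {V : Type} [Fintype V] [DecidableEq V]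

/-- The closed sequence made of the path `l` with `p` steps followed by the path `r`. -/
def glue (J p : ℕ) (l r : ℕ → V) (i : Fin (J + 1)) : V :=
  if i.val < p then l i.val else r (i.val - p)

omit [Fintype V] [DecidableEq V] in
theorem glue_step {J p q : ℕ} (hp : 0 < p) (hq : 0 < q) (hJ : J + 1 = p + q) {l r : ℕ → V}
    (h1 : l p = r 0) (h2 : r q = l 0) (i : Fin (J + 1)) :
    (i.val < p → glue J p l r i = l i.val ∧ glue J p l r (i + 1) = l (i.val + 1)) ∧
    (¬ i.val < p → glue J p l r i = r (i.val - p) ∧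
      glue J p l r (i + 1) = r (i.val - p + 1)) := by
  have hi := i.isLt
  constructor
  · intro h
    refine ⟨if_pos h, ?_⟩
    have hv : (i + 1).val = i.val + 1 := Fin.val_add_one_of_lt (by
      rw [Fin.lt_def, Fin.val_last]; omega)
    rw [glue, hv]
    by_cases h3 : i.val + 1 < p
    · rw [if_pos h3]
    · have h4 : i.val + 1 = p := by omega
      rw [if_neg h3, h4, Nat.sub_self, h1]
  · intro h
    refine ⟨if_neg h, ?_⟩
    by_cases h3 : i = Fin.last J
    · subst h3
      rw [Fin.last_add_one, glue, if_pos (by simpa using hp)]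
      have : (Fin.last J).val - p + 1 = q := by
        rw [Fin.val_last] at h ⊢
        omega
      rw [this, h2]
      rfl
    · have h5 : i.val ≠ J := fun h6 => h3 (Fin.ext (by rw [h6, Fin.val_last]))
      have hv : (i + 1).val = i.val + 1 := Fin.val_add_one_of_lt (by
        rw [Fin.lt_def, Fin.val_last]; omega)
      rw [glue, hv, if_neg (by omega)]
      congr 1
      omega

/-- A formula with walks yields a bilinear identity on pairs of paths. -/
theorem halves_key {K : Type*} [Field K] [CharZero K] {B : Type*} [CommRing B] [Algebra K B]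
    (d : V → B) (w : V → V → B) (hw : ∀ x y, w x y = w y x)
    (φ : ℕ → V → V → (B →ₗ[K] K)) (S : Set ℕ) {J p q : ℕ} (hJ : 2 ≤ J)
    (hJV : J + 1 ≤ Fintype.card V) (hS : J + 1 ∈ S)
    (hφ : ∀ G : SimpleGraph V,
      (({H : G.Subgraph | IsCyc H ∧ H.verts.ncard ∈ S}.ncard : ℕ) : K) =
        ∑ j ∈ range (J + 2), ∑ u, ∑ v,
          φ j u v ((wmat (fun x y => d x * w x y) G ^ j) u v))
    (hp : 0 < p) (hq : 0 < q) (hpq : J + 1 = p + q) {l r : ℕ → V}
    (h1 : l p = r 0) (h2 : r q = l 0) (hl : Set.InjOn l (Set.Iic p))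
    (hr : Set.InjOn r (Set.Iic q)) (Q : V → V → Prop) (hQ : ∀ x y, Q x y → Q y x)
    (hQl : ∀ i < p, Q (l i) (l (i + 1))) (hQr : ∀ j < q, ¬ Q (r j) (r (j + 1)))
    [Decidable (∀ i < p, ∀ j < q, l i ≠ r j)] :
    (∑ i ∈ range p, φ (J + 1) (l i) (l i)) ((∏ i ∈ range p, (d (l i) * w (l i) (l (i + 1)))) *
        ∏ j ∈ range q, (d (r j) * w (r j) (r (j + 1)))) +
      (∑ j ∈ range q, φ (J + 1) (r j) (r j)) ((∏ i ∈ range p, (d (l i) * w (l i) (l (i + 1)))) *
        ∏ j ∈ range q, (d (r j) * w (r j) (r (j + 1)))) =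
      if ∀ i < p, ∀ j < q, l i ≠ r j then (1 / 2 : K) else 0 := by
  classical
  set w₀ : Fin (J + 1) → V := glue J p l r with hw₀
  have hstep := glue_step hp hq hpq h1 h2
  -- edges
  have hedl : ∀ i : Fin (J + 1), i.val < p → edf w₀ i = s(l i.val, l (i.val + 1)) := by
    intro i hi
    rw [edf, hw₀, ((hstep i).1 hi).1, ((hstep i).1 hi).2]
  have hedr : ∀ i : Fin (J + 1), ¬ i.val < p →
      edf w₀ i = s(r (i.val - p), r (i.val - p + 1)) := by
    intro i hi
    rw [edf, hw₀, ((hstep i).2 hi).1, ((hstep i).2 hi).2]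
  have hinj : Function.Injective (edf w₀) := by
    have mixed : ∀ i j : Fin (J + 1), i.val < p → ¬ j.val < p → edf w₀ i ≠ edf w₀ j := by
      intro i j hi hj h
      rw [hedl i hi, hedr j hj, Sym2.eq_iff] at h
      have hjlt := j.isLt
      have hn := hQr (j.val - p) (by omega)
      rcases h with ⟨h3, h4⟩ | ⟨h3, h4⟩
      · apply hn
        rw [← h3, ← h4]
        exact hQl i.val hi
      · apply hn
        rw [← h3, ← h4]
        exact hQ _ _ (hQl i.val hi)
    intro i j h
    by_cases hi : i.val < p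
    · by_cases hj : j.val < p
      · rw [hedl i hi, hedl j hj, Sym2.eq_iff] at h
        have a1 : i.val ∈ Set.Iic p := Set.mem_Iic.2 hi.le
        have a2 : j.val ∈ Set.Iic p := Set.mem_Iic.2 hj.le
        have a3 : i.val + 1 ∈ Set.Iic p := Set.mem_Iic.2 hi
        have a4 : j.val + 1 ∈ Set.Iic p := Set.mem_Iic.2 hj
        rcases h with ⟨h3, _⟩ | ⟨h3, h4⟩
        · exact Fin.ext (hl a1 a2 h3)
        · have b1 := hl a1 a4 h3
          have b2 := hl a3 a2 h4
          omega
      · exact absurd h (mixed i j hi hj)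
    · by_cases hj : j.val < p
      · exact absurd h.symm (mixed j i hj hi)
      · rw [hedr i hi, hedr j hj, Sym2.eq_iff] at h
        have hilt := i.isLt
        have hjlt := j.isLt
        have a1 : i.val - p ∈ Set.Iic q := Set.mem_Iic.2 (by omega)
        have a2 : j.val - p ∈ Set.Iic q := Set.mem_Iic.2 (by omega)
        have a3 : i.val - p + 1 ∈ Set.Iic q := Set.mem_Iic.2 (by omega)
        have a4 : j.val - p + 1 ∈ Set.Iic q := Set.mem_Iic.2 (by omega)
        rcases h with ⟨h3, _⟩ | ⟨h3, h4⟩
        · have b1 := hr a1 a2 h3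
          exact Fin.ext (by omega)
        · have b1 := hr a1 a4 h3
          have b2 := hr a3 a2 h4
          omega
  have hne : ∀ i, w₀ i ≠ w₀ (i + 1) := by
    intro i h
    by_cases hi : i.val < p
    · rw [hw₀, ((hstep i).1 hi).1, ((hstep i).1 hi).2] at h
      have := hl (Set.mem_Iic.2 hi.le) (Set.mem_Iic.2 hi) h
      omega
    · rw [hw₀, ((hstep i).2 hi).1, ((hstep i).2 hi).2] at h
      have hilt := i.isLt
      have := hr (Set.mem_Iic.2 (by omega)) (Set.mem_Iic.2 (by omega)) h
      omega
  have key := trail_key d w hw φ S hJ hJV hS hφ w₀ hinj hne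
  have hprod : ∏ i, (d (w₀ i) * w (w₀ i) (w₀ (i + 1))) =
      (∏ i ∈ range p, (d (l i) * w (l i) (l (i + 1)))) *
        ∏ j ∈ range q, (d (r j) * w (r j) (r (j + 1))) := by
    have e1 : ∀ i : Fin (J + 1), d (w₀ i) * w (w₀ i) (w₀ (i + 1)) =
        (fun i : ℕ => if i < p then d (l i) * w (l i) (l (i + 1)) else
          d (r (i - p)) * w (r (i - p)) (r (i - p + 1))) i.val := by
      intro i
      by_cases hi : i.val < p
      · simp only [if_pos hi]
        rw [hw₀, ((hstep i).1 hi).1, ((hstep i).1 hi).2]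
      · simp only [if_neg hi]
        rw [hw₀, ((hstep i).2 hi).1, ((hstep i).2 hi).2]
    rw [prod_congr rfl fun i _ => e1 i, Fin.prod_univ_eq_prod_range (fun i : ℕ => if i < p then
      d (l i) * w (l i) (l (i + 1)) else d (r (i - p)) * w (r (i - p)) (r (i - p + 1))) (J + 1),
      hpq, prod_range_add]
    congr 1
    · refine prod_congr rfl fun i hi => ?_
      rw [if_pos (mem_range.1 hi)]
    · refine prod_congr rfl fun i hi => ?_
      rw [if_neg (by omega), Nat.add_sub_cancel_left]
  have hsum : ∀ x : B, ∑ i, φ (J + 1) (w₀ i) (w₀ i) x =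
      (∑ i ∈ range p, φ (J + 1) (l i) (l i)) x + (∑ j ∈ range q, φ (J + 1) (r j) (r j)) x := by
    intro x
    have e1 : ∀ i : Fin (J + 1), φ (J + 1) (w₀ i) (w₀ i) x =
        (fun i : ℕ => if i < p then φ (J + 1) (l i) (l i) x else
          φ (J + 1) (r (i - p)) (r (i - p)) x) i.val := by
      intro i
      by_cases hi : i.val < p
      · simp only [if_pos hi]
        rw [hw₀, ((hstep i).1 hi).1]
      · simp only [if_neg hi]
        rw [hw₀, ((hstep i).2 hi).1]
    rw [sum_congr rfl fun i _ => e1 i, Fin.sum_univ_eq_sum_range (fun i : ℕ => if i < p then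
      φ (J + 1) (l i) (l i) x else φ (J + 1) (r (i - p)) (r (i - p)) x) (J + 1),
      hpq, sum_range_add, LinearMap.sum_apply, LinearMap.sum_apply]
    congr 1
    · refine sum_congr rfl fun i hi => ?_
      rw [if_pos (mem_range.1 hi)]
    · refine sum_congr rfl fun i hi => ?_
      rw [if_neg (by omega), Nat.add_sub_cancel_left]
  have hinjw : Function.Injective w₀ ↔ ∀ i < p, ∀ j < q, l i ≠ r j := by
    constructor
    · intro h i hi j hj h3
      have e1 := ((hstep ⟨i, by omega⟩).1 hi).1
      have e2 := ((hstep ⟨p + j, by omega⟩).2 (by simp)).1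
      have e3 : w₀ ⟨i, by omega⟩ = w₀ ⟨p + j, by omega⟩ := by
        rw [hw₀, e1, e2]
        simp only [Nat.add_sub_cancel_left]
        exact h3
      have := congrArg Fin.val (h e3)
      simp only at this
      omega
    · intro h i j hij
      have hilt := i.isLt
      have hjlt := j.isLt
      by_cases hi : i.val < p
      · by_cases hj : j.val < p
        · rw [hw₀, ((hstep i).1 hi).1, ((hstep j).1 hj).1] at hij
          exact Fin.ext (hl (Set.mem_Iic.2 hi.le) (Set.mem_Iic.2 hj.le) hij)
        · rw [hw₀, ((hstep i).1 hi).1, ((hstep j).2 hj).1] at hij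
          exact absurd hij (h _ hi _ (by omega))
      · by_cases hj : j.val < p
        · rw [hw₀, ((hstep i).2 hi).1, ((hstep j).1 hj).1] at hij
          exact absurd hij.symm (h _ hj _ (by omega))
        · rw [hw₀, ((hstep i).2 hi).1, ((hstep j).2 hj).1] at hij
          have := hr (Set.mem_Iic.2 (by omega)) (Set.mem_Iic.2 (by omega)) hij
          exact Fin.ext (by omega)
  rw [hprod, hsum] at key
  rw [key]
  by_cases h3 : Function.Injective w₀
  · rw [if_pos h3, if_pos (hinjw.1 h3)]
  · rw [if_neg h3, if_neg fun h4 => h3 (hinjw.2 h4)]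

end Pool.Agent.MP_b35d54_lc
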