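import Pool.Agent.Lib.MP_b35d54_lc.Formula

/-!
# All cycles and Hamiltonian cycles

Truncated inclusion-exclusion between the number of all cycles and the number of Hamiltonian
cycles of the induced subgraphs.
-/

namespace Pool.Agent.MP_b35d54_lc

open Finset

variable {V : Type} [Fintype V] [DecidableEq V]

/-- The number of all cycles. -/
noncomputable def call {V : Type} (G : SimpleGraph V) : ℕ := {H : G.Subgraph | IsCyc H}.ncard

/-- The number of cycles with `k` vertices. -/
noncomputable def ckn {V : Type} (G : SimpleGraph V) (k : ℕ) : ℕ :=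
  {H : G.Subgraph | IsCyc H ∧ H.verts.ncard = k}.ncard

omit [DecidableEq V] in
theorem hc_eq_zero {G : SimpleGraph V} {A : Set V} (h : A.ncard < 3) : hc G A = 0 := by
  rw [hc, Set.ncard_eq_zero (Set.toFinite _)]
  ext H
  simp only [Set.mem_ofPred_eq, Set.mem_empty_iff_false, iff_false, not_and]
  rintro hH rfl
  obtain ⟨v, hv⟩ := hH.1.nonempty
  have h2 := hH.2 v hv
  have h3 : H.neighborSet v ⊆ H.verts \ {v} := by
    intro u hu
    refine ⟨H.edge_vert (H.symm.symm _ _ hu), ?_⟩
    rw [Set.mem_singleton_iff]
    rintro rfl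
    exact (H.adj_sub hu).ne rfl
  have h4 := Set.ncard_le_ncard h3 (Set.toFinite _)
  rw [h2, Set.ncard_sdiff_singleton_of_mem hv] at h4
  omega

omit [DecidableEq V] in
theorem ck_eq_zero {G : SimpleGraph V} {k : ℕ} (h : k < 3) : ck G k = 0 := by
  rw [ck]
  refine sum_eq_zero fun A hA => hc_eq_zero ?_
  rw [mem_powersetCard] at hA
  rw [Set.ncard_coe_finset, hA.2]
  exact h

omit [DecidableEq V] in
theorem ncard_eq_sum {G : SimpleGraph V} (P : G.Subgraph → Prop) :
    {H : G.Subgraph | P H}.ncard =
      ∑ A : Finset V, {H : G.Subgraph | P H ∧ H.verts = (A : Set V)}.ncard := by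
  classical
  have e : {H : G.Subgraph | P H} = ⋃ A : Finset V, {H | P H ∧ H.verts = (A : Set V)} := by
    ext H
    simp only [Set.mem_ofPred_eq, Set.mem_iUnion]
    constructor
    · intro h
      exact ⟨H.verts.toFinset, h, by simp⟩
    · rintro ⟨_, h, _⟩
      exact h
  rw [e, Set.ncard_iUnion_of_finite (fun _ => Set.toFinite _), finsum_eq_sum_of_fintype]
  intro A A' hne
  rw [Function.onFun, Set.disjoint_left]
  rintro H ⟨_, h1⟩ ⟨_, h2⟩
  exact hne (coe_injective (h1.symm.trans h2))

omit [DecidableEq V] in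
theorem call_eq_sum (G : SimpleGraph V) : call G = ∑ A : Finset V, hc G (A : Set V) :=
  ncard_eq_sum _

omit [DecidableEq V] in
theorem ckn_eq (G : SimpleGraph V) (k : ℕ) : ckn G k = ck G k := by
  rw [ckn, ncard_eq_sum, ck, ← sum_subset (subset_univ (powersetCard k (univ : Finset V)))]
  · refine sum_congr rfl fun A hA => ?_
    rw [mem_powersetCard] at hA
    rw [hc]
    congr 1
    ext H
    simp only [Set.mem_ofPred_eq]
    constructor
    · rintro ⟨⟨h1, _⟩, h2⟩
      exact ⟨h1, h2⟩
    · rintro ⟨h1, h2⟩
      exact ⟨⟨h1, by rw [h2, Set.ncard_coe_finset, hA.2]⟩, h2⟩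
  · intro A _ hA
    rw [Set.ncard_eq_zero (Set.toFinite _)]
    ext H
    simp only [Set.mem_ofPred_eq, Set.mem_empty_iff_false, iff_false]
    rintro ⟨⟨_, h1⟩, h2⟩
    apply hA
    rw [mem_powersetCard]
    rw [h2, Set.ncard_coe_finset] at h1
    exact ⟨subset_univ _, h1⟩

/-! ### Induced subgraphs -/

omit [DecidableEq V] in
/-- Transport of cycles along an injection. -/
theorem hc_comap {W : Type} [Finite W] (e : W ↪ V) (G : SimpleGraph V) (A : Set W) :
    hc (G.comap e) A = hc G (e '' A) := by
  classical
  have := Fintype.ofFinite W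
  have hcard : (e '' A).ncard = A.ncard := Set.ncard_image_of_injective _ e.injective
  obtain ⟨k, hk0⟩ : ∃ k, A.ncard = k := ⟨_, rfl⟩
  by_cases h3 : A.ncard < 3
  · rw [hc_eq_zero h3, hc_eq_zero (by rw [hcard]; exact h3)]
  · have hk : 3 ≤ k := by omega
    have h1 := card_closed (G := G.comap e) hk A hk0
    have h2 := card_closed (G := G) hk (e '' A) (hcard.trans hk0)
    have h4 : {w : ZMod k → V | Function.Injective w ∧ (∀ i, G.Adj (w i) (w (i + 1))) ∧
        Set.range w = e '' A} = (fun w : ZMod k → W => (fun i => e (w i))) ''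
        {w | Function.Injective w ∧ (∀ i, (G.comap e).Adj (w i) (w (i + 1))) ∧
          Set.range w = A} := by
      ext w
      constructor
      · rintro ⟨w1, w2, w3⟩
        have hw : ∀ i, ∃ a ∈ A, e a = w i := fun i => by
          have : w i ∈ e '' A := by rw [← w3]; exact ⟨i, rfl⟩
          exact this
        choose u hu hu' using hw
        refine ⟨u, ⟨?_, ?_, ?_⟩, funext hu'⟩
        · intro i j hij
          apply w1
          rw [← hu', ← hu', hij]
        · intro i
          rw [SimpleGraph.comap_adj, hu', hu']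
          exact w2 i
        · ext a
          constructor
          · rintro ⟨i, rfl⟩
            exact hu i
          · intro ha
            have : e a ∈ Set.range w := by rw [w3]; exact ⟨a, ha, rfl⟩
            obtain ⟨i, hi⟩ := this
            refine ⟨i, e.injective ?_⟩
            rw [hu', hi]
      · rintro ⟨u, ⟨u1, u2, u3⟩, rfl⟩
        refine ⟨fun i j hij => u1 (e.injective hij), fun i => u2 i, ?_⟩
        rw [← u3, ← Set.range_comp]
        rfl
    rw [h4, Set.ncard_image_of_injective _ (fun w w' h => funext fun i =>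
      e.injective (congrFun h i)), h1] at h2
    exact Nat.eq_of_mul_eq_mul_left (by omega) h2

/-! ### The two identities -/

omit [DecidableEq V] in
theorem sum_by_card (f : Finset V → ℤ) (g : ℕ → ℤ) (N : ℕ) :
    ∑ B : Finset V, (if #B < N then g #B * f B else 0) =
      ∑ k ∈ range N, g k * ∑ B ∈ powersetCard k (univ : Finset V), f B := by
  have h : ∀ k ∈ range N, g k * ∑ B ∈ powersetCard k (univ : Finset V), f B =
      ∑ B : Finset V, if #B = k then g #B * f B else 0 := by
    intro k _
    rw [← sum_filter, mul_sum]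
    have : powersetCard k (univ : Finset V) = ({B : Finset V | #B = k} : Finset _) := by
      ext B; simp
    rw [this]
    refine sum_congr rfl fun B hB => ?_
    rw [mem_filter] at hB
    rw [hB.2]
  rw [sum_congr rfl h, sum_comm]
  refine sum_congr rfl fun B _ => ?_
  rw [sum_ite_eq]
  simp [mem_range]

/-- Hamiltonian cycles from all cycles of the large induced subgraphs. -/
theorem ham_eq (G : SimpleGraph V) (m : ℕ) :
    (hc G Set.univ : ℤ) =
      ∑ S : Finset V, (if #S ≤ m then (-1) ^ #S * ∑ B ∈ (Sᶜ).powerset, (hc G (B : Set V) : ℤ)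
        else 0) -
      (-1) ^ m * ∑ k ∈ range (Fintype.card V - m),
        ((Fintype.card V - k - 1).choose m : ℤ) * (ck G k : ℤ) := by
  set n := Fintype.card V with hn
  have h1 : ∑ S : Finset V, (if #S ≤ m then (-1) ^ #S * ∑ B ∈ (Sᶜ).powerset,
      (hc G (B : Set V) : ℤ) else 0) = ∑ B : Finset V, (hc G (B : Set V) : ℤ) *
        ∑ S : Finset V, (if B ⊆ Sᶜ then (if #S ≤ m then (-1 : ℤ) ^ #S else 0) else 0) := by
    simp_rw [mul_sum]
    rw [sum_comm]
    refine sum_congr rfl fun S _ => ?_
    by_cases hS : #S ≤ m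
    · simp only [hS, if_true]
      have : (Sᶜ).powerset = ({B : Finset V | B ⊆ Sᶜ} : Finset _) := by
        ext B; simp
      rw [this, sum_filter]
      refine sum_congr rfl fun B _ => ?_
      split_ifs <;> ring
    · simp only [hS, if_false]
      symm
      refine sum_eq_zero fun B _ => ?_
      split_ifs <;> simp
  have h2 : ∀ B : Finset V,
      ∑ S : Finset V, (if B ⊆ Sᶜ then (if #S ≤ m then (-1 : ℤ) ^ #S else 0) else 0) =
        if #B = n then 1 else (-1) ^ m * ((n - #B - 1).choose m : ℤ) := by
    intro B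
    rw [sum_disjoint B (fun i => if i ≤ m then (-1 : ℤ) ^ i else 0), ← hn]
    have hB : #B ≤ n := card_le_univ B
    have h3 : ∑ t ∈ range (n - #B + 1), ((n - #B).choose t : ℤ) *
        (if t ≤ m then (-1 : ℤ) ^ t else 0) =
        ∑ t ∈ range (m + 1), (-1 : ℤ) ^ t * ((n - #B).choose t : ℤ) := by
      rw [← sum_subset (s₁ := range (min (n - #B) m + 1)) (s₂ := range (n - #B + 1)),
        ← sum_subset (s₁ := range (min (n - #B) m + 1)) (s₂ := range (m + 1))]
      · refine sum_congr rfl fun t ht => ?_
        rw [mem_range] at ht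
        rw [if_pos (by omega)]
        ring
      · exact range_subset_range.2 (by omega)
      · intro t ht ht'
        rw [mem_range] at ht ht'
        rw [Nat.choose_eq_zero_of_lt (by omega)]
        simp
      · exact range_subset_range.2 (by omega)
      · intro t ht ht'
        rw [mem_range] at ht ht'
        rw [if_neg (by omega)]
        simp
    rw [h3]
    by_cases hBn : #B = n
    · rw [if_pos hBn, hBn, Nat.sub_self, sum_range_succ']
      simp
    · rw [if_neg hBn]
      obtain ⟨t, ht⟩ : ∃ t, n - #B = t + 1 := ⟨n - #B - 1, by omega⟩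
      rw [ht, Int.alternating_sum_range_choose_eq_choose, Nat.add_sub_cancel]
  rw [h1]
  simp_rw [h2]
  have h4 : ∀ B : Finset V, (hc G (B : Set V) : ℤ) *
      (if #B = n then 1 else (-1) ^ m * ((n - #B - 1).choose m : ℤ)) =
      (if B = univ then (hc G (B : Set V) : ℤ) else 0) +
        (-1) ^ m * (if #B < n - m then ((n - #B - 1).choose m : ℤ) * (hc G (B : Set V) : ℤ)
          else 0) := by
    intro B
    have hB : #B ≤ n := card_le_univ B
    by_cases hBn : #B = n
    · have hBu : B = univ := (card_eq_iff_eq_univ B).1 hBn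
      rw [if_pos hBn, if_pos hBu, if_neg (by omega)]
      ring
    · have hBu : B ≠ univ := fun h => hBn ((card_eq_iff_eq_univ B).2 h)
      rw [if_neg hBn, if_neg hBu]
      by_cases hBm : #B < n - m
      · rw [if_pos hBm]
        ring
      · rw [if_neg hBm, Nat.choose_eq_zero_of_lt (by omega)]
        ring
  simp_rw [h4]
  have h6 := sum_by_card (V := V) (fun B => (hc G (B : Set V) : ℤ))
    (fun k => ((n - k - 1).choose m : ℤ)) (n - m)
  rw [sum_add_distrib, ← mul_sum, h6, sum_ite_eq', if_pos (mem_univ _), coe_univ]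
  have h5 : ∀ k, ∑ B ∈ powersetCard k (univ : Finset V), (hc G (B : Set V) : ℤ) = ck G k := by
    intro k
    rw [ck]
    push_cast
    rfl
  simp_rw [h5]
  ring

/-- All cycles from the Hamiltonian cycles of the large induced subgraphs. -/
theorem call_eq (G : SimpleGraph V) (m : ℕ) :
    call G = ∑ S : Finset V, (if #S ≤ m then hc G ((Sᶜ : Finset V) : Set V) else 0) +
      ∑ k ∈ range (Fintype.card V - m), ck G k := by
  set n := Fintype.card V with hn
  rw [call_eq_sum]
  have h1 : ∑ S : Finset V, (if #S ≤ m then hc G ((Sᶜ : Finset V) : Set V) else 0) =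
      ∑ B : Finset V, (if n - m ≤ #B then hc G (B : Set V) else 0) := by
    refine sum_nbij' (fun S => Sᶜ) (fun S => Sᶜ) (fun _ _ => mem_univ _) (fun _ _ => mem_univ _)
      (fun S _ => compl_compl S) (fun S _ => compl_compl S) fun S _ => ?_
    have hS : #S ≤ n := card_le_univ S
    rw [card_compl, ← hn]
    congr 1
    apply propext
    omega
  have h2 := sum_by_card (V := V) (fun B => (hc G (B : Set V) : ℤ)) (fun _ => 1) (n - m)
  simp only [one_mul] at h2
  have h3 : ∑ B : Finset V, (if #B < n - m then hc G (B : Set V) else 0) =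
      ∑ k ∈ range (n - m), ck G k := by
    unfold ck
    exact_mod_cast h2
  rw [h1, ← h3, ← sum_add_distrib]
  refine sum_congr rfl fun B _ => ?_
  by_cases hB : n - m ≤ #B
  · rw [if_pos hB, if_neg (by omega), Nat.add_zero]
  · rw [if_neg hB, if_pos (by omega), Nat.zero_add]

end Pool.Agent.MP_b35d54_lc
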