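import Pool.Agent.Lib.MP_b35d54_lc.Identity

/-!
# Alternating sums over the subgraphs of a graph, for walks and for cycles
-/

namespace Pool.Agent.MP_b35d54_lc

open Finset

section ind
variable {α : Type*} [DecidableEq α] {R : Type*} [CommRing R]

theorem mob_ind (E K₀ : Finset α) :
    ∑ T ∈ K₀.powerset, (-1 : R) ^ #T * (if E ⊆ K₀ \ T then 1 else 0) =
      if E = K₀ then 1 else 0 := by
  by_cases h : E ⊆ K₀
  · have h1 : ∑ T ∈ K₀.powerset, (-1 : R) ^ #T * (if E ⊆ K₀ \ T then 1 else 0) =
        ∑ T ∈ (K₀ \ E).powerset, (-1 : R) ^ #T := by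
      simp_rw [mul_ite, mul_one, mul_zero]
      rw [← sum_filter]
      refine sum_congr ?_ fun _ _ => rfl
      ext T
      simp only [mem_filter, mem_powerset]
      constructor
      · rintro ⟨h2, h3⟩ x hx
        rw [mem_sdiff]
        refine ⟨h2 hx, fun hE => ?_⟩
        exact (mem_sdiff.1 (h3 hE)).2 hx
      · intro h2
        refine ⟨fun x hx => (mem_sdiff.1 (h2 hx)).1, fun x hx => ?_⟩
        rw [mem_sdiff]
        exact ⟨h hx, fun hT => (mem_sdiff.1 (h2 hT)).2 hx⟩
    have h2 : (∑ T ∈ (K₀ \ E).powerset, (-1 : R) ^ #T) = if K₀ \ E = ∅ then 1 else 0 := by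
      have h3 := sum_powerset_neg_one_pow_card (x := K₀ \ E)
      have h4 := congrArg (fun z : ℤ => (z : R)) h3
      push_cast at h4
      exact h4
    rw [h1, h2]
    congr 1
    rw [sdiff_eq_empty_iff_subset]
    exact propext ⟨fun h3 => Subset.antisymm h h3, fun h3 => by rw [h3]⟩
  · rw [if_neg fun h3 : E = K₀ => h (by rw [h3])]
    refine sum_eq_zero fun T _ => ?_
    rw [if_neg fun h3 => h (h3.trans sdiff_subset), mul_zero]

end ind

variable {V : Type} [Fintype V] [DecidableEq V]

/-! ### Powers of matrices -/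

section paths
variable {R : Type*} [CommSemiring R]

theorem sum_paths' (A : Matrix V V R) : ∀ (K : ℕ) (g : V → V → R),
    ∑ w : Fin (K + 1) → V, (∏ i : Fin K, A (w i.castSucc) (w i.succ)) *
      g (w 0) (w (Fin.last K)) = ∑ u, ∑ v, (A ^ K) u v * g u v := by
  intro K
  induction K with
  | zero =>
    intro g
    simp only [univ_eq_empty, prod_empty, one_mul, pow_zero]
    rw [← (Equiv.funUnique (Fin 1) V).symm.sum_comp]
    refine sum_congr rfl fun u _ => ?_
    rw [sum_eq_single u]
    · simp [Matrix.one_apply_eq]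
    · intro v _ hv
      rw [Matrix.one_apply_ne hv.symm, zero_mul]
    · intro h; exact absurd (mem_univ _) h
  | succ K ih =>
    intro g
    rw [← (Fin.consEquiv fun _ : Fin (K + 2) => V).sum_comp, Fintype.sum_prod_type]
    have h1 : ∀ x : V, ∀ w : Fin (K + 1) → V,
        (∏ i : Fin (K + 1), A ((Fin.consEquiv fun _ : Fin (K + 2) => V) (x, w) i.castSucc)
          ((Fin.consEquiv fun _ : Fin (K + 2) => V) (x, w) i.succ)) *
        g ((Fin.consEquiv fun _ : Fin (K + 2) => V) (x, w) 0)
          ((Fin.consEquiv fun _ : Fin (K + 2) => V) (x, w) (Fin.last (K + 1))) =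
        (∏ i : Fin K, A (w i.castSucc) (w i.succ)) * (A x (w 0) * g x (w (Fin.last K))) := by
      intro x w
      rw [Fin.prod_univ_succ]
      have e1 : (Fin.consEquiv fun _ : Fin (K + 2) => V) (x, w) =
          (Fin.cons x w : Fin (K + 2) → V) := rfl
      rw [e1]
      simp only [Fin.castSucc_zero, Fin.cons_zero, Fin.cons_succ]
      have e2 : ∀ i : Fin K, (Fin.cons x w : Fin (K + 2) → V) (i.succ.castSucc) =
          w i.castSucc := by
        intro i
        rw [← Fin.succ_castSucc, Fin.cons_succ]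
      have e3 : (Fin.cons x w : Fin (K + 2) → V) (Fin.last (K + 1)) = w (Fin.last K) := by
        rw [← Fin.succ_last, Fin.cons_succ]
      simp only [e2, e3]
      ring
    simp_rw [h1]
    rw [sum_comm]
    simp_rw [← mul_sum]
    rw [ih fun a b => ∑ x, A x a * g x b]
    rw [sum_comm]
    have h2 : ∀ x v, (A ^ (K + 1)) x v = ∑ a, A x a * (A ^ K) a v := by
      intro x v
      rw [pow_succ', Matrix.mul_apply]
    simp_rw [h2, sum_mul, mul_sum]
    rw [sum_comm]
    rw [sum_comm]
    conv_rhs => rw [sum_comm]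
    refine sum_congr rfl fun v _ => ?_
    conv_rhs => rw [sum_comm]
    refine sum_congr rfl fun a _ => ?_
    refine sum_congr rfl fun x _ => ?_
    ring

/-- The vertex after position `i` of the walk `p 0, …, p J, v`. -/
def nx {J : ℕ} (p : Fin (J + 1) → V) (v : V) : Fin (J + 1) → V :=
  Fin.snoc (α := fun _ => V) (fun i : Fin J => p i.succ) v

omit [Fintype V] [DecidableEq V] in
theorem nx_castSucc {J : ℕ} (p : Fin (J + 1) → V) (v : V) (i : Fin J) :
    nx p v i.castSucc = p i.succ := by
  rw [nx, Fin.snoc_castSucc]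

omit [Fintype V] [DecidableEq V] in
theorem nx_last {J : ℕ} (p : Fin (J + 1) → V) (v : V) : nx p v (Fin.last J) = v := by
  rw [nx, Fin.snoc_last]

omit [Fintype V] [DecidableEq V] in
theorem nx_zero {J : ℕ} (p : Fin (J + 1) → V) (i : Fin (J + 1)) : nx p (p 0) i = p (i + 1) := by
  induction i using Fin.lastCases with
  | last => rw [nx_last, Fin.last_add_one]
  | cast i => rw [nx_castSucc, Fin.coeSucc_eq_succ]

theorem pow_entry (A : Matrix V V R) (J : ℕ) (u v : V) :
    (A ^ (J + 1)) u v =
      ∑ p : Fin (J + 1) → V, if p 0 = u then ∏ i, A (p i) (nx p v i) else 0 := by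
  have h := sum_paths' A J fun a b => if a = u then A b v else 0
  have h1 : ∑ a, ∑ b, (A ^ J) a b * (if a = u then A b v else 0) = (A ^ (J + 1)) u v := by
    rw [pow_succ, Matrix.mul_apply, sum_eq_single u]
    · refine sum_congr rfl fun b _ => ?_
      rw [if_pos rfl]
    · intro a _ ha
      refine sum_eq_zero fun b _ => ?_
      rw [if_neg ha, mul_zero]
    · intro h; exact absurd (mem_univ _) h
  rw [← h1, ← h]
  refine sum_congr rfl fun p _ => ?_
  rw [Fin.prod_univ_castSucc, nx_last]
  simp_rw [nx_castSucc]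
  split_ifs with h2
  · rfl
  · rw [mul_zero]

end paths

/-! ### Walks in the subgraphs -/

/-- The edges of the walk `p 0, …, p J, v`. -/
def ed {J : ℕ} (p : Fin (J + 1) → V) (v : V) (i : Fin (J + 1)) : Sym2 V := s(p i, nx p v i)

open Classical in
/-- The weighted adjacency matrix. -/
noncomputable def wmat {R : Type*} [CommSemiring R] (m : V → V → R) (G : SimpleGraph V) :
    Matrix V V R := fun u v => if G.Adj u v then m u v else 0

theorem mob_pow {R : Type*} [CommRing R] (m : V → V → R) {K₀ : Finset (Sym2 V)}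
    (hd : ∀ e ∈ K₀, ¬ e.IsDiag) (J : ℕ) (u v : V) :
    ∑ T ∈ K₀.powerset, (-1 : R) ^ #T *
      (wmat m (SimpleGraph.fromEdgeSet ((K₀ \ T : Finset (Sym2 V)) : Set (Sym2 V))) ^ (J + 1))
        u v =
      ∑ p : Fin (J + 1) → V, if p 0 = u ∧ univ.image (ed p v) = K₀ then
        ∏ i, m (p i) (nx p v i) else 0 := by
  classical
  simp_rw [pow_entry, mul_sum]
  rw [sum_comm]
  refine sum_congr rfl fun p _ => ?_
  by_cases hp : p 0 = u
  · have h1 : ∀ T : Finset (Sym2 V), ∏ i, wmat m (SimpleGraph.fromEdgeSet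
        ((K₀ \ T : Finset (Sym2 V)) : Set (Sym2 V))) (p i) (nx p v i) =
        (if univ.image (ed p v) ⊆ K₀ \ T then 1 else 0) * ∏ i, m (p i) (nx p v i) := by
      intro T
      split_ifs with h2
      · rw [one_mul]
        refine prod_congr rfl fun i _ => ?_
        rw [wmat, if_pos]
        rw [SimpleGraph.fromEdgeSet_adj]
        have h3 : s(p i, nx p v i) ∈ K₀ \ T := h2 (mem_image_of_mem (ed p v) (mem_univ i))
        refine ⟨mem_coe.2 h3, fun h4 => ?_⟩
        exact hd _ (mem_sdiff.1 h3).1 (Sym2.mk_isDiag_iff.2 h4)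
      · rw [zero_mul]
        rw [image_subset_iff] at h2
        push Not at h2
        obtain ⟨i, _, hi⟩ := h2
        apply prod_eq_zero (mem_univ i)
        rw [wmat, if_neg]
        rw [SimpleGraph.fromEdgeSet_adj]
        rintro ⟨h3, _⟩
        exact hi (mem_coe.1 h3)
    simp_rw [hp, if_true, true_and, h1, ← mul_assoc]
    rw [← sum_mul, mob_ind]
    split_ifs
    · rw [one_mul]
    · rw [zero_mul]
  · simp only [hp, if_false, mul_zero, sum_const_zero, false_and]

/-! ### Cycles in the subgraphs -/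

/-- The edges of a closed sequence. -/
def edc {k : ℕ} (w : ZMod k → V) (i : ZMod k) : Sym2 V := s(w i, w (i + 1))

omit [Fintype V] [DecidableEq V] in
theorem edc_injective {k : ℕ} (hk : 3 ≤ k) {w : ZMod k → V} (hw : Function.Injective w) :
    Function.Injective (edc w) := by
  intro i j h
  rw [edc, edc, Sym2.eq_iff] at h
  rcases h with ⟨h1, _⟩ | ⟨h1, h2⟩
  · exact hw h1
  · have h3 := hw h1
    have h4 := hw h2
    exfalso
    apply two_ne_zero_zmod hk
    have h5 : j + 1 + 1 = j := by rw [← h3]; exact h4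
    calc (2 : ZMod k) = j + 1 + 1 - j := by ring
      _ = 0 := by rw [h5, sub_self]

omit [Fintype V] [DecidableEq V] in
theorem ck_of_injClosed {K : Type*} [Field K] [CharZero K] [Fintype V] [DecidableEq V]
    (G : SimpleGraph V) {k : ℕ} [NeZero k] (hk : 3 ≤ k) [DecidableRel G.Adj] :
    (ck G k : K) = (2 * (k : K))⁻¹ * ∑ w : ZMod k → V, (if (∀ i, G.Adj (w i) (w (i + 1))) then
      (if #(univ.image w) = k then (1 : K) else 0) else 0) := by
  have h := congrArg (fun z : ℤ => (z : K)) (card_injClosed G hk)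
  push_cast at h
  have hk0 : (2 * (k : K)) ≠ 0 := by
    have : (k : K) ≠ 0 := by exact_mod_cast (by omega : k ≠ 0)
    exact mul_ne_zero two_ne_zero this
  rw [eq_inv_mul_iff_mul_eq₀ hk0, ← h]

theorem mob_ck {K : Type*} [Field K] [CharZero K] {K₀ : Finset (Sym2 V)}
    (hd : ∀ e ∈ K₀, ¬ e.IsDiag) {k : ℕ} [NeZero k] (hk : 3 ≤ k) :
    ∑ T ∈ K₀.powerset, (-1 : K) ^ #T *
      (ck (SimpleGraph.fromEdgeSet ((K₀ \ T : Finset (Sym2 V)) : Set (Sym2 V))) k : K) =
      (2 * (k : K))⁻¹ * ∑ w : ZMod k → V,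
        if Function.Injective w ∧ univ.image (edc w) = K₀ then 1 else 0 := by
  classical
  have h0 : ∀ T : Finset (Sym2 V),
      (ck (SimpleGraph.fromEdgeSet ((K₀ \ T : Finset (Sym2 V)) : Set (Sym2 V))) k : K) =
      (2 * (k : K))⁻¹ * ∑ w : ZMod k → V, (if Function.Injective w then 1 else 0) *
        (if univ.image (edc w) ⊆ K₀ \ T then 1 else 0) := by
    intro T
    rw [ck_of_injClosed (K := K) _ hk]
    congr 1
    refine sum_congr rfl fun w _ => ?_
    have h1 : (∀ i, (SimpleGraph.fromEdgeSet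
        ((K₀ \ T : Finset (Sym2 V)) : Set (Sym2 V))).Adj (w i) (w (i + 1))) ↔
        univ.image (edc w) ⊆ K₀ \ T := by
      rw [image_subset_iff]
      constructor
      · intro h i _
        have := h i
        rw [SimpleGraph.fromEdgeSet_adj] at this
        exact mem_coe.1 this.1
      · intro h i
        rw [SimpleGraph.fromEdgeSet_adj]
        have h3 := h i (mem_univ i)
        refine ⟨mem_coe.2 h3, fun h4 => ?_⟩
        exact hd _ (mem_sdiff.1 h3).1 (Sym2.mk_isDiag_iff.2 h4)
    have h2 : #(univ.image w) = k ↔ Function.Injective w := by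
      constructor
      · intro h
        have : #(univ.image w) = #(univ : Finset (ZMod k)) := by
          rw [h, card_univ, ZMod.card]
        have h2 := card_image_iff.1 this
        intro a b hab
        exact h2 (mem_coe.2 (mem_univ a)) (mem_coe.2 (mem_univ b)) hab
      · intro h
        rw [card_image_of_injective _ h, card_univ, ZMod.card]
    rw [ite_mul, one_mul, zero_mul]
    by_cases h3 : Function.Injective w
    · rw [if_pos h3]
      by_cases h4 : univ.image (edc w) ⊆ K₀ \ T
      · rw [if_pos h4, if_pos (h1.2 h4), if_pos (h2.2 h3)]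
      · rw [if_neg h4, if_neg fun h => h4 (h1.1 h)]
    · rw [if_neg h3]
      split_ifs with h4 h5
      · exact absurd (h2.1 h5) h3
      · rfl
      · rfl
  simp_rw [h0]
  have h5 : ∀ T : Finset (Sym2 V), (-1 : K) ^ #T * ((2 * (k : K))⁻¹ *
      ∑ w : ZMod k → V, (if Function.Injective w then 1 else 0) *
        (if univ.image (edc w) ⊆ K₀ \ T then 1 else 0)) =
      (2 * (k : K))⁻¹ * ∑ w : ZMod k → V, (if Function.Injective w then 1 else 0) *
        ((-1 : K) ^ #T * (if univ.image (edc w) ⊆ K₀ \ T then 1 else 0)) := by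
    intro T
    rw [mul_left_comm, mul_sum]
    congr 1
    refine sum_congr rfl fun w _ => ?_
    ring
  simp_rw [h5]
  rw [← mul_sum, sum_comm]
  congr 1
  refine sum_congr rfl fun w _ => ?_
  rw [← mul_sum, mob_ind]
  by_cases h3 : Function.Injective w
  · simp only [h3, if_true, one_mul, true_and]
  · simp only [h3, if_false, zero_mul, false_and]

end Pool.Agent.MP_b35d54_lc
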