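import Pool.Agent.Lib.MP_b35d54_lc.Halves
import Pool.Agent.Lib.MP_b35d54_lc.Disj

/-!
# The two families of paths
-/

namespace Pool.Agent.MP_b35d54_lc

open Finset

/-- The element number `t` of a set. -/
def en {m : ℕ} (A : Finset (Fin m)) (t : ℕ) : ℕ :=
  if ht : t < #A then (A.orderEmbOfFin rfl ⟨t, ht⟩).val else 0

section en
variable {m : ℕ} {A : Finset (Fin m)}

theorem en_eq {t : ℕ} (ht : t < #A) : ∃ x ∈ A, x.val = en A t :=
  ⟨A.orderEmbOfFin rfl ⟨t, ht⟩, A.orderEmbOfFin_mem rfl _, by rw [en, dif_pos ht]⟩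

theorem en_lt {t : ℕ} (ht : t < #A) : en A t < m := by
  obtain ⟨x, _, h⟩ := en_eq ht
  rw [← h]
  exact x.isLt

theorem en_inj {t t' : ℕ} (ht : t < #A) (ht' : t' < #A) (h : en A t = en A t') : t = t' := by
  rw [en, en, dif_pos ht, dif_pos ht'] at h
  have := (A.orderEmbOfFin rfl).injective (Fin.ext h)
  simpa using this

theorem en_surj {x : Fin m} (hx : x ∈ A) : ∃ t < #A, en A t = x.val := by
  have h : x ∈ Set.range (A.orderEmbOfFin rfl) := by
    rw [range_orderEmbOfFin]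
    exact hx
  obtain ⟨t, ht⟩ := h
  refine ⟨t.val, t.isLt, ?_⟩
  rw [en, dif_pos t.isLt]
  exact congrArg Fin.val ht

theorem disjoint_iff_en {A' : Finset (Fin m)} :
    Disjoint A A' ↔ ∀ t < #A, ∀ t' < #A', en A t ≠ en A' t' := by
  constructor
  · intro h t ht t' ht' h1
    obtain ⟨x, hx, h2⟩ := en_eq ht
    obtain ⟨y, hy, h3⟩ := en_eq ht'
    have : x = y := Fin.ext (by rw [h2, h3, h1])
    subst this
    exact disjoint_left.1 h hx hy
  · intro h
    rw [disjoint_left]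
    intro x hx hx'
    obtain ⟨t, ht, h1⟩ := en_surj hx
    obtain ⟨t', ht', h2⟩ := en_surj hx'
    exact h t ht t' ht' (h1.trans h2.symm)

end en

/-- The first path: it alternates between the two blocks. -/
def pl {m : ℕ} (A₀ A₁ : Finset (Fin m)) (i : ℕ) : ℕ :=
  if i = 0 then 2 * m
  else if i ≤ 2 * #A₀ then
    (if (i - 1) % 2 = 0 then en A₀ ((i - 1) / 2) else m + en A₁ ((i - 1) / 2))
  else 2 * m + 1

/-- The second path: first the first block, then the second block, then `e` extra vertices. -/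
def pr {m : ℕ} (e : ℕ) (A₀ A₁ : Finset (Fin m)) (j : ℕ) : ℕ :=
  if j = 0 then 2 * m + 1
  else if j ≤ #A₀ then en A₀ (j - 1)
  else if j = #A₀ + 1 then 2 * m + 2
  else if j ≤ 2 * #A₀ + 1 then m + en A₁ (j - #A₀ - 2)
  else if j < 2 * #A₀ + 2 + e then 2 * m + 3 + (j - 2 * #A₀ - 2)
  else 2 * m

/-- The class of a vertex. -/
def cl (m x : ℕ) : ℕ :=
  if x < m then 0 else if x < 2 * m then 1 else if x = 2 * m then 2
  else if x = 2 * m + 1 then 3 else 4

/-- The pairs of classes joined by the first family. -/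
def qq (a b : ℕ) : Prop :=
  (a = 0 ∧ b = 1) ∨ (a = 1 ∧ b = 0) ∨ (a = 0 ∧ b = 2) ∨ (a = 2 ∧ b = 0) ∨
    (a = 1 ∧ b = 3) ∨ (a = 3 ∧ b = 1) ∨ (a = 2 ∧ b = 3) ∨ (a = 3 ∧ b = 2)

theorem qq_symm {a b : ℕ} (h : qq a b) : qq b a := by
  unfold qq at *
  omega

section paths
variable {m : ℕ} {A₀ A₁ : Finset (Fin m)} {e : ℕ}

theorem pl_cases (hA : #A₁ = #A₀) {i : ℕ} (hi : i ≤ 2 * #A₀ + 1) :
    (i = 0 ∧ pl A₀ A₁ i = 2 * m) ∨
    (∃ t < #A₀, i = 2 * t + 1 ∧ pl A₀ A₁ i = en A₀ t ∧ en A₀ t < m) ∨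
    (∃ t < #A₀, i = 2 * t + 2 ∧ pl A₀ A₁ i = m + en A₁ t ∧ en A₁ t < m) ∨
    (i = 2 * #A₀ + 1 ∧ pl A₀ A₁ i = 2 * m + 1) := by
  unfold pl
  by_cases h0 : i = 0
  · left
    exact ⟨h0, if_pos h0⟩
  · right
    rw [if_neg h0]
    by_cases h1 : i ≤ 2 * #A₀
    · rw [if_pos h1]
      by_cases h2 : (i - 1) % 2 = 0
      · left
        rw [if_pos h2]
        exact ⟨(i - 1) / 2, by omega, by omega, rfl, en_lt (by omega)⟩
      · right; left
        rw [if_neg h2]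
        exact ⟨(i - 1) / 2, by omega, by omega, rfl, en_lt (by omega)⟩
    · right; right
      exact ⟨by omega, if_neg h1⟩

theorem pr_cases (hA : #A₁ = #A₀) {j : ℕ} (hj : j ≤ 2 * #A₀ + 2 + e) :
    (j = 0 ∧ pr e A₀ A₁ j = 2 * m + 1) ∨
    (∃ t < #A₀, j = t + 1 ∧ pr e A₀ A₁ j = en A₀ t ∧ en A₀ t < m) ∨
    (j = #A₀ + 1 ∧ pr e A₀ A₁ j = 2 * m + 2) ∨
    (∃ t < #A₀, j = t + #A₀ + 2 ∧ pr e A₀ A₁ j = m + en A₁ t ∧ en A₁ t < m) ∨
    (∃ t < e, j = 2 * #A₀ + 2 + t ∧ pr e A₀ A₁ j = 2 * m + 3 + t) ∨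
    (j = 2 * #A₀ + 2 + e ∧ pr e A₀ A₁ j = 2 * m) := by
  unfold pr
  by_cases h0 : j = 0
  · left
    exact ⟨h0, if_pos h0⟩
  · right
    rw [if_neg h0]
    by_cases h1 : j ≤ #A₀
    · left
      rw [if_pos h1]
      exact ⟨j - 1, by omega, by omega, rfl, en_lt (by omega)⟩
    · right
      rw [if_neg h1]
      by_cases h2 : j = #A₀ + 1
      · left
        rw [if_pos h2]
        exact ⟨h2, rfl⟩
      · right
        rw [if_neg h2]
        by_cases h3 : j ≤ 2 * #A₀ + 1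
        · left
          rw [if_pos h3]
          exact ⟨j - #A₀ - 2, by omega, by omega, rfl, en_lt (by omega)⟩
        · right
          rw [if_neg h3]
          by_cases h4 : j < 2 * #A₀ + 2 + e
          · left
            rw [if_pos h4]
            exact ⟨j - 2 * #A₀ - 2, by omega, by omega, rfl⟩
          · right
            rw [if_neg h4]
            exact ⟨by omega, rfl⟩

theorem pl_le (hA : #A₁ = #A₀) {i : ℕ} (hi : i ≤ 2 * #A₀ + 1) : pl A₀ A₁ i ≤ 2 * m + 1 := by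
  rcases pl_cases hA hi with ⟨_, h⟩ | ⟨t, _, _, h, h'⟩ | ⟨t, _, _, h, h'⟩ | ⟨_, h⟩ <;> omega

theorem pr_le (hA : #A₁ = #A₀) {j : ℕ} (hj : j ≤ 2 * #A₀ + 2 + e) :
    pr e A₀ A₁ j ≤ 2 * m + 2 + e := by
  rcases pr_cases hA hj with ⟨_, h⟩ | ⟨t, _, _, h, h'⟩ | ⟨_, h⟩ | ⟨t, _, _, h, h'⟩ |
    ⟨t, _, _, h⟩ | ⟨_, h⟩ <;> omega

theorem pl_inj (hA : #A₁ = #A₀) {i j : ℕ} (hi : i ≤ 2 * #A₀ + 1) (hj : j ≤ 2 * #A₀ + 1)
    (h : pl A₀ A₁ i = pl A₀ A₁ j) : i = j := by
  rcases pl_cases hA hi with ⟨a, b⟩ | ⟨t, ht, a, b, c⟩ | ⟨t, ht, a, b, c⟩ | ⟨a, b⟩ <;>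
  rcases pl_cases hA hj with ⟨a', b'⟩ | ⟨t', ht', a', b', c'⟩ | ⟨t', ht', a', b', c'⟩ | ⟨a', b'⟩ <;>
  first
  | omega
  | (have h1 := en_inj ht ht' (by omega); omega)
  | (have h1 := en_inj (A := A₁) (by omega : t < #A₁) (by omega : t' < #A₁) (by omega); omega)

theorem pr_inj (hA : #A₁ = #A₀) {i j : ℕ} (hi : i ≤ 2 * #A₀ + 2 + e) (hj : j ≤ 2 * #A₀ + 2 + e)
    (h : pr e A₀ A₁ i = pr e A₀ A₁ j) : i = j := by
  rcases pr_cases hA hi with ⟨a, b⟩ | ⟨t, ht, a, b, c⟩ | ⟨a, b⟩ | ⟨t, ht, a, b, c⟩ |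
    ⟨t, ht, a, b⟩ | ⟨a, b⟩ <;>
  rcases pr_cases hA hj with ⟨a', b'⟩ | ⟨t', ht', a', b', c'⟩ | ⟨a', b'⟩ |
    ⟨t', ht', a', b', c'⟩ | ⟨t', ht', a', b'⟩ | ⟨a', b'⟩ <;>
  first
  | omega
  | (have h1 := en_inj ht ht' (by omega); omega)
  | (have h1 := en_inj (A := A₁) (by omega : t < #A₁) (by omega : t' < #A₁) (by omega); omega)

theorem pl_rel (hA : #A₁ = #A₀) {i : ℕ} (hi : i < 2 * #A₀ + 1) :
    qq (cl m (pl A₀ A₁ i)) (cl m (pl A₀ A₁ (i + 1))) := by
  rcases pl_cases hA hi.le with ⟨a, b⟩ | ⟨t, ht, a, b, c⟩ | ⟨t, ht, a, b, c⟩ | ⟨a, b⟩ <;>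
  rcases pl_cases hA (i := i + 1) hi with ⟨a', b'⟩ | ⟨t', ht', a', b', c'⟩ |
    ⟨t', ht', a', b', c'⟩ | ⟨a', b'⟩ <;>
  first
  | omega
  | (rw [b, b']; unfold cl qq; split_ifs <;> omega)

theorem pr_rel (hA : #A₁ = #A₀) {i : ℕ} (hi : i < 2 * #A₀ + 2 + e) :
    ¬ qq (cl m (pr e A₀ A₁ i)) (cl m (pr e A₀ A₁ (i + 1))) := by
  rcases pr_cases hA hi.le with ⟨a, b⟩ | ⟨t, ht, a, b, c⟩ | ⟨a, b⟩ | ⟨t, ht, a, b, c⟩ |
    ⟨t, ht, a, b⟩ | ⟨a, b⟩ <;>
  rcases pr_cases hA (j := i + 1) hi with ⟨a', b'⟩ | ⟨t', ht', a', b', c'⟩ | ⟨a', b'⟩ |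
    ⟨t', ht', a', b', c'⟩ | ⟨t', ht', a', b'⟩ | ⟨a', b'⟩ <;>
  first
  | omega
  | (rw [b, b']; unfold cl qq; split_ifs <;> first | omega | decide)

theorem disj_iff {B₀ B₁ : Finset (Fin m)} (hA : #A₁ = #A₀) (hB : #B₁ = #B₀) :
    (∀ i < 2 * #A₀ + 1, ∀ j < 2 * #B₀ + 2 + e, pl A₀ A₁ i ≠ pr e B₀ B₁ j) ↔
      Disjoint A₀ B₀ ∧ Disjoint A₁ B₁ := by
  constructor
  · intro h
    constructor
    · rw [disjoint_iff_en]
      intro t ht t' ht' h1
      have h2 := h (2 * t + 1) (by omega) (t' + 1) (by omega)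
      apply h2
      unfold pl pr
      rw [if_neg (by omega), if_pos (by omega), if_pos (by omega), if_neg (by omega),
        if_pos (by omega)]
      have e1 : (2 * t + 1 - 1) / 2 = t := by omega
      rw [e1, Nat.add_sub_cancel, h1]
    · rw [disjoint_iff_en]
      intro t ht t' ht' h1
      have h2 := h (2 * t + 2) (by omega) (t' + #B₀ + 2) (by omega)
      apply h2
      unfold pl pr
      rw [if_neg (by omega), if_pos (by omega), if_neg (by omega), if_neg (by omega),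
        if_neg (by omega), if_neg (by omega), if_pos (by omega)]
      have e1 : (2 * t + 2 - 1) / 2 = t := by omega
      have e2 : t' + #B₀ + 2 - #B₀ - 2 = t' := by omega
      rw [e1, e2, h1]
  · rintro ⟨h1, h2⟩ i hi j hj h
    rw [disjoint_iff_en] at h1 h2
    rcases pl_cases hA hi.le with ⟨a, b⟩ | ⟨t, ht, a, b, c⟩ | ⟨t, ht, a, b, c⟩ | ⟨a, b⟩ <;>
    rcases pr_cases hB hj.le with ⟨a', b'⟩ | ⟨t', ht', a', b', c'⟩ | ⟨a', b'⟩ |
      ⟨t', ht', a', b', c'⟩ | ⟨t', ht', a', b'⟩ | ⟨a', b'⟩ <;>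
    first
    | omega
    | exact h1 t ht t' ht' (by omega)
    | exact h2 t (by omega) t' (by omega) (by omega)

end paths

/-- The dimension bound in terms of the binomial coefficients. -/
theorem barrier {K : Type*} [Field K] [CharZero K] {B : Type*} [CommRing B] [Algebra K B]
    [FiniteDimensional K B] {n k : ℕ} (hk : 3 ≤ k) (hkn : k ≤ n) {S : Set ℕ} (hS : k ∈ S)
    (d : Fin n → B) (w : Fin n → Fin n → B) (hw : ∀ x y, w x y = w y x)
    (φ : ℕ → Fin n → Fin n → (B →ₗ[K] K))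
    (hφ : ∀ G : SimpleGraph (Fin n),
      (({H : G.Subgraph | IsCyc H ∧ H.verts.ncard ∈ S}.ncard : ℕ) : K) =
        ∑ j ∈ range (k + 1), ∑ u, ∑ v,
          φ j u v ((wmat (fun x y => d x * w x y) G ^ j) u v)) :
    (((n - 3 - (k - 3) % 2) / 2).choose ((k - 3) / 4)) ^ 2 ≤ 2 * Module.finrank K B := by
  obtain ⟨J, rfl⟩ : ∃ J, k = J + 1 := ⟨k - 1, by omega⟩
  set e := (J + 1 - 3) % 2 with he
  set m := (n - 3 - e) / 2 with hm
  set h := (J + 1 - 3) / 4 with hh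
  set M := (J + 1 - 3) / 2 - h with hM
  have hhM : h ≤ M := by omega
  have hhm : h + M ≤ m := by omega
  have hJe : J + 1 = (2 * h + 1) + (2 * M + 2 + e) := by omega
  have hn : 2 * m + 3 + e ≤ n := by omega
  have hn0 : 0 < n := by omega
  set f : ℕ → Fin n := fun x => ⟨x % n, Nat.mod_lt _ hn0⟩ with hf
  have hfv : ∀ x < n, (f x).val = x := fun x hx => Nat.mod_eq_of_lt hx
  have hfi : ∀ x < n, ∀ y < n, f x = f y → x = y := by
    intro x hx y hy hxy
    have := congrArg Fin.val hxy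
    rwa [hfv x hx, hfv y hy] at this
  have cardP : ∀ {s : ℕ} (x : powersetCard s (univ : Finset (Fin m))), #x.1 = s :=
    fun x => (mem_powersetCard.1 x.2).2
  let L : powersetCard h (univ : Finset (Fin m)) × powersetCard h (univ : Finset (Fin m)) →
    ℕ → Fin n := fun a i => f (pl a.1.1 a.2.1 i)
  let R : powersetCard M (univ : Finset (Fin m)) × powersetCard M (univ : Finset (Fin m)) →
    ℕ → Fin n := fun b j => f (pr e b.1.1 b.2.1 j)
  have hLlt : ∀ a : powersetCard h (univ : Finset (Fin m)) × powersetCard h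
      (univ : Finset (Fin m)), ∀ i ≤ 2 * h + 1, pl a.1.1 a.2.1 i < n := by
    intro a i hi
    have h1 := pl_le (A₀ := a.1.1) (A₁ := a.2.1) (by rw [cardP, cardP]) (i := i)
      (by rw [cardP]; exact hi)
    omega
  have hRlt : ∀ b : powersetCard M (univ : Finset (Fin m)) × powersetCard M
      (univ : Finset (Fin m)), ∀ j ≤ 2 * M + 2 + e, pr e b.1.1 b.2.1 j < n := by
    intro b j hj
    have h1 := pr_le (e := e) (A₀ := b.1.1) (A₁ := b.2.1) (by rw [cardP, cardP]) (j := j)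
      (by rw [cardP]; exact hj)
    omega
  have hcard : Fintype.card (powersetCard h (univ : Finset (Fin m)) ×
      powersetCard h (univ : Finset (Fin m))) = (m.choose h) ^ 2 := by
    rw [Fintype.card_prod, Fintype.card_coe, card_powersetCard, card_univ, Fintype.card_fin, sq]
  rw [← hcard]
  refine card_le_of_disj (K := K) (B := B)
    (fun a => ∏ i ∈ range (2 * h + 1), (d (L a i) * w (L a i) (L a (i + 1))))
    (fun b : powersetCard M (univ : Finset (Fin m)) × powersetCard M (univ : Finset (Fin m)) =>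
      ∏ j ∈ range (2 * M + 2 + e), (d (R b j) * w (R b j) (R b (j + 1))))
    (fun a => ∑ i ∈ range (2 * h + 1), φ (J + 1) (L a i) (L a i))
    (fun b => ∑ j ∈ range (2 * M + 2 + e), φ (J + 1) (R b j) (R b j))
    (fun a b => Disjoint a.1.1 b.1.1 ∧ Disjoint a.2.1 b.2.1) ?_
    (fun b a' => rinv K m h M b.1.1 a'.1.1 * rinv K m h M b.2.1 a'.2.1) ?_
  · intro a b
    have hA : #a.2.1 = #a.1.1 := by rw [cardP, cardP]
    have hB : #b.2.1 = #b.1.1 := by rw [cardP, cardP]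
    have key := halves_key (V := Fin n) d w hw φ S (J := J) (p := 2 * h + 1)
      (q := 2 * M + 2 + e) (by omega) (by rw [Fintype.card_fin]; exact hkn) hS hφ (by omega)
      (by omega) hJe (l := L a) (r := R b) ?_ ?_ ?_ ?_
      (fun x y => qq (cl m x.val) (cl m y.val)) (fun x y => qq_symm) ?_ ?_
    · rw [key]
      congr 1
      rw [← disj_iff (e := e) hA hB, cardP, cardP]
      apply propext
      constructor
      · intro h1 i hi j hj h2
        exact h1 i hi j hj (congrArg f h2)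
      · intro h1 i hi j hj h2
        exact h1 i hi j hj (hfi _ (hLlt a i hi.le) _ (hRlt b j hj.le) h2)
    · -- end of the first path
      change f _ = f _
      congr 1
      have c1 := cardP a.1
      unfold pl pr
      rw [if_neg (by omega), if_neg (by omega), if_pos rfl]
    · change f _ = f _
      congr 1
      have c1 := cardP b.1
      unfold pl pr
      rw [if_neg (by omega), if_neg (by omega), if_neg (by omega), if_neg (by omega),
        if_neg (by omega), if_pos rfl]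
    · intro i hi j hj hij
      have c1 := cardP a.1
      rw [Set.mem_Iic] at hi hj
      exact pl_inj hA (by omega) (by omega) (hfi _ (hLlt a i hi) _ (hLlt a j hj) hij)
    · intro i hi j hj hij
      have c1 := cardP b.1
      rw [Set.mem_Iic] at hi hj
      exact pr_inj hB (by omega) (by omega) (hfi _ (hRlt b i hi) _ (hRlt b j hj) hij)
    · intro i hi
      have c1 := cardP a.1
      change qq (cl m (f _).val) (cl m (f _).val)
      rw [hfv _ (hLlt a i hi.le), hfv _ (hLlt a (i + 1) hi)]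
      exact pl_rel hA (by omega)
    · intro j hj
      have c1 := cardP b.1
      change ¬ qq (cl m (f _).val) (cl m (f _).val)
      rw [hfv _ (hRlt b j hj.le), hfv _ (hRlt b (j + 1) hj)]
      exact pr_rel hB (by omega)
  · intro a a'
    exact rinv_pair hhM hhm a a'

end Pool.Agent.MP_b35d54_lc
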