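import Pool.Agent.Lib.MP_b35d54_lc.Transfer

/-!
# Cycles of a given length and short cycles, unconditionally
-/

namespace Pool.Agent.MP_b35d54_lc

open Pool.Agent.PolyTime Finset Real

/-- Some machine without any stack contents to take care of, to start with. -/
def idBox : Box where
  tm := Turing.idComputer Bool
  ea := Equiv.refl Bool
  eb := Equiv.refl Bool

/-- The number of `k`-cycles from `(G, k)`. -/
theorem kcycles : ∃ (B : Box) (p : Polynomial ℕ), ∀ (G : Gr) (k : ℕ), k ≤ G.1 →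
    ∃ t S : ℕ, B.Runs (bits (enc (G, k))) (bits (enc (ckn G.2 k))) t S ∧
      t ≤ p.eval G.1 * ∑ i ∈ range (k / 2 + 1), G.1.choose i ∧ S ≤ p.eval G.1 := by
  have h1 : XC idBox True (fun p : Gr × ℕ => ckn p.1.2 p.2)
      (fun p => ∑ i ∈ range (p.2 / 2 + 1), p.1.1.choose i) := by
    have h2 : PTime (fun p : Gr × ℕ => (code p.1.2, p.2)) :=
      (PTime.codeGr.comp PTime.fst).pair PTime.snd
    have h3 := (XC.kc idBox True).comp (h2.xc (B := idBox) (sp := True) fun _ => 0)
    refine XC.of_eq (h3.mono fun p => ?_) fun p => ?_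
    · rw [length_code_gr]; exact le_of_eq (Nat.zero_add _)
    · rw [kc_spec, ckn_eq]
  obtain ⟨B, q, ⟨Q, hQ⟩, hqm, h⟩ := h1.box
  set Z : Polynomial ℕ := Polynomial.X * (4 * Polynomial.X + 2) + 1 + (4 * Polynomial.X + 1) + 1
    with hZ
  have hZe : ∀ n : ℕ, Z.eval n = n * (4 * n + 2) + 1 + (4 * n + 1) + 1 := fun n => by simp [hZ]
  refine ⟨B, Q.comp Z * 2 + Q.comp Z, fun G k hk => ?_⟩
  obtain ⟨t, S, h2, h3, h4⟩ := h (G, k)
  have h5 : q (size (enc (G, k))) ≤ (Q.comp Z).eval G.1 := by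
    rw [Polynomial.eval_comp, hZe]
    refine (hqm ?_).trans (hQ _)
    rw [size_pair]
    have e1 := size_gr_le G
    have e2 := size_nat_le k
    omega
  refine ⟨t, S, h2, h3.trans ?_, (h4 trivial).trans ?_⟩
  · have h6 : 1 ≤ ∑ i ∈ range (k / 2 + 1), G.1.choose i := by
      have := single_le_sum (f := fun i => G.1.choose i) (s := range (k / 2 + 1))
        (fun i _ => Nat.zero_le _) (mem_range.2 (Nat.succ_pos _))
      simpa using this
    rw [Polynomial.eval_add, Polynomial.eval_mul]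
    have e2 : (2 : Polynomial ℕ).eval G.1 = 2 := by simp
    rw [e2]
    simp only at h5 ⊢
    calc q (size (enc (G, k))) * (∑ i ∈ range (k / 2 + 1), G.1.choose i + 1)
        ≤ (Q.comp Z).eval G.1 * (2 * ∑ i ∈ range (k / 2 + 1), G.1.choose i) :=
          Nat.mul_le_mul h5 (by omega)
      _ ≤ _ := by
        have : 0 ≤ (Q.comp Z).eval G.1 * ∑ i ∈ range (k / 2 + 1), G.1.choose i :=
          Nat.zero_le _
        nlinarith
  · rw [Polynomial.eval_add]
    omega

theorem sumB_short (G : Gr) {u v : ℕ} (hv : 0 < v) :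
    sumB wOne (fun n => u * n / v + 1) (code G.2) =
      {H : G.2.Subgraph | IsCyc H ∧ v * H.verts.ncard ≤ u * G.1}.ncard := by
  rw [sumB_one, ncard_eq_sum]
  have h1 : ∀ A : Finset (Fin G.1), {H : G.2.Subgraph |
      (IsCyc H ∧ v * H.verts.ncard ≤ u * G.1) ∧ H.verts = (A : Set (Fin G.1))}.ncard =
      if #A < u * G.1 / v + 1 then hc G.2 (A : Set (Fin G.1)) else 0 := by
    intro A
    have h2 : #A < u * G.1 / v + 1 ↔ v * #A ≤ u * G.1 := by
      rw [Nat.lt_succ_iff, Nat.le_div_iff_mul_le hv, mul_comm]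
    by_cases hA : #A < u * G.1 / v + 1
    · rw [if_pos hA, hc]
      congr 1
      ext H
      simp only [Set.mem_ofPred_eq]
      constructor
      · rintro ⟨⟨h3, _⟩, h4⟩
        exact ⟨h3, h4⟩
      · rintro ⟨h3, h4⟩
        exact ⟨⟨h3, by rw [h4, Set.ncard_coe_finset]; exact h2.1 hA⟩, h4⟩
    · rw [if_neg hA, Set.ncard_eq_zero (Set.toFinite _)]
      ext H
      simp only [Set.mem_ofPred_eq, Set.mem_empty_iff_false, iff_false]
      rintro ⟨⟨_, h3⟩, h4⟩
      rw [h4, Set.ncard_coe_finset] at h3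
      exact hA (h2.2 h3)
  simp_rw [h1]
  have h2 := sum_by_card (V := Fin G.1) (fun B => (hc G.2 (B : Set (Fin G.1)) : ℤ))
    (fun _ => 1) (u * G.1 / v + 1)
  simp only [one_mul] at h2
  unfold ck
  exact_mod_cast h2.symm

/-- The cycles with at most `u n / v` vertices. -/
theorem short {u v : ℕ} (hu : 0 < u) (huv : u ≤ v) {a : ℝ}
    (ha : exp (binEntropy ((u : ℝ) / (2 * v))) ≤ a) :
    Solves True a fun G =>
      {H : G.2.Subgraph | IsCyc H ∧ v * H.verts.ncard ≤ u * G.1}.ncard := by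
  have hv : 0 < v := by omega
  have ht : PTime (fun L : List (List Bool) => u * L.length / v + 1) :=
    PTime.succ (PTime.div (PTime.mul (PTime.const u) (PTime.length PTime.id)) (PTime.const v))
  have ht' : ∀ n : ℕ, u * n / v + 1 ≤ n + 1 := fun n => by
    have : u * n / v ≤ n := Nat.div_le_of_le_mul (Nat.mul_le_mul_right _ huv)
    omega
  have h1 := (XC.sumB idBox True (w := wOne) (PTime.const 1)
    (top := fun n => u * n / v + 1) ht ht').comp (PTime.codeGr.xc fun _ => 0)
  have h2 : XC idBox True (fun G : Gr => {H : G.2.Subgraph |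
      IsCyc H ∧ v * H.verts.ncard ≤ u * G.1}.ncard) _ := h1.of_eq fun G => sumB_short G hv
  have hv' : (0 : ℝ) < v := by exact_mod_cast hv
  have hu' : (0 : ℝ) < u := by exact_mod_cast hu
  have huv' : (u : ℝ) ≤ v := by exact_mod_cast huv
  have hρ0 : (0 : ℝ) < (u : ℝ) / (2 * v) := by positivity
  have hρ1 : (u : ℝ) / (2 * v) ≤ 1 / 2 := by
    rw [div_le_div_iff₀ (by positivity) (by norm_num)]
    linarith
  have ha0 : 0 ≤ a := (exp_pos _).le.trans ha
  have ha1 : 1 ≤ a := (one_le_exp_binEntropy hρ0.le (by linarith)).trans ha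
  refine XC.solves h2 ha0 (2 * Polynomial.X + 3) fun G => ?_
  set n := G.1 with hn
  have han : (1 : ℝ) ≤ a ^ n := one_le_pow₀ ha1
  have hC : ∀ k ∈ List.range (u * n / v + 1),
      ((∑ i ∈ range (k / 2 + 1), n.choose i : ℕ) : ℝ) ≤ a ^ n := by
    intro k hk
    rw [List.mem_range] at hk
    push_cast
    have h1 : ((k / 2 : ℕ) : ℝ) ≤ (u : ℝ) / (2 * v) * n := by
      have h2 : ((k / 2 : ℕ) : ℝ) ≤ (k : ℝ) / 2 := Nat.cast_div_le
      have h3 : k * v ≤ u * n := by
        have : k ≤ u * n / v := by omega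
        exact (Nat.le_div_iff_mul_le hv).1 this
      have h4 : (k : ℝ) * v ≤ u * n := by exact_mod_cast h3
      have h5 : (k : ℝ) / 2 ≤ (u : ℝ) / (2 * v) * n := by
        rw [div_mul_eq_mul_div, div_le_div_iff₀ (by norm_num) (by positivity)]
        nlinarith
      linarith
    exact (sum_choose_le hρ0 hρ1 h1).trans (pow_le_pow_left₀ (exp_pos _).le ha n)
  have hD : ((((List.range (u * n / v + 1)).map fun k =>
      ∑ i ∈ range (k / 2 + 1), n.choose i).sum : ℕ) : ℝ) ≤ (n + 1) * a ^ n := by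
    rw [Nat.cast_list_sum, List.map_map]
    have h1 : ((List.range (u * n / v + 1)).map ((Nat.cast : ℕ → ℝ) ∘ fun k =>
        ∑ i ∈ range (k / 2 + 1), n.choose i)).sum ≤
        ((List.range (u * n / v + 1)).map fun _ => a ^ n).sum := List.sum_le_sum hC
    refine h1.trans ?_
    rw [List.map_const', List.sum_replicate, List.length_range, nsmul_eq_mul]
    refine mul_le_mul_of_nonneg_right ?_ (by positivity)
    exact_mod_cast ht' n
  have hE : (((u * n / v + 1 : ℕ)) : ℝ) ≤ (n + 1) * a ^ n := by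
    have h1 : (((u * n / v + 1 : ℕ)) : ℝ) ≤ ((n + 1 : ℕ) : ℝ) := by exact_mod_cast ht' n
    have h2 : (0 : ℝ) ≤ (n : ℝ) := Nat.cast_nonneg _
    push_cast at h1 ⊢
    nlinarith
  have hev : (((2 * Polynomial.X + 3 : Polynomial ℕ).eval n : ℕ) : ℝ) = 2 * n + 3 := by
    simp
  rw [hev]
  simp only [length_code_gr, ← hn]
  push_cast at hD hE ⊢
  nlinarith [hD, hE, han]

theorem entropy_lt_two {u v : ℕ} (huv : u < v) :
    exp (binEntropy ((u : ℝ) / (2 * v))) < 2 := by
  have hv : 0 < v := by omega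
  have hv' : (0 : ℝ) < v := by exact_mod_cast hv
  rw [← log_lt_log_iff (exp_pos _) (by norm_num), log_exp, binEntropy_lt_log_two]
  intro h
  have h1 : (u : ℝ) < v := by exact_mod_cast huv
  rw [div_eq_iff (by positivity)] at h
  linarith

theorem num3 : exp (binEntropy ((449 : ℝ) / (2 * 500))) ≤ 1.99 := by
  refine le_trans (exp_le_exp.2 ?_) num2
  refine binEntropy_strictMonoOn.monotoneOn ?_ ?_ ?_
  · constructor <;> norm_num
  · constructor <;> norm_num
  · norm_num

end Pool.Agent.MP_b35d54_lc
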