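import Pool.Agent.Lib.MP_b35d54_lc.Comp
import Pool.Agent.Lib.MP_b35d54_lc.Identity

/-!
# Counting the cycles of length `k` with small and large vertex sets only
-/

namespace Pool.Agent.MP_b35d54_lc

open Pool.Agent.PolyTime

/-- The mask of a list of numbers. -/
def lmask (N : ℕ) (l : List ℕ) : List Bool := (List.range N).map fun i => decide (i ∈ l)

/-- The complementary mask. -/
def lcomask (N : ℕ) (l : List ℕ) : List Bool := (List.range N).map fun i => decide (i ∉ l)

/-- Number of elements below `N`. -/
def lcard (N : ℕ) (l : List ℕ) : ℕ := ((List.range N).filter fun i => decide (i ∈ l)).length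

/-- Absolute value of the contribution of a small set. -/
def fX (L : List (List Bool)) (k : ℕ) (l : List ℕ) : ℕ :=
  cf L.length (L.length - k) (k / 2 - lcard L.length l) * walks L (lmask L.length l) k

/-- Absolute value of the contribution of the complement of a small set. -/
def fY (L : List (List Bool)) (k : ℕ) (l : List ℕ) : ℕ :=
  if lcard L.length l ≤ k - 1 - k / 2 then
    cf L.length (L.length - k) (k - 1 - k / 2 - lcard L.length l) *
      walks L (lcomask L.length l) k
  else 0

/-- Positive and negative contribution. -/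
def fA (p : (List (List Bool) × ℕ) × List ℕ) : ℕ × ℕ :=
  ((if (p.1.2 + lcard p.1.1.length p.2) % 2 = 0 then fX p.1.1 p.1.2 p.2 else 0) +
    (if lcard p.1.1.length p.2 % 2 = 0 then fY p.1.1 p.1.2 p.2 else 0),
   (if (p.1.2 + lcard p.1.1.length p.2) % 2 = 0 then 0 else fX p.1.1 p.1.2 p.2) +
    (if lcard p.1.1.length p.2 % 2 = 0 then 0 else fY p.1.1 p.1.2 p.2))

section ptime
variable {α : Type} [Enc α]

theorem PTime.lmask {f : α → List (List Bool)} {l : α → List ℕ} (hf : PTime f)
    (hl : PTime l) : PTime (fun x => lmask (f x).length (l x)) :=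
  PTime.map (PTime.rangeLength hf) (PTime.mem PTime.snd (hl.comp PTime.fst))

theorem PTime.lcomask {f : α → List (List Bool)} {l : α → List ℕ} (hf : PTime f)
    (hl : PTime l) : PTime (fun x => lcomask (f x).length (l x)) :=
  PTime.map (PTime.rangeLength hf) (PTime.notP (PTime.mem PTime.snd (hl.comp PTime.fst)))

theorem PTime.lcard {f : α → List (List Bool)} {l : α → List ℕ} (hf : PTime f)
    (hl : PTime l) : PTime (fun x => lcard (f x).length (l x)) :=
  PTime.length (PTime.filter (PTime.rangeLength hf) (PTime.mem PTime.snd (hl.comp PTime.fst)))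

theorem PTime.fX {f : α → List (List Bool)} {k : α → ℕ} {l : α → List ℕ} (hf : PTime f)
    (hk : PTime k) (hl : PTime l) : PTime (fun x => fX (f x) (k x) (l x)) :=
  PTime.mul (PTime.cf hf (PTime.sub (PTime.length hf) hk)
    (PTime.sub (PTime.div hk (PTime.const 2)) (PTime.lcard hf hl)))
    (PTime.walks hf (PTime.lmask hf hl) hk)

theorem PTime.fY {f : α → List (List Bool)} {k : α → ℕ} {l : α → List ℕ} (hf : PTime f)
    (hk : PTime k) (hl : PTime l) : PTime (fun x => fY (f x) (k x) (l x)) := by
  have h1 : PTime (fun x => k x - 1 - k x / 2) :=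
    PTime.sub (PTime.sub hk (PTime.const 1)) (PTime.div hk (PTime.const 2))
  exact PTime.iteP (PTime.le (PTime.lcard hf hl) h1)
    (PTime.mul (PTime.cf hf (PTime.sub (PTime.length hf) hk)
      (PTime.sub h1 (PTime.lcard hf hl))) (PTime.walks hf (PTime.lcomask hf hl) hk))
    (PTime.const 0)

theorem PTime.fA : PTime fA := by
  have hL : PTime (fun p : (List (List Bool) × ℕ) × List ℕ => p.1.1) := PTime.fst' PTime.fst
  have hk : PTime (fun p : (List (List Bool) × ℕ) × List ℕ => p.1.2) := PTime.snd' PTime.fst
  have hl : PTime (fun p : (List (List Bool) × ℕ) × List ℕ => p.2) := PTime.snd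
  have hX := PTime.fX hL hk hl
  have hY := PTime.fY hL hk hl
  have hc := PTime.lcard hL hl
  have c1 : PTime (fun p : (List (List Bool) × ℕ) × List ℕ =>
      decide ((p.1.2 + MP_b35d54_lc.lcard p.1.1.length p.2) % 2 = 0)) :=
    PTime.eq (PTime.mod (PTime.add hk hc) (PTime.const 2)) (PTime.const 0)
  have c2 : PTime (fun p : (List (List Bool) × ℕ) × List ℕ =>
      decide (MP_b35d54_lc.lcard p.1.1.length p.2 % 2 = 0)) :=
    PTime.eq (PTime.mod hc (PTime.const 2)) (PTime.const 0)
  exact (PTime.add (PTime.iteP c1 hX (PTime.const 0)) (PTime.iteP c2 hY (PTime.const 0))).pair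
    (PTime.add (PTime.iteP c1 (PTime.const 0) hX) (PTime.iteP c2 (PTime.const 0) hY))

end ptime

/-- The sums of the positive and of the negative contributions. -/
def sumA (p : List (List Bool) × ℕ) : ℕ × ℕ :=
  ((subs p.1.length (p.2 / 2)).map fun l => fA (p, l)).sum

/-- The number of cycles of length `k`, from the code of a graph. -/
def kc (p : List (List Bool) × ℕ) : ℕ :=
  if 3 ≤ p.2 ∧ p.2 ≤ p.1.length then ((sumA p).1 - (sumA p).2) / (2 * p.2) else 0

theorem size_subs {n R : ℕ} {l : List ℕ} (hl : l ∈ subs n R) :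
    size (enc l) ≤ n * (4 * n + 2) + 1 := by
  obtain ⟨_, h2, h3⟩ := subs_mem hl
  have h4 := size_list_le l (4 * n + 1) fun x hx => by
    have h5 := h3 x hx
    have h6 := size_nat_le x
    omega
  exact h4.trans (Nat.add_le_add_right (Nat.mul_le_mul_right _ h2) 1)

theorem subs_head? (n R : ℕ) : (subs n R).head? = some [] := rfl

theorem XC.sumA (B : Box) (sp : Prop) : XC B sp sumA fun p =>
    ∑ i ∈ Finset.range (p.2 / 2 + 1), p.1.length.choose i := by
  have h := XC.chainSum (B := B) (sp := sp) (α := List (List Bool) × ℕ) (β := List ℕ)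
    (Lst := fun p => subs p.1.length (p.2 / 2)) (nx := fun p l => nxt p.1.length (p.2 / 2) l) []
    (PTime.const (some [])) (PTime.nxt (PTime.length (PTime.fst' PTime.fst))
      (PTime.div (PTime.snd' PTime.fst) (PTime.const 2)) PTime.snd)
    (fun p => subs_chained _ _) (W := fun n => n * (4 * n + 2) + 1)
    ((PBd.id.mul (((PBd.const 4).mul PBd.id).add (PBd.const 2))).add (PBd.const 1)) ?_ ?_ ?_
    (F := fA) (T := fun _ => 0) (PTime.fA.xc fun _ => 0)
  · refine h.mono fun p => ?_
    rw [subs_length, List.map_const', List.sum_replicate]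
    simp
  · intro a b hab
    simp only
    have : a * (4 * a + 2) ≤ b * (4 * b + 2) := Nat.mul_le_mul hab (by omega)
    omega
  · intro p l hl
    refine (size_subs hl).trans ?_
    have h1 := length_le_size p.1
    have h2 : size (enc p) = size (enc p.1) + size (enc p.2) + 1 := size_pair p.1 p.2
    have h3 : p.1.length ≤ size (enc p) := by omega
    exact Nat.add_le_add_right (Nat.mul_le_mul h3 (by omega)) 1
  · intro p
    refine (subs_length_le _ _).trans (Nat.pow_le_pow_right (by norm_num) ?_)
    have h1 := length_le_size p.1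
    have h2 : size (enc p) = size (enc p.1) + size (enc p.2) + 1 := size_pair p.1 p.2
    have h3 : p.1.length ≤ size (enc p) := by omega
    nlinarith

theorem XC.kc (B : Box) (sp : Prop) : XC B sp kc fun p =>
    ∑ i ∈ Finset.range (p.2 / 2 + 1), p.1.length.choose i := by
  have h1 : PTime (fun q : (List (List Bool) × ℕ) × (ℕ × ℕ) =>
      if 3 ≤ q.1.2 ∧ q.1.2 ≤ q.1.1.length then (q.2.1 - q.2.2) / (2 * q.1.2) else 0) := by
    have hk : PTime (fun q : (List (List Bool) × ℕ) × (ℕ × ℕ) => q.1.2) := PTime.snd' PTime.fst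
    exact PTime.iteP (PTime.andP (PTime.le (PTime.const 3) hk)
      (PTime.le hk (PTime.length (PTime.fst' PTime.fst))))
      (PTime.div (PTime.sub (PTime.fst' PTime.snd) (PTime.snd' PTime.snd))
        (PTime.mul (PTime.const 2) hk)) (PTime.const 0)
  have h2 := (h1.xc (B := B) (sp := sp) fun _ => 0).comp
    ((PTime.id.xc fun _ => 0).pair (XC.sumA B sp))
  exact h2.mono fun p => by omega

/-! ### Specification -/

section spec
variable {n : ℕ}

theorem lmask_eq (l : List ℕ) :
    lmask n l = maskOf ({v | v.val ∈ l} : Finset (Fin n)) := by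
  rw [lmask, range_map_eq, maskOf]
  refine List.map_congr_left fun i _ => ?_
  simp

theorem lcomask_eq (l : List ℕ) :
    lcomask n l = maskOf ({v | v.val ∈ l} : Finset (Fin n))ᶜ := by
  rw [lcomask, range_map_eq, maskOf]
  refine List.map_congr_left fun i _ => ?_
  simp

theorem lcard_eq (l : List ℕ) :
    lcard n l = ({v | v.val ∈ l} : Finset (Fin n)).card := by
  have h1 : (({v | v.val ∈ l} : Finset (Fin n)).map Fin.valEmbedding) =
      ((List.range n).filter fun i => decide (i ∈ l)).toFinset := by
    ext x
    simp only [Finset.mem_map, Finset.mem_filter, Finset.mem_univ, true_and,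
      Fin.valEmbedding_apply, List.mem_toFinset, List.mem_filter, List.mem_range,
      decide_eq_true_eq]
    constructor
    · rintro ⟨v, hv, rfl⟩
      exact ⟨v.2, hv⟩
    · rintro ⟨h, h'⟩
      exact ⟨⟨x, h⟩, h', rfl⟩
  rw [← Finset.card_map Fin.valEmbedding, h1, List.toFinset_card_of_nodup]
  · rfl
  · exact (List.nodup_range).filter _

theorem parity_split (e X : ℕ) :
    (((if e % 2 = 0 then X else 0 : ℕ) : ℤ) - ((if e % 2 = 0 then 0 else X : ℕ) : ℤ)) =
      (-1) ^ e * (X : ℤ) := by
  by_cases h : e % 2 = 0
  · have he : Even e := Nat.even_iff.2 h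
    rw [if_pos h, if_pos h, he.neg_one_pow]
    simp
  · have he : Odd e := Nat.odd_iff.2 (by omega)
    rw [if_neg h, if_neg h, he.neg_one_pow]
    simp

theorem fA_spec (G : SimpleGraph (Fin n)) {k : ℕ} (hk : 3 ≤ k) (hkn : k ≤ n) (l : List ℕ)
    (hl : ({v | v.val ∈ l} : Finset (Fin n)).card ≤ k / 2) :
    ((fA ((code G, k), l)).1 : ℤ) - (fA ((code G, k), l)).2 =
      lo n k (k / 2) ({v | v.val ∈ l} : Finset (Fin n)).card *
        wc G k ({v | v.val ∈ l} : Finset (Fin n)) +
      (if ({v | v.val ∈ l} : Finset (Fin n)).card ≤ k - 1 - k / 2 then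
        up n k (k - 1 - k / 2) ({v | v.val ∈ l} : Finset (Fin n)).card *
          wc G k ({v | v.val ∈ l} : Finset (Fin n))ᶜ else 0) := by
  set S : Finset (Fin n) := {v | v.val ∈ l} with hS
  have hc : lcard n l = S.card := lcard_eq l
  have hX : fX (code G) k l = (n - k + (k / 2 - S.card)).choose (n - k) * wc G k S := by
    rw [fX, code_length, hc, cf_eq (by omega), lmask_eq, walks_code G _ (by omega) hkn]
  have hY : fY (code G) k l = if S.card ≤ k - 1 - k / 2 then
      (n - k + (k - 1 - k / 2 - S.card)).choose (n - k) * wc G k Sᶜ else 0 := by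
    rw [fY, code_length, hc, lcomask_eq, walks_code G _ (by omega) hkn]
    split_ifs with h
    · rw [cf_eq (by omega)]
    · rfl
  have e1 := parity_split (k + S.card) (fX (code G) k l)
  have e2 := parity_split S.card (fY (code G) k l)
  rw [fA]
  simp only [code_length, hc]
  push_cast at e1 e2 ⊢
  rw [show ∀ a b c d : ℤ, a + b - (c + d) = (a - c) + (b - d) by intros; ring, e1, e2, hX, hY,
    lo, up]
  congr 1
  · push_cast; ring
  · split_ifs
    · push_cast; ring
    · simp

theorem sumA_spec (G : SimpleGraph (Fin n)) {k : ℕ} (hk : 3 ≤ k) (hkn : k ≤ n) :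
    ((sumA (code G, k)).1 : ℤ) - (sumA (code G, k)).2 = 2 * k * ck G k := by
  have h1 := middle G (r := k / 2) (m := k - 1 - k / 2) hk (by rwa [Fintype.card_fin]) (by omega)
  rw [Fintype.card_fin] at h1
  rw [h1, ← Finset.sum_add_distrib]
  -- the difference as an additive map
  let φ : ℕ × ℕ →+ ℤ :=
    { toFun := fun p => (p.1 : ℤ) - p.2
      map_zero' := by simp
      map_add' := fun p q => by
        simp only [Prod.fst_add, Prod.snd_add]; push_cast; ring }
  change φ (sumA (code G, k)) = _
  rw [sumA, map_list_sum, List.map_map]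
  have h2 : ∀ l ∈ subs (code G).length (k / 2), (φ ∘ fun l => fA ((code G, k), l)) l =
      (fun S : Finset (Fin n) => if S.card ≤ k / 2 then
        lo n k (k / 2) S.card * wc G k S +
        (if S.card ≤ k - 1 - k / 2 then up n k (k - 1 - k / 2) S.card * wc G k Sᶜ else 0)
        else 0) ({v | v.val ∈ l} : Finset (Fin n)) := by
    intro l hl
    rw [code_length] at hl
    have h3 : ({v | v.val ∈ l} : Finset (Fin n)).card ≤ k / 2 := by
      refine le_trans ?_ (subs_mem hl).1
      calc ({v | v.val ∈ l} : Finset (Fin n)).card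
          = (({v | v.val ∈ l} : Finset (Fin n)).map Fin.valEmbedding).card :=
            (Finset.card_map _).symm
        _ ≤ l.toFinset.card := Finset.card_le_card fun x hx => by
            simp only [Finset.mem_map, Finset.mem_filter, Finset.mem_univ, true_and,
              Fin.valEmbedding_apply] at hx
            obtain ⟨v, hv, rfl⟩ := hx
            exact List.mem_toFinset.2 hv
        _ ≤ l.length := List.toFinset_card_le _
    simp only
    rw [if_pos h3]
    exact fA_spec G hk hkn l h3
  rw [List.map_congr_left h2, code_length,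
    subs_sum n (k / 2) fun S => if S.card ≤ k / 2 then
        lo n k (k / 2) S.card * wc G k S +
        (if S.card ≤ k - 1 - k / 2 then up n k (k - 1 - k / 2) S.card * wc G k Sᶜ else 0)
        else 0]
  refine Finset.sum_congr rfl fun S _ => ?_
  by_cases hS : S.card ≤ k / 2
  · simp only [hS, if_true]
  · simp only [hS, if_false]
    rw [if_neg (by omega)]
    simp

theorem kc_spec (G : SimpleGraph (Fin n)) (k : ℕ) : kc (code G, k) = ck G k := by
  unfold kc
  simp only [code_length]
  split_ifs with h
  · have h1 := sumA_spec G h.1 h.2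
    have h2 : (sumA (code G, k)).1 = (sumA (code G, k)).2 + 2 * k * ck G k := by
      have : ((sumA (code G, k)).1 : ℤ) = ((sumA (code G, k)).2 + 2 * k * ck G k : ℕ) := by
        push_cast
        linarith
      exact_mod_cast this
    rw [h2, Nat.add_sub_cancel_left]
    exact Nat.mul_div_cancel_left _ (by omega)
  · by_cases h3 : k < 3
    · rw [ck_eq_zero h3]
    · have h4 : n < k := by omega
      rw [ck, Finset.powersetCard_eq_empty.2 (by rwa [Finset.card_univ, Fintype.card_fin]),
        Finset.sum_empty]

end spec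

end Pool.Agent.MP_b35d54_lc
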