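import Pool.Agent.Lib.MP_b35d54_lc.StageA

/-!
# The remaining loops: sums over the lengths and over the deleted vertex sets
-/

namespace Pool.Agent.MP_b35d54_lc

open Pool.Agent.PolyTime

/-! ### Sums over the lengths -/

theorem range_chained (N : ℕ) :
    Chained (fun k => if k + 1 < N then some (k + 1) else none) (List.range N) none := by
  have h : ∀ d s, s + d = N → Chained (fun k => if k + 1 < N then some (k + 1) else none)
      (List.range' s d) none := by
    intro d
    induction d with
    | zero => intro s _; exact trivial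
    | succ d ih =>
      intro s hs
      rw [List.range'_succ]
      refine ⟨?_, ih (s + 1) (by omega)⟩
      change (if s + 1 < N then some (s + 1) else none) = _
      cases d with
      | zero => rw [if_neg (by omega)]; rfl
      | succ d => rw [if_pos (by omega), List.range'_succ]; rfl
  rw [List.range_eq_range']
  exact h N 0 (by omega)

/-- The weighted sum of the numbers of `k`-cycles over `k < top`. -/
def sumB (w : List (List Bool) × ℕ → ℕ) (top : ℕ → ℕ) (L : List (List Bool)) : ℕ :=
  ((List.range (top L.length)).map fun k => w (L, k) * kc (L, k)).sum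

theorem XC.sumB (B : Box) (sp : Prop) {w : List (List Bool) × ℕ → ℕ} (hw : PTime w)
    {top : ℕ → ℕ} (ht : PTime fun L : List (List Bool) => top L.length)
    (ht' : ∀ n, top n ≤ n + 1) : XC B sp (sumB w top) fun L =>
      top L.length + ((List.range (top L.length)).map fun k =>
        ∑ i ∈ Finset.range (k / 2 + 1), L.length.choose i).sum := by
  have hr : PTime (fun L : List (List Bool) => List.range (top L.length)) :=
    PTime.rangeLe (g := fun L => ([] : List Bool) :: L) ht ((PTime.const []).cons PTime.id)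
      fun L => by rw [List.length_cons]; exact ht' _
  have hnx : PTime₂ (fun (L : List (List Bool)) (k : ℕ) =>
      if k + 1 < top L.length then some (k + 1) else none) :=
    PTime.iteP (PTime.lt (PTime.succ PTime.snd) (ht.comp PTime.fst))
      (PTime.some (PTime.succ PTime.snd)) (PTime.const none)
  have hF : XC B sp (fun p : List (List Bool) × ℕ => (w p * MP_b35d54_lc.kc p, 0)) fun p =>
      ∑ i ∈ Finset.range (p.2 / 2 + 1), p.1.length.choose i := by
    have h1 : PTime (fun q : (List (List Bool) × ℕ) × ℕ => ((w q.1 * q.2, 0) : ℕ × ℕ)) :=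
      (PTime.mul (hw.comp PTime.fst) PTime.snd).pair (PTime.const 0)
    have h2 := (h1.xc (B := B) (sp := sp) fun _ => 0).comp
      ((PTime.id.xc fun _ => 0).pair (XC.kc B sp))
    exact h2.mono fun p => by omega
  have h := XC.chainSum (B := B) (sp := sp) (Lst := fun L => List.range (top L.length))
    (nx := fun L k => if k + 1 < top L.length then some (k + 1) else none) 0
    (PTime.head? hr) hnx (fun L => range_chained _) (W := fun n => 4 * n + 1)
    (((PBd.const 4).mul PBd.id).add (PBd.const 1)) (fun a b hab => by simp only; omega) ?_ ?_ hF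
  · have h3 : XC B sp (fun L => ((((List.range (top L.length)).map fun k =>
        ((w (L, k) * MP_b35d54_lc.kc (L, k), 0) : ℕ × ℕ)).sum).1)) _ :=
      (PTime.fst.xc fun _ => 0).comp h
    refine XC.of_eq (h3.mono fun L => ?_) fun L => ?_
    · rw [List.length_range]
      exact le_of_eq (Nat.add_zero _)
    · have : ∀ l : List ℕ, ((l.map fun k => ((w (L, k) * MP_b35d54_lc.kc (L, k), 0) : ℕ × ℕ)).sum).1 =
          (l.map fun k => w (L, k) * MP_b35d54_lc.kc (L, k)).sum := by
        intro l
        induction l with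
        | nil => rfl
        | cons x l ih => rw [List.map_cons, List.sum_cons, Prod.fst_add, ih, List.map_cons,
            List.sum_cons]
      exact this _
  · intro L k hk
    rw [List.mem_range] at hk
    have h1 := ht' L.length
    have h2 := size_nat_le k
    have h3 := length_le_size L
    omega
  · intro L
    rw [List.length_range]
    have h1 := ht' L.length
    have h3 := length_le_size L
    refine (show top L.length ≤ size (enc L) by omega).trans ?_
    exact (Nat.lt_two_pow_self).le.trans (Nat.pow_le_pow_right (by norm_num) (by omega))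

/-! ### Deleting vertices -/

/-- Graphs on `Fin n`, `n` arbitrary. -/
abbrev Gr : Type := (n : ℕ) × SimpleGraph (Fin n)

/-- A graph is encoded by its adjacency matrix. -/
noncomputable instance : Enc Gr := ⟨fun G => enc (code G.2)⟩

/-- The vertices not in the list. -/
def keep (n : ℕ) (l : List ℕ) : List (Fin n) :=
  (List.finRange n).filter fun v => decide (v.val ∉ l)

theorem keep_nodup (n : ℕ) (l : List ℕ) : (keep n l).Nodup := (List.nodup_finRange n).filter _

/-- The inclusion of the remaining vertices. -/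
def kemb (n : ℕ) (l : List ℕ) : Fin (keep n l).length ↪ Fin n :=
  ⟨(keep n l).get, List.nodup_iff_injective_get.1 (keep_nodup n l)⟩

/-- The graph without the vertices in the list. -/
def del (p : Gr × List ℕ) : Gr := ⟨_, p.1.2.comap (kemb p.1.1 p.2)⟩

/-- The same at the level of codes. -/
def ldel (p : List (List Bool) × List ℕ) : List (List Bool) :=
  ((p.1.zip (List.range p.1.length)).filter fun q => decide (q.2 ∉ p.2)).map fun q =>
    ((q.1.zip (List.range q.1.length)).filter fun r => decide (r.2 ∉ p.2)).map fun r => r.1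

theorem PTime.ldel : PTime ldel := by
  have h1 : PTime₂ (fun (p : List (List Bool) × List ℕ) (q : List Bool × ℕ) =>
      decide (q.2 ∉ p.2)) :=
    PTime.notP (PTime.mem (PTime.snd' PTime.snd) (PTime.snd' PTime.fst))
  have h2 : PTime₂ (fun (p : (List (List Bool) × List ℕ) × (List Bool × ℕ)) (r : Bool × ℕ) =>
      decide (r.2 ∉ p.1.2)) :=
    PTime.notP (PTime.mem (PTime.snd' PTime.snd) (PTime.snd' (PTime.fst' PTime.fst)))
  have h3 : PTime (fun p : (List (List Bool) × List ℕ) × (List Bool × ℕ) =>
      (p.2.1.zip (List.range p.2.1.length)).filter fun r => decide (r.2 ∉ p.1.2)) :=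
    PTime.filter (PTime.zipIdx (PTime.fst' PTime.snd)) h2
  have h4 : PTime₂ (fun (_ : (List (List Bool) × List ℕ) × (List Bool × ℕ)) (r : Bool × ℕ) =>
      r.1) := PTime.fst' PTime.snd
  have h5 : PTime₂ (fun (p : List (List Bool) × List ℕ) (q : List Bool × ℕ) =>
      ((q.1.zip (List.range q.1.length)).filter fun r => decide (r.2 ∉ p.2)).map
        fun r => r.1) := PTime.map h3 h4
  exact PTime.map (PTime.filter (PTime.zipIdx PTime.fst) h1) h5

theorem zip_range_map {β : Type} {n : ℕ} (f : Fin n → β) :
    ((List.finRange n).map f).zip (List.range ((List.finRange n).map f).length) =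
      (List.finRange n).map fun i => (f i, i.val) := by
  rw [List.length_map, List.length_finRange, ← List.map_coe_finRange_eq_range, List.zip_map']

theorem filter_pair {β : Type} {n : ℕ} (f : Fin n → β) (l : List ℕ) :
    ((List.finRange n).map fun i => (f i, i.val)).filter (fun q => decide (q.2 ∉ l)) =
      (keep n l).map fun i => (f i, i.val) := by
  rw [List.filter_map]
  rfl

theorem code_del (p : Gr × List ℕ) : code (del p).2 = ldel (code p.1.2, p.2) := by
  classical
  obtain ⟨⟨n, G⟩, l⟩ := p
  have h1 : code (del (⟨n, G⟩, l)).2 =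
      (keep n l).map fun u => (keep n l).map fun v => decide (G.Adj u v) := by
    rw [code]
    conv_rhs => rw [← List.ofFn_get (keep n l)]
    rw [List.map_ofFn]
    change (List.ofFn fun i : Fin (keep n l).length => List.ofFn fun j =>
      decide (G.Adj ((keep n l).get i) ((keep n l).get j))) = _
    congr 1
    funext i
    change _ = (List.ofFn (keep n l).get).map fun v => decide (G.Adj ((keep n l).get i) v)
    rw [List.map_ofFn]
    rfl
  rw [h1, ldel, code_eq]
  simp only
  rw [zip_range_map, filter_pair, List.map_map]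
  refine List.map_congr_left fun u _ => ?_
  simp only [Function.comp_apply]
  rw [zip_range_map, filter_pair, List.map_map]
  refine List.map_congr_left fun v _ => ?_
  simp

theorem PTime.codeGr : PTime (fun G : Gr => code G.2) :=
  (PTime.id (α := List (List Bool))).of_enc_eq (fun G : Gr => code G.2) (fun _ => rfl)
    (fun _ => rfl)

theorem PTime.del : PTime del :=
  PTime.ldel.of_enc_eq (fun p : Gr × List ℕ => (code p.1.2, p.2)) (fun _ => rfl) fun p => by
    change enc (code (MP_b35d54_lc.del p).2) = _
    rw [code_del]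

/-- The number of vertices after the deletion. -/
theorem del_fst (G : Gr) (l : List ℕ) :
    (del (G, l)).1 + ({v | v.val ∈ l} : Finset (Fin G.1)).card = G.1 := by
  change (keep G.1 l).length + _ = _
  have h1 : (keep G.1 l).length = ({v | v.val ∈ l} : Finset (Fin G.1))ᶜ.card := by
    rw [← List.toFinset_card_of_nodup (keep_nodup _ _)]
    congr 1
    ext v
    simp [keep]
  rw [h1, Finset.card_compl, Fintype.card_fin]
  have := Finset.card_le_univ ({v | v.val ∈ l} : Finset (Fin G.1))
  rw [Fintype.card_fin] at this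
  omega

theorem range_kemb (n : ℕ) (l : List ℕ) :
    Set.range (kemb n l) = ((({v | v.val ∈ l} : Finset (Fin n))ᶜ : Finset (Fin n)) :
      Set (Fin n)) := by
  ext v
  rw [Finset.mem_coe, Finset.mem_compl, Finset.mem_filter]
  change v ∈ Set.range (keep n l).get ↔ _
  rw [Set.range_list_get]
  simp [keep]

theorem hc_del (G : Gr) (l : List ℕ) : hc (del (G, l)).2 Set.univ =
    hc G.2 ((({v | v.val ∈ l} : Finset (Fin G.1))ᶜ : Finset (Fin G.1)) : Set (Fin G.1)) := by
  change hc (G.2.comap (kemb G.1 l)) Set.univ = _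
  rw [hc_comap, Set.image_univ, range_kemb]

theorem call_del (G : Gr) (l : List ℕ) : call (del (G, l)).2 =
    ∑ B ∈ (({v | v.val ∈ l} : Finset (Fin G.1))ᶜ).powerset, hc G.2 (B : Set (Fin G.1)) := by
  classical
  change call (G.2.comap (kemb G.1 l)) = _
  rw [call_eq_sum]
  refine Finset.sum_bij (fun A _ => A.map (kemb G.1 l)) ?_ ?_ ?_ ?_
  · intro A _
    rw [Finset.mem_powerset, ← Finset.coe_subset, ← range_kemb, Finset.coe_map]
    exact Set.image_subset_range _ _
  · intro A _ A' _ h
    exact Finset.map_injective _ h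
  · intro B hB
    rw [Finset.mem_powerset, ← Finset.coe_subset, ← range_kemb] at hB
    refine ⟨Finset.univ.filter fun i => kemb G.1 l i ∈ B, Finset.mem_univ _, ?_⟩
    ext v
    simp only [Finset.mem_map, Finset.mem_filter, Finset.mem_univ, true_and]
    constructor
    · rintro ⟨i, hi, rfl⟩
      exact hi
    · intro hv
      obtain ⟨i, rfl⟩ := hB hv
      exact ⟨i, hv, rfl⟩
  · intro A _
    rw [hc_comap, Finset.coe_map]

/-! ### Sums over the deleted sets -/

/-- The summand of a deleted set: value of `g` on the remaining graph, on the positive or on the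
negative side. -/
def fC (s : Bool) (g : Gr → ℕ) (p : Gr × List ℕ) : ℕ × ℕ :=
  if s = true ∧ lcard p.1.1 p.2 % 2 = 1 then (0, g (del p)) else (g (del p), 0)

/-- The sum over the deleted sets with at most `m n` elements. -/
def sumC (s : Bool) (g : Gr → ℕ) (m : ℕ → ℕ) (G : Gr) : ℕ × ℕ :=
  ((subs G.1 (m G.1)).map fun l => fC s g (G, l)).sum

theorem length_code_gr (G : Gr) : (code G.2).length = G.1 := code_length G.2

theorem size_gr_ge (G : Gr) : G.1 + 1 ≤ size (enc G) := by
  have := length_le_size (code G.2)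
  rw [length_code_gr] at this
  exact this

theorem XC.sumC {B : Box} {sp : Prop} (s : Bool) {g : Gr → ℕ} {Tg : Gr → ℕ}
    (hg : XC B sp g Tg) {m : ℕ → ℕ} (hm : PTime fun L : List (List Bool) => m L.length) :
    XC B sp (sumC s g m) fun G => (subs G.1 (m G.1)).length +
      ((subs G.1 (m G.1)).map fun l => Tg (del (G, l))).sum := by
  have hn : PTime (fun G : Gr => G.1) :=
    (PTime.length PTime.codeGr).of_eq length_code_gr
  have hm' : PTime (fun G : Gr => m G.1) :=
    (hm.comp PTime.codeGr).of_eq fun G => by rw [length_code_gr]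
  have hcard : PTime (fun p : Gr × List ℕ => lcard p.1.1 p.2) :=
    (PTime.lcard (PTime.codeGr.comp PTime.fst) PTime.snd).of_eq fun p => by
      rw [length_code_gr]
  have hF : XC B sp (fC s g) fun p => Tg (del p) := by
    have h1 : PTime (fun q : (Gr × List ℕ) × ℕ =>
        if s = true ∧ lcard q.1.1.1 q.1.2 % 2 = 1 then ((0, q.2) : ℕ × ℕ) else (q.2, 0)) :=
      PTime.iteP (PTime.andP (PTime.const _) (PTime.eq (PTime.mod (hcard.comp PTime.fst)
        (PTime.const 2)) (PTime.const 1))) ((PTime.const 0).pair PTime.snd)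
        (PTime.snd.pair (PTime.const 0))
    have h2 := (h1.xc (B := B) (sp := sp) fun _ => 0).comp
      ((PTime.id.xc fun _ => 0).pair (hg.comp (PTime.del.xc fun _ => 0)))
    exact h2.mono fun p => by omega
  have h := XC.chainSum (B := B) (sp := sp) (Lst := fun G : Gr => subs G.1 (m G.1))
    (nx := fun G l => nxt G.1 (m G.1) l) [] (PTime.const (some []))
    (PTime.nxt (hn.comp PTime.fst) (hm'.comp PTime.fst) PTime.snd)
    (fun G => subs_chained _ _) (W := fun n => n * (4 * n + 2) + 1)
    ((PBd.id.mul (((PBd.const 4).mul PBd.id).add (PBd.const 2))).add (PBd.const 1)) ?_ ?_ ?_ hF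
  · exact h
  · intro a b hab
    simp only
    have : a * (4 * a + 2) ≤ b * (4 * b + 2) := Nat.mul_le_mul hab (by omega)
    omega
  · intro G l hl
    refine (size_subs hl).trans ?_
    have h1 := size_gr_ge G
    exact Nat.add_le_add_right (Nat.mul_le_mul (by omega) (by omega)) 1
  · intro G
    refine (subs_length_le _ _).trans (Nat.pow_le_pow_right (by norm_num) ?_)
    have h1 := size_gr_ge G
    nlinarith

/-! ### The two reductions -/

/-- Weight `1`. -/
def wOne (_ : List (List Bool) × ℕ) : ℕ := 1

/-- Weight `(n - k - 1).choose (m n)`. -/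
def wBin (m : ℕ → ℕ) (p : List (List Bool) × ℕ) : ℕ :=
  cf p.1.length (m p.1.length) (p.1.length - p.2 - 1 - m p.1.length)

/-- All cycles from Hamiltonian cycles. -/
noncomputable def redCall (g : Gr → ℕ) (m : ℕ → ℕ) (G : Gr) : ℕ :=
  (sumC false g m G).1 + sumB wOne (fun n => n - m n) (code G.2)

/-- Hamiltonian cycles from all cycles. -/
noncomputable def redHam (g : Gr → ℕ) (m : ℕ → ℕ) (G : Gr) : ℕ :=
  if m G.1 % 2 = 0 then
    (sumC true g m G).1 - ((sumC true g m G).2 + sumB (wBin m) (fun n => n - m n) (code G.2))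
  else ((sumC true g m G).1 + sumB (wBin m) (fun n => n - m n) (code G.2)) - (sumC true g m G).2

theorem sumB_one (G : Gr) (top : ℕ → ℕ) :
    sumB wOne top (code G.2) = ∑ k ∈ Finset.range (top G.1), ck G.2 k := by
  rw [sumB, length_code_gr, Finset.sum_range, ← sum_finRange, range_map_eq]
  congr 1
  refine List.map_congr_left fun k _ => ?_
  rw [kc_spec, wOne, one_mul]

theorem sumB_bin (G : Gr) (m : ℕ → ℕ) :
    sumB (wBin m) (fun n => n - m n) (code G.2) =
      ∑ k ∈ Finset.range (G.1 - m G.1), (G.1 - k - 1).choose (m G.1) * ck G.2 k := by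
  rw [sumB, length_code_gr, Finset.sum_range, ← sum_finRange, range_map_eq]
  congr 1
  refine List.map_congr_left fun k _ => ?_
  have hk := k.2
  rw [kc_spec, wBin]
  simp only [length_code_gr]
  rw [cf_eq (by omega)]
  congr 2
  omega

theorem redCall_eq (m : ℕ → ℕ) (G : Gr) :
    redCall (fun H => hc H.2 Set.univ) m G = call G.2 := by
  rw [redCall, sumB_one, call_eq G.2 (m G.1), Fintype.card_fin]
  congr 1
  let φ : ℕ × ℕ →+ ℕ :=
    { toFun := fun p => p.1
      map_zero' := rfl
      map_add' := fun p q => rfl }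
  change φ (sumC false _ m G) = _
  rw [sumC, map_list_sum, List.map_map, ← subs_sum G.1 (m G.1)
    fun S : Finset (Fin G.1) => hc G.2 ((Sᶜ : Finset (Fin G.1)) : Set (Fin G.1))]
  congr 1
  refine List.map_congr_left fun l _ => ?_
  rw [← hc_del G l]
  rfl

theorem redHam_eq (m : ℕ → ℕ) (G : Gr) :
    redHam (fun H => call H.2) m G = hc G.2 Set.univ := by
  have h1 := ham_eq G.2 (m G.1)
  rw [Fintype.card_fin] at h1
  let φ : ℕ × ℕ →+ ℤ :=
    { toFun := fun p => (p.1 : ℤ) - p.2
      map_zero' := by simp
      map_add' := fun p q => by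
        simp only [Prod.fst_add, Prod.snd_add]; push_cast; ring }
  have h2 : φ (sumC true (fun H => call H.2) m G) = ∑ S : Finset (Fin G.1),
      (if S.card ≤ m G.1 then (-1) ^ S.card *
        ∑ B ∈ (Sᶜ).powerset, (hc G.2 (B : Set (Fin G.1)) : ℤ) else 0) := by
    rw [sumC, map_list_sum, List.map_map, ← subs_sum G.1 (m G.1)
      fun S : Finset (Fin G.1) => (-1 : ℤ) ^ S.card *
        ∑ B ∈ (Sᶜ).powerset, (hc G.2 (B : Set (Fin G.1)) : ℤ)]
    congr 1
    refine List.map_congr_left fun l _ => ?_
    simp only [Function.comp_apply]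
    rw [fC]
    simp only [true_and]
    rw [lcard_eq, call_del]
    by_cases h : ({v | v.val ∈ l} : Finset (Fin G.1)).card % 2 = 1
    · rw [if_pos h, (Nat.odd_iff.2 h).neg_one_pow]
      change (((0 : ℕ) : ℤ) - ((∑ B ∈ (({v | v.val ∈ l} : Finset (Fin G.1))ᶜ).powerset,
        hc G.2 (B : Set (Fin G.1)) : ℕ) : ℤ)) = _
      push_cast
      ring
    · rw [if_neg h, (Nat.even_iff.2 (by omega)).neg_one_pow]
      change (((∑ B ∈ (({v | v.val ∈ l} : Finset (Fin G.1))ᶜ).powerset,
        hc G.2 (B : Set (Fin G.1)) : ℕ) : ℤ) - ((0 : ℕ) : ℤ)) = _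
      push_cast
      ring
  rw [← h2] at h1
  have h3 : (∑ k ∈ Finset.range (G.1 - m G.1),
      ((G.1 - k - 1).choose (m G.1) : ℤ) * (ck G.2 k : ℤ)) =
      (sumB (wBin m) (fun n => n - m n) (code G.2) : ℤ) := by
    rw [sumB_bin]
    push_cast
    rfl
  rw [h3] at h1
  change (hc G.2 Set.univ : ℤ) = (((sumC true (fun H => call H.2) m G).1 : ℤ) -
    (sumC true (fun H => call H.2) m G).2) - _ at h1
  rw [redHam]
  by_cases h : m G.1 % 2 = 0
  · rw [if_pos h]
    rw [(Nat.even_iff.2 h).neg_one_pow, one_mul] at h1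
    omega
  · rw [if_neg h]
    rw [(Nat.odd_iff.2 (by omega)).neg_one_pow] at h1
    omega

/-- The time bound of the two reductions. -/
def redTime (Tg : Gr → ℕ) (m : ℕ → ℕ) (G : Gr) : ℕ :=
  ((subs G.1 (m G.1)).length + ((subs G.1 (m G.1)).map fun l => Tg (del (G, l))).sum) +
    ((G.1 - m G.1) + ((List.range (G.1 - m G.1)).map fun k =>
      ∑ i ∈ Finset.range (k / 2 + 1), G.1.choose i).sum)

theorem XC.sumBGr (B : Box) (sp : Prop) {w : List (List Bool) × ℕ → ℕ} (hw : PTime w)
    {m : ℕ → ℕ} (hm : PTime fun L : List (List Bool) => m L.length) :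
    XC B sp (fun G : Gr => MP_b35d54_lc.sumB w (fun n => n - m n) (code G.2)) fun G =>
      (G.1 - m G.1) + ((List.range (G.1 - m G.1)).map fun k =>
        ∑ i ∈ Finset.range (k / 2 + 1), G.1.choose i).sum := by
  have h1 := XC.sumB B sp hw (top := fun n => n - m n)
    (PTime.sub (PTime.length PTime.id) hm) (fun n => by omega)
  refine (h1.comp (PTime.codeGr.xc fun _ => 0)).mono fun G => ?_
  rw [length_code_gr]
  omega

theorem XC.redCall {B : Box} {sp : Prop} {g : Gr → ℕ} {Tg : Gr → ℕ} (hg : XC B sp g Tg)
    {m : ℕ → ℕ} (hm : PTime fun L : List (List Bool) => m L.length) :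
    XC B sp (redCall g m) (redTime Tg m) := by
  have h1 : PTime (fun q : (ℕ × ℕ) × ℕ => q.1.1 + q.2) :=
    PTime.add (PTime.fst' PTime.fst) PTime.snd
  have h2 := (h1.xc (B := B) (sp := sp) fun _ => 0).comp
    ((XC.sumC false hg hm).pair (XC.sumBGr B sp (w := wOne) (PTime.const 1) hm))
  exact h2.mono fun G => le_of_eq (Nat.add_zero _)

theorem XC.redHam {B : Box} {sp : Prop} {g : Gr → ℕ} {Tg : Gr → ℕ} (hg : XC B sp g Tg)
    {m : ℕ → ℕ} (hm : PTime fun L : List (List Bool) => m L.length) :
    XC B sp (redHam g m) (redTime Tg m) := by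
  have hw : PTime (wBin m) := by
    have hL : PTime (fun p : List (List Bool) × ℕ => p.1) := PTime.fst
    exact PTime.cf hL (hm.comp PTime.fst) (PTime.sub (PTime.sub (PTime.sub
      (PTime.length PTime.fst) PTime.snd) (PTime.const 1)) (hm.comp PTime.fst))
  have hm' : PTime (fun G : Gr => m G.1) :=
    (hm.comp PTime.codeGr).of_eq fun G => by rw [length_code_gr]
  have h1 : PTime (fun q : Gr × ((ℕ × ℕ) × ℕ) => if m q.1.1 % 2 = 0 then
      q.2.1.1 - (q.2.1.2 + q.2.2) else (q.2.1.1 + q.2.2) - q.2.1.2) := by
    have e1 : PTime (fun q : Gr × ((ℕ × ℕ) × ℕ) => q.2.1.1) := PTime.fst' (PTime.fst' PTime.snd)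
    have e2 : PTime (fun q : Gr × ((ℕ × ℕ) × ℕ) => q.2.1.2) := PTime.snd' (PTime.fst' PTime.snd)
    have e3 : PTime (fun q : Gr × ((ℕ × ℕ) × ℕ) => q.2.2) := PTime.snd' PTime.snd
    exact PTime.iteP (PTime.eq (PTime.mod (hm'.comp PTime.fst) (PTime.const 2))
      (PTime.const 0)) (PTime.sub e1 (PTime.add e2 e3)) (PTime.sub (PTime.add e1 e3) e2)
  have h2 := (h1.xc (B := B) (sp := sp) fun _ => 0).comp
    ((PTime.id.xc fun _ => 0).pair ((XC.sumC true hg hm).pair (XC.sumBGr B sp hw hm)))
  exact h2.mono fun G => by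
    change 0 + redTime Tg m G + 0 ≤ redTime Tg m G
    omega

end Pool.Agent.MP_b35d54_lc
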