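import Pool.Agent.Lib.MP_b35d54_lc.Formula

/-!
# Closed walks and traces
-/

namespace Pool.Agent.MP_b35d54_lc

open Finset

variable {V : Type} [Fintype V] [DecidableEq V]

theorem sum_paths (A : Matrix V V ℕ) : ∀ (K : ℕ) (g : V → V → ℕ),
    ∑ w : Fin (K + 1) → V, (∏ i : Fin K, A (w i.castSucc) (w i.succ)) *
      g (w 0) (w (Fin.last K)) = ∑ u, ∑ v, (A ^ K) u v * g u v := by
  intro K
  induction K with
  | zero =>
    intro g
    simp only [univ_eq_empty, prod_empty, one_mul, pow_zero]
    rw [← (Equiv.funUnique (Fin 1) V).symm.sum_comp]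
    refine sum_congr rfl fun u _ => ?_
    rw [sum_eq_single u]
    · simp [Matrix.one_apply_eq]
    · intro v _ hv
      rw [Matrix.one_apply_ne hv.symm, zero_mul]
    · intro h; exact absurd (mem_univ _) h
  | succ K ih =>
    intro g
    rw [← (Fin.consEquiv fun _ : Fin (K + 2) => V).sum_comp, Fintype.sum_prod_type]
    have h1 : ∀ x : V, ∀ w : Fin (K + 1) → V,
        (∏ i : Fin (K + 1), A ((Fin.consEquiv fun _ : Fin (K + 2) => V) (x, w) i.castSucc)
          ((Fin.consEquiv fun _ : Fin (K + 2) => V) (x, w) i.succ)) *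
        g ((Fin.consEquiv fun _ : Fin (K + 2) => V) (x, w) 0)
          ((Fin.consEquiv fun _ : Fin (K + 2) => V) (x, w) (Fin.last (K + 1))) =
        (∏ i : Fin K, A (w i.castSucc) (w i.succ)) * (A x (w 0) * g x (w (Fin.last K))) := by
      intro x w
      rw [Fin.prod_univ_succ]
      have e1 : (Fin.consEquiv fun _ : Fin (K + 2) => V) (x, w) =
          (Fin.cons x w : Fin (K + 2) → V) := rfl
      rw [e1]
      simp only [Fin.castSucc_zero, Fin.cons_zero, Fin.cons_succ]
      have e2 : ∀ i : Fin K, (Fin.cons x w : Fin (K + 2) → V) (i.succ.castSucc) =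
          w i.castSucc := by
        intro i
        rw [← Fin.succ_castSucc, Fin.cons_succ]
      have e3 : (Fin.cons x w : Fin (K + 2) → V) (Fin.last (K + 1)) = w (Fin.last K) := by
        rw [← Fin.succ_last, Fin.cons_succ]
      simp only [e2, e3]
      ring
    simp_rw [h1]
    rw [sum_comm]
    simp_rw [← mul_sum]
    rw [ih fun a b => ∑ x, A x a * g x b]
    rw [sum_comm]
    have h2 : ∀ x v, (A ^ (K + 1)) x v = ∑ a, A x a * (A ^ K) a v := by
      intro x v
      rw [pow_succ', Matrix.mul_apply]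
    simp_rw [h2, sum_mul, mul_sum]
    rw [sum_comm]
    rw [sum_comm]
    conv_rhs => rw [sum_comm]
    refine sum_congr rfl fun v _ => ?_
    conv_rhs => rw [sum_comm]
    refine sum_congr rfl fun a _ => ?_
    refine sum_congr rfl fun x _ => ?_
    ring

theorem trace_pow_succ (A : Matrix V V ℕ) (K : ℕ) :
    ∑ v, (A ^ (K + 1)) v v = ∑ w : Fin (K + 1) → V, ∏ i : Fin (K + 1), A (w i) (w (i + 1)) := by
  have h1 := sum_paths A K fun u v => A v u
  have h2 : ∑ v, (A ^ (K + 1)) v v = ∑ u, ∑ v, (A ^ K) u v * A v u := by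
    refine sum_congr rfl fun u _ => ?_
    rw [pow_succ, Matrix.mul_apply]
  rw [h2, ← h1]
  refine sum_congr rfl fun w _ => ?_
  rw [Fin.prod_univ_castSucc]
  congr 1
  · refine prod_congr rfl fun i _ => ?_
    rw [Fin.coeSucc_eq_succ]
  · rw [Fin.last_add_one]

open Classical in
/-- The adjacency matrix restricted to the rows of `S`. -/
noncomputable def rmat (G : SimpleGraph V) (S : Finset V) : Matrix V V ℕ :=
  fun u v => if u ∈ S ∧ G.Adj u v then 1 else 0

theorem wc_eq_trace (G : SimpleGraph V) {k : ℕ} (hk : 0 < k) (S : Finset V) :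
    wc G k S = ∑ v, (rmat G S ^ k) v v := by
  classical
  obtain ⟨K, rfl⟩ : ∃ K, k = K + 1 := ⟨k - 1, by omega⟩
  rw [trace_pow_succ]
  have h1 : ∀ w : Fin (K + 1) → V, ∏ i : Fin (K + 1), rmat G S (w i) (w (i + 1)) =
      if ∀ i, w i ∈ S ∧ G.Adj (w i) (w (i + 1)) then 1 else 0 := by
    intro w
    unfold rmat
    split_ifs with h
    · exact prod_eq_one fun i _ => if_pos (h i)
    · push Not at h
      obtain ⟨i, hi⟩ := h
      exact prod_eq_zero (mem_univ i) (if_neg fun h => hi h.1 h.2)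
  simp_rw [h1]
  have e : wc G (K + 1) S = Set.ncard {w : Fin (K + 1) → V |
      ∀ i, w i ∈ S ∧ G.Adj (w i) (w (i + 1))} := by
    unfold wc
    apply congrArg (Set.ncard (α := Fin (K + 1) → V))
    apply Set.ext
    intro w
    constructor
    · rintro ⟨h2, h3⟩
      exact fun i => ⟨h3 i, h2 i⟩
    · intro h2
      exact ⟨fun i => (h2 i).2, fun i => (h2 i).1⟩
  rw [e, sum_boole, Set.ncard_eq_toFinset_card', Nat.cast_id]
  congr 1
  ext w
  simp

end Pool.Agent.MP_b35d54_lc
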