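import Pool.Agent.Lib.MP_b35d54_lc.StageB
import Pool.Agent.Lib.MP_b35d54_lc.Estimates

/-!
# Running times as functions of the number of vertices, and the two reductions
-/

namespace Pool.Agent.MP_b35d54_lc

open Pool.Agent.PolyTime Finset Real

/-- The function `f` of graphs is computed by a machine that, on all graphs `G` with `n` vertices,
makes at most `p n * a ^ n` steps, for a polynomial `p`; if `sp` holds, it also uses at most
`p n` stack cells. -/
def Solves (sp : Prop) (a : ℝ) (f : Gr → ℕ) : Prop :=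
  ∃ (B : Box) (p : Polynomial ℕ), ∀ G : Gr, ∃ t S : ℕ,
    B.Runs (bits (enc G)) (bits (enc (f G))) t S ∧
      (t : ℝ) ≤ (p.eval G.1 : ℕ) * a ^ G.1 ∧ (sp → S ≤ p.eval G.1)

theorem Solves.mono {sp : Prop} {a b : ℝ} {f : Gr → ℕ} (h : Solves sp a f) (ha : 0 ≤ a)
    (hab : a ≤ b) : Solves sp b f := by
  obtain ⟨B, p, h⟩ := h
  refine ⟨B, p, fun G => ?_⟩
  obtain ⟨t, S, h1, h2, h3⟩ := h G
  exact ⟨t, S, h1, h2.trans (mul_le_mul_of_nonneg_left (pow_le_pow_left₀ ha hab _)
    (Nat.cast_nonneg _)), h3⟩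

/-! ### Sizes -/

theorem size_gr_le (G : Gr) : size (enc G) ≤ G.1 * (4 * G.1 + 2) + 1 := by
  change size (enc (code G.2)) ≤ _
  have h1 := size_list_le (code G.2) (4 * G.1 + 1) fun row hrow => by
    rw [code_eq, List.mem_map] at hrow
    obtain ⟨i, _, rfl⟩ := hrow
    refine (size_bits_le _).trans ?_
    rw [List.length_map, List.length_finRange]
  rwa [length_code_gr] at h1

theorem ncard_subgraph_le {n : ℕ} (G : SimpleGraph (Fin n)) (P : Set G.Subgraph) :
    P.ncard ≤ 2 ^ (n + n * n) := by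
  classical
  have h1 : P.ncard ≤ Nat.card G.Subgraph := by
    rw [← Set.ncard_univ]
    exact Set.ncard_le_ncard (Set.subset_univ _) (Set.toFinite _)
  refine h1.trans ?_
  have h2 : Nat.card G.Subgraph ≤ Nat.card ((Fin n → Prop) × (Fin n → Fin n → Prop)) := by
    refine Nat.card_le_card_of_injective
      (fun H : G.Subgraph => ((fun v => v ∈ H.verts, H.Adj) :
        (Fin n → Prop) × (Fin n → Fin n → Prop))) ?_
    intro H H' h
    rw [Prod.mk.injEq] at h
    refine SimpleGraph.Subgraph.ext ?_ h.2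
    ext v
    exact iff_of_eq (congrFun h.1 v)
  refine h2.trans (le_of_eq ?_)
  rw [Nat.card_prod, Nat.card_fun, Nat.card_fun, Nat.card_fun]
  simp only [Nat.card_eq_fintype_card, Fintype.card_prop, Fintype.card_fin]
  rw [pow_add, pow_mul]

theorem size_le_of_bound {f : Gr → ℕ} (hf : ∀ G, f G ≤ 2 ^ (G.1 + G.1 * G.1)) (G : Gr) :
    size (enc (f G)) ≤ 4 * (size (enc G) + size (enc G) * size (enc G) + 1) + 1 := by
  have h1 : f G < 2 ^ (G.1 + G.1 * G.1 + 1) :=
    (hf G).trans_lt (Nat.pow_lt_pow_right (by norm_num) (Nat.lt_succ_self _))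
  have h2 := size_nat_le_of_lt h1
  have h3 := size_gr_ge G
  have h4 : G.1 * G.1 ≤ size (enc G) * size (enc G) := Nat.mul_le_mul (by omega) (by omega)
  omega

/-! ### From algorithms to calls and back -/

theorem Solves.xc {sp : Prop} {b : ℝ} {g : Gr → ℕ} (h : Solves sp b g)
    (hg : ∀ G, g G ≤ 2 ^ (G.1 + G.1 * G.1)) :
    ∃ (B : Box) (Tg : Gr → ℕ) (p : Polynomial ℕ), XC B sp g Tg ∧
      ∀ G, (Tg G : ℝ) ≤ (p.eval G.1 : ℕ) * b ^ G.1 := by
  obtain ⟨B, p, h⟩ := h
  choose t S h1 h2 h3 using h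
  refine ⟨B, t, p, ?_, h2⟩
  refine XC.call (q := fun n => p.eval n + (4 * (n + n * n + 1) + 1)) ?_ ?_ fun G => ?_
  · exact PBd.add ⟨p, fun n => le_rfl⟩ (((PBd.const 4).mul ((PBd.id.add
      (PBd.id.mul PBd.id)).add (PBd.const 1))).add (PBd.const 1))
  · intro a c hac
    have e1 := eval_mono p hac
    have e2 : a * a ≤ c * c := Nat.mul_le_mul hac hac
    simp only at e1 ⊢
    omega
  · have h4 := size_gr_ge G
    have e1 : p.eval G.1 ≤ p.eval (size (enc G)) := eval_mono p (by omega)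
    refine ⟨t G, S G, h1 G, le_rfl, fun hs => ?_, ?_⟩
    · have := h3 G hs
      omega
    · have := size_le_of_bound hg G
      omega

theorem XC.solves {B : Box} {sp : Prop} {f : Gr → ℕ} {T : Gr → ℕ} (h : XC B sp f T) {a : ℝ}
    (ha : 0 ≤ a) (p : Polynomial ℕ) (hT : ∀ G, (T G : ℝ) + 1 ≤ (p.eval G.1 : ℕ) * a ^ G.1) :
    Solves sp a f := by
  obtain ⟨B', q, ⟨Q, hQ⟩, hqm, h⟩ := h.box
  set Z : Polynomial ℕ := Polynomial.X * (4 * Polynomial.X + 2) + 1 with hZ
  have hZe : ∀ n : ℕ, Z.eval n = n * (4 * n + 2) + 1 := fun n => by simp [hZ]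
  refine ⟨B', Q.comp Z * p + Q.comp Z, fun G => ?_⟩
  obtain ⟨t, S, h1, h2, h3⟩ := h G
  have h4 : q (size (enc G)) ≤ (Q.comp Z).eval G.1 := by
    rw [Polynomial.eval_comp, hZe]
    exact (hqm (size_gr_le G)).trans (hQ _)
  refine ⟨t, S, h1, ?_, fun hs => ?_⟩
  · have h5 : (t : ℝ) ≤ (q (size (enc G)) : ℝ) * ((T G : ℝ) + 1) := by
      exact_mod_cast h2
    have h6 : (q (size (enc G)) : ℝ) ≤ ((Q.comp Z).eval G.1 : ℕ) := by exact_mod_cast h4
    have h7 : (0 : ℝ) ≤ a ^ G.1 := pow_nonneg ha _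
    have h8 : (0 : ℝ) ≤ (T G : ℝ) + 1 := by positivity
    rw [Polynomial.eval_add, Polynomial.eval_mul]
    push_cast
    calc (t : ℝ) ≤ (q (size (enc G)) : ℝ) * ((T G : ℝ) + 1) := h5
      _ ≤ ((Q.comp Z).eval G.1 : ℕ) * ((p.eval G.1 : ℕ) * a ^ G.1) :=
          mul_le_mul h6 (hT G) h8 (Nat.cast_nonneg _)
      _ ≤ ((((Q.comp Z).eval G.1 : ℕ) : ℝ) * ((p.eval G.1 : ℕ) : ℝ) +
          (((Q.comp Z).eval G.1 : ℕ) : ℝ)) * a ^ G.1 := by
          have : (0 : ℝ) ≤ (((Q.comp Z).eval G.1 : ℕ) : ℝ) * a ^ G.1 :=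
            mul_nonneg (Nat.cast_nonneg _) h7
          linarith
  · have := h3 hs
    rw [Polynomial.eval_add]
    omega

/-! ### The time bound -/

theorem sum_small {n m : ℕ} (hmn : m ≤ n) (f : ℕ → ℝ) :
    ∑ S : Finset (Fin n), (if #S ≤ m then f #S else 0) =
      ∑ s ∈ range (m + 1), (n.choose s : ℝ) * f s := by
  have h := sum_powerset_apply_card (fun i => if i ≤ m then f i else 0)
    (x := (univ : Finset (Fin n)))
  rw [powerset_univ, card_univ, Fintype.card_fin] at h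
  simp only [nsmul_eq_mul] at h
  rw [h]
  symm
  apply sum_subset_zero_on_sdiff (range_subset_range.2 (by omega))
  · intro s hs
    rw [mem_sdiff, mem_range, mem_range] at hs
    rw [if_neg (by omega), mul_zero]
  · intro s hs
    rw [mem_range] at hs
    rw [if_pos (by omega)]

theorem poly_eval_mono (p : Polynomial ℕ) {a b : ℕ} (h : a ≤ b) :
    ((p.eval a : ℕ) : ℝ) ≤ (p.eval b : ℕ) := by
  exact_mod_cast eval_mono p h

theorem redTime_le {Tg : Gr → ℕ} {p : Polynomial ℕ} {a b : ℝ} {u v : ℕ} (hv : 0 < v)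
    (hu : 0 < u) (huv : u < v) (hb : 1 ≤ b) (hbx : b * ((u : ℝ) / v) ≤ 1 - (u : ℝ) / v)
    (ha1 : exp (binEntropy ((u : ℝ) / v)) * b ^ (1 - (u : ℝ) / v) ≤ a)
    (ha2 : exp (binEntropy ((1 - (u : ℝ) / v) / 2)) ≤ a)
    (hTg : ∀ G, (Tg G : ℝ) ≤ (p.eval G.1 : ℕ) * b ^ G.1) (G : Gr) :
    (redTime Tg (fun n => u * n / v) G : ℝ) + 1 ≤
      ((p + 2 * Polynomial.X + 2).eval G.1 : ℕ) * a ^ G.1 := by
  set n := G.1 with hn
  set m := u * n / v with hm
  set δ : ℝ := (u : ℝ) / v with hδ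
  have hv' : (0 : ℝ) < v := by exact_mod_cast hv
  have hu' : (0 : ℝ) < u := by exact_mod_cast hu
  have hδ0 : 0 < δ := by positivity
  have hδ1 : δ < 1 := by rw [hδ, div_lt_one hv']; exact_mod_cast huv
  have hmle : (m : ℝ) ≤ δ * n := by
    have h1 : m * v ≤ u * n := Nat.div_mul_le_self _ _
    have h2 : (m : ℝ) * v ≤ u * n := by exact_mod_cast h1
    rw [hδ, div_mul_eq_mul_div, le_div_iff₀ hv']
    exact h2
  have hmge : δ * n < m + 1 := by
    have h1 : u * n < v * (m + 1) := by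
      have := Nat.lt_mul_div_succ (u * n) hv
      exact this
    have h2 : (u : ℝ) * n < v * (m + 1) := by exact_mod_cast h1
    rw [hδ, div_mul_eq_mul_div, div_lt_iff₀ hv']
    linarith
  have hmn : m ≤ n := by
    have : (m : ℝ) ≤ n := hmle.trans (by nlinarith [Nat.cast_nonneg (α := ℝ) n])
    exact_mod_cast this
  have ha0 : 0 ≤ a := (exp_pos _).le.trans ha2
  have ha1' : 1 ≤ a := (one_le_exp_binEntropy (by linarith) (by linarith)).trans ha2
  have han : (1 : ℝ) ≤ a ^ n := one_le_pow₀ ha1'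
  -- the sum of the binomial coefficients with weights
  have hW : ∑ s ∈ range (m + 1), (n.choose s : ℝ) * b ^ (n - s) ≤ a ^ n :=
    (sum_choose_pow_le (by linarith) hδ0 hδ1 hbx hmle).trans
      (pow_le_pow_left₀ (by positivity) ha1 n)
  -- first part
  have hA : ((subs n m).length : ℝ) ≤ a ^ n := by
    rw [subs_length]
    push_cast
    refine le_trans (sum_le_sum fun s _ => ?_) hW
    have : (1 : ℝ) ≤ b ^ (n - s) := one_le_pow₀ hb
    have h2 : (0 : ℝ) ≤ (n.choose s : ℝ) := Nat.cast_nonneg _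
    nlinarith
  -- second part
  have hB : ((((subs n m).map fun l => Tg (del (G, l))).sum : ℕ) : ℝ) ≤
      (p.eval n : ℕ) * a ^ n := by
    have e1 : ((((subs n m).map fun l => Tg (del (G, l))).sum : ℕ) : ℝ) =
        ((subs n m).map fun l => (Tg (del (G, l)) : ℝ)).sum := by
      rw [Nat.cast_list_sum, List.map_map]
      rfl
    rw [e1]
    have e2 : ((subs n m).map fun l => (Tg (del (G, l)) : ℝ)).sum ≤
        ((subs n m).map fun l => (fun S : Finset (Fin n) => ((p.eval n : ℕ) : ℝ) *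
          b ^ (n - #S)) ({v | v.val ∈ l} : Finset (Fin n))).sum := by
      refine List.sum_le_sum fun l _ => ?_
      have e3 : (del (G, l)).1 + #({v | v.val ∈ l} : Finset (Fin n)) = n := del_fst G l
      have e4 : (del (G, l)).1 = n - #({v | v.val ∈ l} : Finset (Fin n)) := by omega
      refine (hTg _).trans ?_
      change _ ≤ ((p.eval n : ℕ) : ℝ) * b ^ (n - #({v | v.val ∈ l} : Finset (Fin n)))
      rw [← e4]
      exact mul_le_mul_of_nonneg_right (poly_eval_mono p (by omega)) (by positivity)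
    refine e2.trans ?_
    rw [subs_sum n m (fun S : Finset (Fin n) => ((p.eval n : ℕ) : ℝ) * b ^ (n - #S)),
      sum_small hmn fun s => ((p.eval n : ℕ) : ℝ) * b ^ (n - s)]
    have e5 : ∑ s ∈ range (m + 1), (n.choose s : ℝ) * (((p.eval n : ℕ) : ℝ) * b ^ (n - s)) =
        ((p.eval n : ℕ) : ℝ) * ∑ s ∈ range (m + 1), (n.choose s : ℝ) * b ^ (n - s) := by
      rw [mul_sum]
      exact sum_congr rfl fun s _ => by ring
    rw [e5]
    exact mul_le_mul_of_nonneg_left hW (Nat.cast_nonneg _)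
  -- third part
  have hC : ∀ k ∈ List.range (n - m), ((∑ i ∈ range (k / 2 + 1), n.choose i : ℕ) : ℝ) ≤
      a ^ n := by
    intro k hk
    rw [List.mem_range] at hk
    push_cast
    have h1 : ((k / 2 : ℕ) : ℝ) ≤ (1 - δ) / 2 * n := by
      have h2 : ((k / 2 : ℕ) : ℝ) ≤ (k : ℝ) / 2 := Nat.cast_div_le
      have h3 : (k : ℝ) + 1 ≤ n - m := by
        have : k + 1 + m ≤ n := by omega
        have : ((k + 1 + m : ℕ) : ℝ) ≤ n := by exact_mod_cast this
        push_cast at this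
        linarith
      have h4 : (k : ℝ) ≤ (1 - δ) * n := by nlinarith
      linarith
    exact (sum_choose_le (by linarith) (by linarith) h1).trans
      (pow_le_pow_left₀ (exp_pos _).le ha2 n)
  have hD : ((((List.range (n - m)).map fun k =>
      ∑ i ∈ range (k / 2 + 1), n.choose i).sum : ℕ) : ℝ) ≤ n * a ^ n := by
    rw [Nat.cast_list_sum, List.map_map]
    have h1 : ((List.range (n - m)).map ((Nat.cast : ℕ → ℝ) ∘ fun k =>
        ∑ i ∈ range (k / 2 + 1), n.choose i)).sum ≤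
        ((List.range (n - m)).map fun _ => a ^ n).sum := List.sum_le_sum hC
    refine h1.trans ?_
    rw [List.map_const', List.sum_replicate, List.length_range, nsmul_eq_mul]
    refine mul_le_mul_of_nonneg_right ?_ (by positivity)
    exact_mod_cast Nat.sub_le n m
  have hE : ((n - m : ℕ) : ℝ) ≤ n * a ^ n := by
    have h1 : ((n - m : ℕ) : ℝ) ≤ n := by exact_mod_cast Nat.sub_le n m
    have h2 : (0 : ℝ) ≤ (n : ℝ) := Nat.cast_nonneg _
    nlinarith
  have hev : (((p + 2 * Polynomial.X + 2).eval n : ℕ) : ℝ) = (p.eval n : ℕ) + 2 * n + 2 := by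
    rw [Polynomial.eval_add, Polynomial.eval_add, Polynomial.eval_mul]
    simp
  rw [hev, redTime]
  push_cast at hA hB hD hE ⊢
  have e6 : (((subs n (u * n / v)).length : ℕ) : ℝ) ≤ a ^ n := hA
  nlinarith [hA, hB, hD, hE, han]

/-! ### The two transfers -/

theorem transfer {sp : Prop} {a b : ℝ} {u v : ℕ} (hu : 0 < u) (huv : u < v) (hb : 1 ≤ b)
    (hbx : b * ((u : ℝ) / v) ≤ 1 - (u : ℝ) / v)
    (ha1 : exp (binEntropy ((u : ℝ) / v)) * b ^ (1 - (u : ℝ) / v) ≤ a)
    (ha2 : exp (binEntropy ((1 - (u : ℝ) / v) / 2)) ≤ a) :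
    (Solves sp b (fun G => hc G.2 Set.univ) → Solves sp a (fun G => call G.2)) ∧
    (Solves sp b (fun G => call G.2) → Solves sp a (fun G => hc G.2 Set.univ)) := by
  have hm : PTime (fun L : List (List Bool) => u * L.length / v) :=
    PTime.div (PTime.mul (PTime.const u) (PTime.length PTime.id)) (PTime.const v)
  have ha0 : 0 ≤ a := (exp_pos _).le.trans ha2
  constructor
  · intro h
    obtain ⟨B, Tg, p, h1, h2⟩ := h.xc fun G => ncard_subgraph_le _ _
    have h3 := XC.redCall h1 (m := fun n => u * n / v) hm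
    have h4 : XC B sp (fun G : Gr => call G.2) (redTime Tg fun n => u * n / v) :=
      h3.of_eq fun G => redCall_eq _ G
    exact XC.solves h4 ha0 _ fun G =>
      redTime_le (by omega) hu huv hb hbx ha1 ha2 h2 G
  · intro h
    obtain ⟨B, Tg, p, h1, h2⟩ := h.xc fun G => ncard_subgraph_le _ _
    have h3 := XC.redHam h1 (m := fun n => u * n / v) hm
    have h4 : XC B sp (fun G : Gr => hc G.2 Set.univ) (redTime Tg fun n => u * n / v) :=
      h3.of_eq fun G => redHam_eq _ G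
    exact XC.solves h4 ha0 _ fun G =>
      redTime_le (by omega) hu huv hb hbx ha1 ha2 h2 G

theorem equivalence {sp : Prop} :
    (∃ a : ℝ, 0 ≤ a ∧ a < 2 ∧ Solves sp a (fun G => call G.2)) ↔
      (∃ a : ℝ, 0 ≤ a ∧ a < 2 ∧ Solves sp a (fun G => hc G.2 Set.univ)) := by
  have key : ∀ b : ℝ, b < 2 → ∃ a : ℝ, 0 ≤ a ∧ a < 2 ∧ ∃ b' : ℝ, b ≤ b' ∧
      (Solves sp b' (fun G => hc G.2 Set.univ) → Solves sp a (fun G => call G.2)) ∧
      (Solves sp b' (fun G => call G.2) → Solves sp a (fun G => hc G.2 Set.univ)) := by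
    intro b hb
    have hb1 : 1 ≤ max b 1 := le_max_right _ _
    have hb2 : max b 1 < 2 := max_lt hb (by norm_num)
    obtain ⟨v, hv3, h1, h2⟩ := exists_delta hb1 hb2
    refine ⟨max (exp (binEntropy (1 / v)) * (max b 1) ^ ((1 : ℝ) - 1 / v))
      (exp (binEntropy ((1 - 1 / v) / 2))), le_max_of_le_right (exp_pos _).le,
      max_lt h1 h2, max b 1, le_max_left _ _, ?_⟩
    have hv : (3 : ℝ) ≤ v := by exact_mod_cast hv3
    have hv0 : (0 : ℝ) < v := by linarith
    apply transfer (u := 1) (v := v) one_pos (by omega) hb1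
    · rw [Nat.cast_one]
      have h4 : (1 : ℝ) / v ≤ 1 / 3 := one_div_le_one_div_of_le (by norm_num) hv
      have h5 : (0 : ℝ) < 1 / v := by positivity
      nlinarith
    · rw [Nat.cast_one]; exact le_max_left _ _
    · rw [Nat.cast_one]; exact le_max_right _ _
  constructor
  · rintro ⟨b, hb0, hb, h⟩
    obtain ⟨a, ha0, ha, b', hbb, hk⟩ := key b hb
    exact ⟨a, ha0, ha, hk.2 (h.mono hb0 hbb)⟩
  · rintro ⟨b, hb0, hb, h⟩
    obtain ⟨a, ha0, ha, b', hbb, hk⟩ := key b hb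
    exact ⟨a, ha0, ha, hk.1 (h.mono hb0 hbb)⟩

theorem from149 {sp : Prop} :
    (Solves sp 1.49 (fun G => hc G.2 Set.univ) → Solves sp 1.99 (fun G => call G.2)) ∧
    (Solves sp 1.49 (fun G => call G.2) → Solves sp 1.99 (fun G => hc G.2 Set.univ)) := by
  apply transfer (u := 7) (v := 69) (by norm_num) (by norm_num) (by norm_num)
  · norm_num
  · push_cast
    exact num1
  · push_cast
    exact num2

end Pool.Agent.MP_b35d54_lc
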